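import Mathlib

/-!
# Large gaps between primes (LG): definitions

`P` is a finite set of primes, `ι` the (finite) set of positions, `A p i m` means that the prime `p` hits
position `i` at the point `m` (in the application `p ∣ W * m + ν + h`).
An assignment `σ : P → Option ι` puts each prime of `P`
at one position, or nowhere.  Paper proof: team-store `h12_711652_LARGE_GAPS.md`.
-/

set_option autoImplicit false

namespace Pool.Agent.H.MP_711652_nt.LG

open Finset

/-- The hypotheses on the positions: for each prime `p ∈ P` the set of the `m` with `A p i m` is one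
residue class modulo `p`, and these classes are different for different positions. -/
structure Forms {ι : Type*} (P : Finset ℕ) (A : ℕ → ι → ℕ → Prop) : Prop where
  prime : ∀ p ∈ P, p.Prime
  per : ∀ p ∈ P, ∀ i m, A p i (m + p) ↔ A p i m
  one : ∀ p ∈ P, ∀ i, ∃ r < p, ∀ m < p, A p i m ↔ m = r
  disj : ∀ p ∈ P, ∀ i j m, i ≠ j → A p i m → ¬ A p j m

open Classical in
/-- The local factor: `1` if the prime is nowhere, `1 - p [A p i m]` if it is at position `i`. -/
noncomputable def Ef {ι : Type*} (A : ℕ → ι → ℕ → Prop) (p : ℕ) (t : Option ι) (m : ℕ) : ℝ :=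
  match t with
  | none => 1
  | some i => if A p i m then 1 - (p : ℝ) else 1

/-- `∏_p Ef`. -/
noncomputable def Phi {ι : Type*} (P : Finset ℕ) (A : ℕ → ι → ℕ → Prop) (σ : P → Option ι) (m : ℕ) :
    ℝ :=
  ∏ p : P, Ef A p (σ p) m

/-- The modulus of an assignment: the product of the primes which are somewhere. -/
def DD {ι : Type*} [DecidableEq ι] (P : Finset ℕ) (σ : P → Option ι) : ℕ :=
  ∏ p : P, if σ p = none then 1 else (p : ℕ)

/-- The product of the primes at position `i`. -/
def rr {ι : Type*} [DecidableEq ι] (P : Finset ℕ) (σ : P → Option ι) (i : ι) : ℕ :=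
  ∏ p : P, if σ p = some i then (p : ℕ) else 1

/-- `φ(DD σ)` as a product. -/
noncomputable def ph {ι : Type*} [DecidableEq ι] (P : Finset ℕ) (σ : P → Option ι) : ℝ :=
  ∏ p : P, if σ p = none then (1 : ℝ) else ((p : ℕ) : ℝ) - 1

/-- The mean value of `Ef A p s * Ef A p t` over a period. -/
noncomputable def kap {ι : Type*} [DecidableEq ι] (p : ℕ) (s t : Option ι) : ℝ :=
  if s = t then (if s = none then 1 else (p : ℝ) - 1) else (if s = none ∨ t = none then 0 else -1)

/-- The mean value of `Phi σ * Phi τ`. -/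
noncomputable def KK {ι : Type*} [DecidableEq ι] (P : Finset ℕ) (σ τ : P → Option ι) : ℝ :=
  ∏ p : P, kap (p : ℕ) (σ p) (τ p)

/-- The coefficient of the assignment `σ`. -/
noncomputable def cf {ι : Type*} [Fintype ι] [DecidableEq ι] (P : Finset ℕ) (chi : ι → ℕ → ℝ) (Y : ℕ)
    (σ : P → Option ι) : ℝ :=
  if DD P σ ≤ Y then ∏ i, chi i (rr P σ i) else 0

/-- The sifting function `Ψ`. -/
noncomputable def Psi {ι : Type*} [Fintype ι] [DecidableEq ι] (P : Finset ℕ) (A : ℕ → ι → ℕ → Prop)
    (chi : ι → ℕ → ℝ) (Y : ℕ) (m : ℕ) : ℝ :=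
  ∑ σ : P → Option ι, cf P chi Y σ * Phi P A σ m

/-- The sum over the sets `T` of primes which are nowhere in `σ` (including `T = ∅`) of
`chi i (∏ T)` with `DD σ * ∏ T ≤ Y`. -/
noncomputable def wt {ι : Type*} [Fintype ι] [DecidableEq ι] (P : Finset ℕ) (chi : ι → ℕ → ℝ) (Y : ℕ)
    (i : ι) (σ : P → Option ι) : ℝ :=
  ∑ T ∈ ((univ : Finset P).filter (fun p => σ p = none)).powerset,
    if DD P σ * (∏ p ∈ T, (p : ℕ)) ≤ Y then chi i (∏ p ∈ T, (p : ℕ)) else 0

/-- The coefficient of `σ` in the expansion of `Ψ m` when no prime of `P` hits position `i`. -/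
noncomputable def vf {ι : Type*} [Fintype ι] [DecidableEq ι] (P : Finset ℕ) (chi : ι → ℕ → ℝ) (Y : ℕ)
    (i : ι) (σ : P → Option ι) : ℝ :=
  if ∀ p, σ p ≠ some i then (∏ j, chi j (rr P σ j)) * wt P chi Y i σ else 0

/-- `∑_σ [DD σ ≤ Y] ∏_i u_i(r_i(σ))`. -/
noncomputable def SS {ι : Type*} [Fintype ι] [DecidableEq ι] (P : Finset ℕ) (Y : ℕ)
    (u : ι → ℕ → ℝ) : ℝ :=
  ∑ σ : P → Option ι, if DD P σ ≤ Y then ∏ i, u i (rr P σ i) else 0

/-- `δ_1`. -/
noncomputable def del (n : ℕ) : ℝ := if n = 1 then 1 else 0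

/-- `chi` for the weight `g` cut at `B`. -/
noncomputable def chg (g : ℕ → ℝ) (B : ℕ) (n : ℕ) : ℝ :=
  if n = 1 then 1 else if n ≤ B then -g n else 0

/-- `chi` for weights depending on the position. -/
noncomputable def chi {ι : Type*} (g : ι → ℕ → ℝ) (B : ℕ) (i : ι) (n : ℕ) : ℝ := chg (g i) B n

/-- The nonempty sets of primes of `P` with product at most `B`. -/
def QQ (P : Finset ℕ) (B : ℕ) : Finset (Finset ℕ) :=
  (P.powerset.erase ∅).filter (fun T => (∏ p ∈ T, p) ≤ B)

end Pool.Agent.H.MP_711652_nt.LG
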