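import Pool.Agent.H.MP_42e49e_nt.Mer

/-!
# Large gaps between primes (LG): sums and products over primes
-/

set_option autoImplicit false

namespace Pool.Agent.H.MP_711652_nt.LG

open Finset
open Pool.Agent.H.MP_3e6494_nt (prm mem_prm mert mert_lower mert_upper)
open Pool.MP42e49e (FF window FF_le)

theorem PrimeSum_FF_sub {v x : ℕ} (h : v ≤ x) :
    ∑ p ∈ (Ioc v x).filter Nat.Prime, 1 / (p : ℝ) = FF x - FF v := by
  have h1 : prm x = prm v ∪ (Ioc v x).filter Nat.Prime := by
    ext p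
    simp only [mem_union, mem_prm, mem_filter, mem_Ioc]
    constructor
    · rintro ⟨hp, hx⟩
      rcases le_or_gt p v with h2 | h2
      · exact Or.inl ⟨hp, h2⟩
      · exact Or.inr ⟨⟨h2, hx⟩, hp⟩
    · rintro (⟨hp, h2⟩ | ⟨⟨-, hx⟩, hp⟩)
      · exact ⟨hp, h2.trans h⟩
      · exact ⟨hp, hx⟩
  have h2 : Disjoint (prm v) ((Ioc v x).filter Nat.Prime) := by
    rw [disjoint_left]
    intro p hp hq
    rw [mem_prm] at hp
    rw [mem_filter, mem_Ioc] at hq
    omega
  unfold FF
  rw [h1, sum_union h2]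
  ring

/-- `∑_{p ≤ z} 1/p ≥ log log z - 18`. -/
theorem FF_ge {z : ℕ} (hz : 2 ≤ z) : Real.log (Real.log z) - 18 ≤ FF z := by
  have h1 := (window (v := 2) le_rfl hz).2
  have h2 : 0 ≤ FF 2 := by
    unfold FF
    exact sum_nonneg fun p _ => by positivity
  have h3 := Real.log_two_gt_d9
  have h4 := Real.log_two_lt_d9
  have h5 : Real.log (Real.log 2) ≤ 0 := Real.log_nonpos (by linarith) (by linarith)
  have h6 : 12 / Real.log 2 ≤ 18 := by
    rw [div_le_iff₀ (by linarith)]
    linarith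
  rw [Nat.cast_ofNat] at h1
  linarith

/-- Mertens' product, upper bound. -/
theorem prod_primes_le : ∃ C : ℝ, 0 < C ∧ ∀ z : ℕ, 2 ≤ z →
    ∏ p ∈ (Icc 1 z).filter Nat.Prime, (1 - 1 / (p : ℝ)) ≤ C / Real.log z := by
  refine ⟨Real.exp 18, Real.exp_pos _, fun z hz => ?_⟩
  have hz1 : (1 : ℝ) < z := by exact_mod_cast hz
  have hlz : 0 < Real.log z := Real.log_pos hz1
  have h1 : ∏ p ∈ (Icc 1 z).filter Nat.Prime, (1 - 1 / (p : ℝ)) ≤ Real.exp (-(FF z)) := by
    have h2 : Real.exp (-(FF z)) = ∏ p ∈ (Icc 1 z).filter Nat.Prime, Real.exp (-(1 / (p : ℝ))) := by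
      rw [← Real.exp_sum, sum_neg_distrib]
      rfl
    rw [h2]
    refine prod_le_prod ?_ ?_
    · intro p hp
      have hp1 : (1 : ℝ) ≤ p := by exact_mod_cast (mem_filter.1 hp).2.one_lt.le
      have : 1 / (p : ℝ) ≤ 1 := by
        rw [div_le_one (by linarith)]
        exact hp1
      linarith
    · intro p _
      have := Real.add_one_le_exp (-(1 / (p : ℝ)))
      linarith
  refine h1.trans ?_
  have h3 := FF_ge hz
  have h4 : Real.exp (-(FF z)) ≤ Real.exp (18 - Real.log (Real.log z)) :=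
    Real.exp_le_exp.2 (by linarith)
  refine h4.trans (le_of_eq ?_)
  rw [Real.exp_sub, Real.exp_log hlz]

/-- The primes between `x / 10` and `L`. -/
theorem sum_inv_window {x L : ℝ} (hx : Real.exp 6 ≤ x) (hL : x ≤ L) :
    ∑ p ∈ (Ioc ⌊x / 10⌋₊ ⌊L⌋₊).filter Nat.Prime, 1 / (p : ℝ) ≤
      (2 * Real.log (L / x) + 30) / Real.log x := by
  have he : (400 : ℝ) ≤ Real.exp 6 := by
    have h1 : Real.exp 6 = Real.exp 1 ^ 6 := by
      rw [← Real.exp_nat_mul]
      norm_num
    have h2 := Real.exp_one_gt_d9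
    rw [h1]
    calc (400 : ℝ) ≤ 2.7182818283 ^ 6 := by norm_num
      _ ≤ Real.exp 1 ^ 6 := pow_le_pow_left₀ (by norm_num) h2.le 6
  have hx4 : 400 ≤ x := he.trans hx
  have hx0 : 0 < x := by linarith
  have hl1 : 6 ≤ Real.log x := by
    rw [Real.le_log_iff_exp_le hx0]
    exact hx
  set v := ⌊x / 10⌋₊ with hv
  set X := ⌊L⌋₊ with hX
  have hv1 : x / 10 < v + 1 := Nat.lt_floor_add_one _
  have hv2 : x / 20 ≤ v := by linarith
  have hv3 : 2 ≤ v := by
    have : (20 : ℝ) ≤ v := by linarith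
    have h : 20 ≤ v := by exact_mod_cast this
    omega
  have hvx : v ≤ X := by
    apply Nat.floor_le_floor
    linarith
  have hXL : (X : ℝ) ≤ L := Nat.floor_le (by linarith)
  have hX0 : (0 : ℝ) < X := by
    have : (2 : ℝ) ≤ X := by exact_mod_cast hv3.trans hvx
    linarith
  have hv0 : (0 : ℝ) < v := by
    have : (2 : ℝ) ≤ v := by exact_mod_cast hv3
    linarith
  have hlv : Real.log x - 3 ≤ Real.log v := by
    have h1 : Real.log (x / 20) ≤ Real.log v := Real.log_le_log (by linarith) hv2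
    rw [Real.log_div hx0.ne' (by norm_num)] at h1
    have h2 : Real.log 20 ≤ 3 := by
      rw [Real.log_le_iff_le_exp (by norm_num)]
      have h3 : Real.exp 3 = Real.exp 1 ^ 3 := by
        rw [← Real.exp_nat_mul]
        norm_num
      rw [h3]
      calc (20 : ℝ) ≤ 2.7182818283 ^ 3 := by norm_num
        _ ≤ Real.exp 1 ^ 3 := pow_le_pow_left₀ (by norm_num) Real.exp_one_gt_d9.le 3
    linarith
  have hlv2 : Real.log x / 2 ≤ Real.log v := by linarith
  have hlv0 : 0 < Real.log v := by linarith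
  rw [PrimeSum_FF_sub hvx]
  have hw := (window hv3 hvx).1
  have hlX : Real.log X ≤ Real.log L := Real.log_le_log hX0 hXL
  have hlvX : Real.log v ≤ Real.log X := Real.log_le_log hv0 (by exact_mod_cast hvx)
  have h5 : Real.log (Real.log X) - Real.log (Real.log v) ≤
      (Real.log X - Real.log v) / Real.log v := by
    rw [← Real.log_div (by linarith) hlv0.ne']
    have h6 := Real.log_le_sub_one_of_pos (x := Real.log X / Real.log v)
      (div_pos (by linarith) hlv0)
    refine h6.trans (le_of_eq ?_)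
    field_simp
  have hLx : Real.log (L / x) = Real.log L - Real.log x :=
    Real.log_div (by linarith) hx0.ne'
  have h7 : (Real.log X - Real.log v) / Real.log v + 12 / Real.log v ≤
      (2 * Real.log (L / x) + 30) / Real.log x := by
    rw [← add_div, div_le_div_iff₀ hlv0 (by linarith)]
    have h8 : 0 ≤ Real.log L - Real.log x := by
      have := Real.log_le_log hx0 hL
      linarith
    rw [hLx]
    have h9 : (Real.log X - Real.log v + 12) * Real.log x ≤
        (Real.log L - Real.log x + 15) * Real.log x :=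
      mul_le_mul_of_nonneg_right (by linarith) (by linarith)
    have h10 : (Real.log L - Real.log x + 15) * Real.log x ≤
        (Real.log L - Real.log x + 15) * (2 * Real.log v) :=
      mul_le_mul_of_nonneg_left (by linarith) (by linarith)
    nlinarith
  linarith

/-- The same for `L ≤ x (log x)^3`. -/
theorem sum_inv_large {x L : ℝ} (hx : Real.exp 9 ≤ x) (hL : L ≤ x * Real.log x ^ 3) :
    ∑ p ∈ (Ioc ⌊x / 10⌋₊ ⌊L⌋₊).filter Nat.Prime, 1 / (p : ℝ) ≤
      36 * Real.log (Real.log x) / Real.log x := by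
  have hx0 : 0 < x := (Real.exp_pos _).trans_le hx
  have hl1 : 9 ≤ Real.log x := by
    rw [Real.le_log_iff_exp_le hx0]
    exact hx
  have hl2 : 1 ≤ Real.log (Real.log x) := by
    rw [Real.le_log_iff_exp_le (by linarith)]
    have := Real.exp_one_lt_d9
    linarith
  have h6 : Real.exp 6 ≤ x := (Real.exp_le_exp.2 (by norm_num)).trans hx
  have hxL : x ≤ x * Real.log x ^ 3 := by
    have h1 : (1 : ℝ) ≤ Real.log x ^ 3 := one_le_pow₀ (by linarith)
    nlinarith
  have h1 := sum_inv_window h6 hxL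
  have h2 : ∑ p ∈ (Ioc ⌊x / 10⌋₊ ⌊L⌋₊).filter Nat.Prime, 1 / (p : ℝ) ≤
      ∑ p ∈ (Ioc ⌊x / 10⌋₊ ⌊x * Real.log x ^ 3⌋₊).filter Nat.Prime, 1 / (p : ℝ) := by
    refine sum_le_sum_of_subset_of_nonneg ?_ fun p _ _ => by positivity
    refine filter_subset_filter _ (Ioc_subset_Ioc_right ?_)
    exact Nat.floor_le_floor hL
  refine h2.trans (h1.trans ?_)
  rw [div_le_div_iff_of_pos_right (by linarith)]
  have h3 : x * Real.log x ^ 3 / x = Real.log x ^ 3 := by
    field_simp
  rw [h3, Real.log_pow]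
  push_cast
  linarith

end Pool.Agent.H.MP_711652_nt.LG
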