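import Pool.Agent.H.MP_42e49e_nt.Fund2
import Pool.Agent.H.MP_42e49e_nt.SelSmall

/-!
# The weights `1 / (φ(r) log r)` on rough squarefree numbers

A squarefree number `r` with all prime factors in `(D, B]` is represented by the finset `S` of its
prime factors.
-/

set_option autoImplicit false

open Finset

namespace LG

open Pool.Agent.H.MP_3e6494_nt (prm mem_prm)
open Pool.MP42e49e (FF FF_le PP PP_ge PP_le rs rs2 rs_toList rs2_toList rs2_prm PP_toList sum_sqf)

/-- the primes in `(D, B]` -/
def prs (D B : ℕ) : Finset ℕ := (Ioc D B).filter Nat.Prime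

/-- the number `r` -/
noncomputable def pr (S : Finset ℕ) : ℝ := ∏ p ∈ S, (p : ℝ)

/-- Euler's function of `r` -/
noncomputable def ph (S : Finset ℕ) : ℝ := ∏ p ∈ S, ((p : ℝ) - 1)

/-- the rough squarefree numbers `1 < r ≤ B` -/
noncomputable def QQ (D B : ℕ) : Finset (Finset ℕ) :=
  (prs D B).powerset.filter fun S => S.Nonempty ∧ pr S ≤ B

/-- the normalising sum -/
noncomputable def S1 (D B : ℕ) : ℝ := ∑ S ∈ QQ D B, 1 / (ph S * Real.log (pr S))

/-- the weights -/
noncomputable def gg (D B : ℕ) (S : Finset ℕ) : ℝ :=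
  if S ∈ QQ D B then 1 / (S1 D B * (ph S * Real.log (pr S))) else 0

theorem mem_prs {D B p : ℕ} : p ∈ prs D B ↔ D < p ∧ p ≤ B ∧ p.Prime := by
  unfold prs
  rw [mem_filter, mem_Ioc, and_assoc]

theorem mem_QQ {D B : ℕ} {S : Finset ℕ} :
    S ∈ QQ D B ↔ S ⊆ prs D B ∧ S.Nonempty ∧ pr S ≤ B := by
  unfold QQ
  rw [mem_filter, mem_powerset]

theorem ph_pos {S : Finset ℕ} (h : ∀ p ∈ S, p.Prime) : 0 < ph S := by
  refine prod_pos fun p hp => ?_
  have : (2 : ℝ) ≤ p := by exact_mod_cast (h p hp).two_le
  linarith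

theorem pr_pos {S : Finset ℕ} (h : ∀ p ∈ S, p.Prime) : 0 < pr S := by
  refine prod_pos fun p hp => ?_
  exact_mod_cast (h p hp).pos

theorem one_le_pr {S : Finset ℕ} (h : ∀ p ∈ S, p.Prime) : 1 ≤ pr S := by
  unfold pr
  calc (1 : ℝ) = ∏ p ∈ S, (1 : ℝ) := prod_const_one.symm
    _ ≤ ∏ p ∈ S, (p : ℝ) := prod_le_prod (fun _ _ => zero_le_one) fun p hp => by
        exact_mod_cast (h p hp).one_lt.le

theorem ph_le_pr {S : Finset ℕ} (h : ∀ p ∈ S, p.Prime) : ph S ≤ pr S := by
  refine prod_le_prod (fun p hp => ?_) fun p _ => by linarith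
  have : (2 : ℝ) ≤ p := by exact_mod_cast (h p hp).two_le
  linarith

theorem le_pr_of_mem {S : Finset ℕ} (h : ∀ p ∈ S, p.Prime) {p : ℕ} (hp : p ∈ S) :
    (p : ℝ) ≤ pr S := by
  unfold pr
  rw [← mul_prod_erase S _ hp]
  have h1 : 1 ≤ pr (S.erase p) := one_le_pr fun q hq => h q (mem_of_mem_erase hq)
  have h0 : (0 : ℝ) ≤ p := Nat.cast_nonneg _
  exact le_mul_of_one_le_right h0 h1

theorem pr_mono {S T : Finset ℕ} (hT : ∀ p ∈ T, p.Prime) (h : S ⊆ T) : pr S ≤ pr T := by
  classical
  have e : pr T = pr (T \ S) * pr S := by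
    unfold pr
    rw [prod_sdiff h]
  have h1 : 1 ≤ pr (T \ S) := one_le_pr fun p hp => hT p (mem_sdiff.1 hp).1
  have h0 : 0 < pr S := pr_pos fun p hp => hT p (h hp)
  rw [e]
  exact le_mul_of_one_le_left h0.le h1

theorem QQ_prime {D B : ℕ} {S : Finset ℕ} (h : S ∈ QQ D B) : ∀ p ∈ S, p.Prime := fun _ hp =>
  (mem_prs.1 ((mem_QQ.1 h).1 hp)).2.2

theorem lt_pr_of_QQ {D B : ℕ} {S : Finset ℕ} (h : S ∈ QQ D B) : (D : ℝ) < pr S := by
  obtain ⟨p, hp⟩ := (mem_QQ.1 h).2.1
  have h1 := le_pr_of_mem (QQ_prime h) hp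
  have h2 : (D : ℝ) < p := by exact_mod_cast (mem_prs.1 ((mem_QQ.1 h).1 hp)).1
  linarith

theorem log_pr_pos {D B : ℕ} (hD : 1 ≤ D) {S : Finset ℕ} (h : S ∈ QQ D B) :
    0 < Real.log (pr S) := by
  have h1 := lt_pr_of_QQ h
  have h2 : (1 : ℝ) ≤ D := by exact_mod_cast hD
  exact Real.log_pos (by linarith)

/-! ### lower bound for the sum of `1 / φ` -/

/-- the sum of `1 / φ(r)` over the rough squarefree numbers up to `z`, `1` included -/
noncomputable def AA (D z : ℕ) : ℝ :=
  ∑ S ∈ (prs D z).powerset.filter (fun S => pr S ≤ z), 1 / ph S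

/-- the Euler product of the small primes -/
noncomputable def VV (D : ℕ) : ℝ := ∏ p ∈ prm D, (1 - 1 / (p : ℝ))

theorem VV_pos (D : ℕ) : 0 < VV D := by
  refine prod_pos fun p hp => ?_
  have : (2 : ℝ) ≤ p := by exact_mod_cast (mem_prm.1 hp).1.two_le
  have h2 : 1 / (p : ℝ) ≤ 1 / 2 := one_div_le_one_div_of_le (by norm_num) this
  linarith

theorem VV_inv (D : ℕ) : ∏ p ∈ prm D, (1 + 1 / ((p : ℝ) - 1)) = (VV D)⁻¹ := by
  unfold VV
  rw [← prod_inv_distrib]
  refine prod_congr rfl fun p hp => ?_
  have : (2 : ℝ) ≤ p := by exact_mod_cast (mem_prm.1 hp).1.two_le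
  have h1 : (p : ℝ) - 1 ≠ 0 := by linarith
  have h2 : (p : ℝ) ≠ 0 := by linarith
  rw [inv_eq_one_div, eq_div_iff]
  · field_simp
    ring
  · have h2 : 1 / (p : ℝ) ≤ 1 / 2 := one_div_le_one_div_of_le (by norm_num) this
    linarith

theorem VV_ge {D : ℕ} (hD : 2 ≤ D) : Real.exp (-21) / Real.log D ≤ VV D := by
  have h1 := PP_ge (prm D).toList fun q hq => by
    rw [mem_toList] at hq
    exact (mem_prm.1 hq).1.two_le
  rw [PP_toList, rs_toList] at h1
  have h2 := FF_le hD
  have h3 := rs2_prm D
  have hl : 0 < Real.log D := Real.log_pos (by exact_mod_cast hD)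
  unfold VV
  refine le_trans ?_ h1
  unfold FF at h2
  have e : Real.exp (-21) / Real.log D = Real.exp (-(Real.log (Real.log D) + 21)) := by
    rw [neg_add, Real.exp_add, Real.exp_neg (Real.log (Real.log D)), Real.exp_log hl]
    field_simp
  rw [e]
  exact Real.exp_le_exp.2 (by linarith)

theorem AA_ge (D z : ℕ) : VV D * Real.log ((z : ℝ) + 1) / 2 ≤ AA D z := by
  classical
  have hV := VV_pos D
  have h1 := sum_sqf z
  have hmain : ∑ l ∈ (Icc 1 z).filter Squarefree, 1 / (l : ℝ) ≤
      (∏ p ∈ prm D, (1 + 1 / ((p : ℝ) - 1))) * AA D z := by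
    have e : (∏ p ∈ prm D, (1 + 1 / ((p : ℝ) - 1))) = ∑ T ∈ (prm D).powerset, 1 / ph T := by
      rw [prod_one_add]
      refine sum_congr rfl fun T _ => ?_
      unfold ph
      rw [one_div, ← prod_inv_distrib]
      exact prod_congr rfl fun p _ => one_div _
    rw [e, AA, sum_mul_sum, ← sum_product']
    have hinj : ∀ l ∈ (Icc 1 z).filter Squarefree, ∀ m ∈ (Icc 1 z).filter Squarefree,
        ((l.primeFactors.filter fun p => p ≤ D, l.primeFactors.filter fun p => D < p) :
          Finset ℕ × Finset ℕ) =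
        (m.primeFactors.filter fun p => p ≤ D, m.primeFactors.filter fun p => D < p) →
        l = m := by
      intro l hl m hm h
      rw [mem_filter] at hl hm
      have h2 : l.primeFactors = m.primeFactors := by
        ext p
        have e1 := congrArg (fun t : Finset ℕ × Finset ℕ => p ∈ t.1) h
        have e2 := congrArg (fun t : Finset ℕ × Finset ℕ => p ∈ t.2) h
        simp only [mem_filter, eq_iff_iff] at e1 e2
        rcases le_or_gt p D with h3 | h3
        · constructor
          · intro h4
            exact (e1.1 ⟨h4, h3⟩).1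
          · intro h4
            exact (e1.2 ⟨h4, h3⟩).1
        · constructor
          · intro h4
            exact (e2.1 ⟨h4, h3⟩).1
          · intro h4
            exact (e2.2 ⟨h4, h3⟩).1
      rw [← Nat.prod_primeFactors_of_squarefree hl.2, h2,
        Nat.prod_primeFactors_of_squarefree hm.2]
    calc ∑ l ∈ (Icc 1 z).filter Squarefree, 1 / (l : ℝ)
        ≤ ∑ l ∈ (Icc 1 z).filter Squarefree,
          (fun t : Finset ℕ × Finset ℕ => 1 / ph t.1 * (1 / ph t.2))
            (l.primeFactors.filter fun p => p ≤ D, l.primeFactors.filter fun p => D < p) := by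
          refine sum_le_sum fun l hl => ?_
          rw [mem_filter] at hl
          simp only
          have h3 : (l : ℝ) = pr (l.primeFactors.filter fun p => p ≤ D) *
              pr (l.primeFactors.filter fun p => D < p) := by
            have h4 : pr (l.primeFactors.filter fun p => p ≤ D) *
              pr (l.primeFactors.filter fun p => D < p) = ∏ p ∈ l.primeFactors, (p : ℝ) := by
              have h5 := prod_filter_mul_prod_filter_not l.primeFactors (fun p => p ≤ D)
                (fun p => (p : ℝ))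
              rw [← h5]
              unfold pr
              congr 2
              ext p
              simp only [mem_filter, not_le]
            rw [h4, ← Nat.cast_prod, Nat.prod_primeFactors_of_squarefree hl.2]
          rw [h3, ← one_div_mul_one_div]
          have hp1 : ∀ p ∈ l.primeFactors.filter (fun p => p ≤ D), p.Prime := fun p hp =>
            Nat.prime_of_mem_primeFactors (mem_filter.1 hp).1
          have hp2 : ∀ p ∈ l.primeFactors.filter (fun p => D < p), p.Prime := fun p hp =>
            Nat.prime_of_mem_primeFactors (mem_filter.1 hp).1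
          refine mul_le_mul (one_div_le_one_div_of_le (ph_pos hp1) (ph_le_pr hp1))
            (one_div_le_one_div_of_le (ph_pos hp2) (ph_le_pr hp2)) ?_ ?_
          · exact (one_div_pos.2 (pr_pos hp2)).le
          · exact (one_div_pos.2 (ph_pos hp1)).le
      _ = ∑ t ∈ ((Icc 1 z).filter Squarefree).image (fun l =>
          ((l.primeFactors.filter fun p => p ≤ D, l.primeFactors.filter fun p => D < p) :
          Finset ℕ × Finset ℕ)), 1 / ph t.1 * (1 / ph t.2) := by
          rw [sum_image hinj]
      _ ≤ _ := by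
          refine sum_le_sum_of_subset_of_nonneg ?_ ?_
          · intro t ht
            rw [mem_image] at ht
            obtain ⟨l, hl, rfl⟩ := ht
            rw [mem_filter, mem_Icc] at hl
            rw [mem_product, mem_powerset, mem_filter, mem_powerset]
            refine ⟨?_, ?_, ?_⟩
            · intro p hp
              rw [mem_filter] at hp
              exact mem_prm.2 ⟨Nat.prime_of_mem_primeFactors hp.1, hp.2⟩
            · intro p hp
              rw [mem_filter] at hp
              have h3 := Nat.le_of_mem_primeFactors hp.1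
              exact mem_prs.2 ⟨hp.2, by omega, Nat.prime_of_mem_primeFactors hp.1⟩
            · have h3 : pr (l.primeFactors.filter fun p => D < p) ≤
                  ∏ p ∈ l.primeFactors, (p : ℝ) :=
                pr_mono (fun p hp => Nat.prime_of_mem_primeFactors hp) (filter_subset _ _)
              rw [← Nat.cast_prod, Nat.prod_primeFactors_of_squarefree hl.2] at h3
              refine h3.trans ?_
              exact_mod_cast hl.1.2
          · rintro ⟨T, S⟩ ht _
            rw [mem_product, mem_powerset, mem_filter, mem_powerset] at ht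
            have hT : ∀ p ∈ T, p.Prime := fun p hp => (mem_prm.1 (ht.1 hp)).1
            have hS : ∀ p ∈ S, p.Prime := fun p hp => (mem_prs.1 (ht.2.1 hp)).2.2
            exact mul_nonneg (one_div_pos.2 (ph_pos hT)).le (one_div_pos.2 (ph_pos hS)).le
  rw [VV_inv] at hmain
  have h4 := h1.trans hmain
  rw [inv_mul_eq_div, le_div_iff₀ hV] at h4
  linarith

end LG
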