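import Pool.Agent.H.MP_711652_nt.LG.Defs

set_option autoImplicit false

namespace Pool.Agent.H.MP_711652_nt.LG

open Finset

theorem mean1_crt (G H : ℕ → ℝ) {a b : ℕ} (ha : 0 < a) (hb : 0 < b) (hab : a.Coprime b)
    (hG : Function.Periodic G a) (hH : Function.Periodic H b) :
    ∑ m ∈ range (a * b), G m * H m = (∑ m ∈ range a, G m) * ∑ m ∈ range b, H m := by
  rw [Finset.sum_mul_sum, ← Finset.sum_product']
  refine Finset.sum_nbij' (fun m => (m % a, m % b))
    (fun x => (Nat.chineseRemainder hab x.1 x.2 : ℕ)) ?_ ?_ ?_ ?_ ?_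
  · intro m _
    exact Finset.mem_product.2 ⟨Finset.mem_range.2 (Nat.mod_lt _ ha),
      Finset.mem_range.2 (Nat.mod_lt _ hb)⟩
  · intro x _
    exact Finset.mem_range.2 (Nat.chineseRemainder_lt_mul hab _ _ ha.ne' hb.ne')
  · intro m hm
    have h1 := (Nat.chineseRemainder hab (m % a) (m % b)).2
    have h2 : m ≡ m % a [MOD a] := (Nat.mod_modEq m a).symm
    have h3 : m ≡ m % b [MOD b] := (Nat.mod_modEq m b).symm
    have h4 := Nat.chineseRemainder_modEq_unique hab h2 h3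
    have h5 := Nat.ModEq.eq_of_lt_of_lt h4 (Finset.mem_range.1 hm)
      (Nat.chineseRemainder_lt_mul hab _ _ ha.ne' hb.ne')
    exact h5.symm
  · rintro ⟨x, y⟩ hx
    obtain ⟨hx1, hx2⟩ := Finset.mem_product.1 hx
    have h1 := (Nat.chineseRemainder hab x y).2
    refine Prod.ext ?_ ?_
    · have := h1.1
      rw [Nat.ModEq, Nat.mod_eq_of_lt (Finset.mem_range.1 hx1)] at this
      exact this
    · have := h1.2
      rw [Nat.ModEq, Nat.mod_eq_of_lt (Finset.mem_range.1 hx2)] at this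
      exact this
  · intro m _
    rw [hG.map_mod_nat, hH.map_mod_nat]

theorem mean1_per (S : Finset ℕ) (f : ℕ → ℕ → ℝ)
    (hper : ∀ p ∈ S, ∀ m, f p (m + p) = f p m) :
    Function.Periodic (fun m => ∏ p ∈ S, f p m) (∏ p ∈ S, p) := by
  intro m
  refine Finset.prod_congr rfl fun p hp => ?_
  obtain ⟨k, hk⟩ := Finset.dvd_prod_of_mem (fun p : ℕ => p) hp
  have h : Function.Periodic (f p) p := hper p hp
  have h2 := h.nat_mul k m
  have h3 : ∏ p ∈ S, p = k * p := by rw [hk, mul_comm]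
  rw [h3]
  exact_mod_cast h2

theorem mean1_full (S : Finset ℕ) (hS : ∀ p ∈ S, p.Prime) (f : ℕ → ℕ → ℝ)
    (hper : ∀ p ∈ S, ∀ m, f p (m + p) = f p m) :
    ∑ m ∈ range (∏ p ∈ S, p), ∏ p ∈ S, f p m = ∏ p ∈ S, ∑ m ∈ range p, f p m := by
  classical
  induction S using Finset.induction_on with
  | empty => simp
  | insert p S hp ih =>
    have hpp := hS p (Finset.mem_insert_self _ _)
    have hS' : ∀ q ∈ S, q.Prime := fun q hq => hS q (Finset.mem_insert_of_mem hq)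
    have hper' : ∀ q ∈ S, ∀ m, f q (m + q) = f q m :=
      fun q hq => hper q (Finset.mem_insert_of_mem hq)
    have hcop : p.Coprime (∏ q ∈ S, q) := by
      refine Nat.Coprime.prod_right fun q hq => ?_
      refine (Nat.coprime_primes hpp (hS' q hq)).2 ?_
      rintro rfl
      exact hp hq
    have hpos : 0 < ∏ q ∈ S, q := Finset.prod_pos fun q hq => (hS' q hq).pos
    rw [Finset.prod_insert hp, Finset.prod_insert hp, ← ih hS' hper',
      ← mean1_crt (f p) (fun m => ∏ q ∈ S, f q m) hpp.pos hpos hcop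
        (hper p (Finset.mem_insert_self _ _)) (mean1_per S f hper')]
    exact Finset.sum_congr rfl fun m _ => Finset.prod_insert hp

theorem mean1_mul (F : ℕ → ℝ) {Q : ℕ} (hF : Function.Periodic F Q) (k r : ℕ) :
    ∑ m ∈ range (k * Q + r), F m = k * ∑ m ∈ range Q, F m + ∑ m ∈ range r, F m := by
  have h1 : ∀ k m : ℕ, F (k * Q + m) = F m := by
    intro k m
    have := hF.nat_mul k m
    rw [add_comm]
    exact_mod_cast this
  have h2 : ∑ m ∈ range (k * Q), F m = k * ∑ m ∈ range Q, F m := by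
    induction k with
    | zero => simp
    | succ k ih =>
      rw [add_mul, one_mul, Finset.sum_range_add, ih]
      push_cast
      rw [add_mul, one_mul]
      congr 1
      exact Finset.sum_congr rfl fun m _ => h1 k m
  rw [Finset.sum_range_add, h2]
  congr 1
  exact Finset.sum_congr rfl fun m _ => h1 k m

/-- PROOF. Let `Q = ∏_{p ∈ S} p`; `F m = ∏ f p m` is periodic mod `Q`; by the Chinese remainder theorem
`∑_{m < Q} F m = ∏_p ∑_{m < p} f p m` (induction on `S`: for coprime `a, b`,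
`∑_{m < ab} G m * H m = (∑_{m < a} G m) (∑_{m < b} H m)` if `G` has period `a` and `H` has period `b`).
Write `N = q Q + r`, `r < Q`: the difference is `∑_{m < r} F m - r ∏ mean`, both at most `Q ∏ b p`. -/
theorem mean_prod (S : Finset ℕ) (hS : ∀ p ∈ S, p.Prime) (f : ℕ → ℕ → ℝ)
    (hper : ∀ p ∈ S, ∀ m, f p (m + p) = f p m) (b : ℕ → ℝ) (hb : ∀ p ∈ S, ∀ m, |f p m| ≤ b p)
    (N : ℕ) :
    |∑ m ∈ range N, ∏ p ∈ S, f p m - N * ∏ p ∈ S, ((∑ m ∈ range p, f p m) / p)| ≤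
      2 * ∏ p ∈ S, ((p : ℝ) * b p) := by
  classical
  obtain ⟨Q, hQ⟩ : ∃ Q : ℕ, Q = ∏ p ∈ S, p := ⟨_, rfl⟩
  obtain ⟨F, hF⟩ : ∃ F : ℕ → ℝ, F = fun m => ∏ p ∈ S, f p m := ⟨_, rfl⟩
  have hQpos : 0 < Q := by
    rw [hQ]
    exact Finset.prod_pos fun q hq => (hS q hq).pos
  have hb0 : ∀ p ∈ S, 0 ≤ b p := fun p hp => (abs_nonneg _).trans (hb p hp 0)
  have hper' : Function.Periodic F Q := by
    rw [hF, hQ]
    exact mean1_per S f hper
  have hfull : ∑ m ∈ range Q, F m = ∏ p ∈ S, ∑ m ∈ range p, f p m := by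
    rw [hF, hQ]
    exact mean1_full S hS f hper
  obtain ⟨B, hB⟩ : ∃ B : ℝ, B = ∏ p ∈ S, b p := ⟨_, rfl⟩
  have hB0 : 0 ≤ B := by
    rw [hB]
    exact Finset.prod_nonneg hb0
  have hFB : ∀ m, |F m| ≤ B := by
    intro m
    rw [hF, hB]
    simp only
    rw [Finset.abs_prod]
    exact Finset.prod_le_prod (fun _ _ => abs_nonneg _) fun p hp => hb p hp m
  have hQB : ∏ p ∈ S, ((p : ℝ) * b p) = Q * B := by
    rw [Finset.prod_mul_distrib, hQ, hB]
    push_cast
    rfl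
  obtain ⟨M, hM⟩ : ∃ M : ℝ, M = ∏ p ∈ S, ((∑ m ∈ range p, f p m) / p) := ⟨_, rfl⟩
  have hQM : (Q : ℝ) * M = ∑ m ∈ range Q, F m := by
    rw [hfull, hM, Finset.prod_div_distrib, hQ]
    push_cast
    have : (∏ p ∈ S, (p : ℝ)) ≠ 0 :=
      Finset.prod_ne_zero_iff.2 fun p hp => by exact_mod_cast (hS p hp).ne_zero
    field_simp
  have hMB : |M| ≤ B := by
    rw [hM, hB, Finset.abs_prod]
    refine Finset.prod_le_prod (fun _ _ => abs_nonneg _) fun p hp => ?_
    have hp0 : (0 : ℝ) < p := by exact_mod_cast (hS p hp).pos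
    rw [abs_div, abs_of_pos hp0, div_le_iff₀ hp0]
    refine (Finset.abs_sum_le_sum_abs _ _).trans ((Finset.sum_le_sum fun m _ => hb p hp m).trans ?_)
    rw [Finset.sum_const, Finset.card_range, nsmul_eq_mul, mul_comm]
  have hr : N % Q < Q := Nat.mod_lt _ hQpos
  have hN : N / Q * Q + N % Q = N := Nat.div_add_mod' N Q
  have h1 := mean1_mul F hper' (N / Q) (N % Q)
  rw [hN, ← hQM] at h1
  have hNr : (N : ℝ) = (N / Q : ℕ) * (Q : ℝ) + (N % Q : ℕ) := by exact_mod_cast hN.symm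
  have h2 : ∑ m ∈ range N, F m - N * M = ∑ m ∈ range (N % Q), F m - (N % Q : ℕ) * M := by
    rw [h1, hNr]
    ring
  have hrQ : ((N % Q : ℕ) : ℝ) ≤ Q := by exact_mod_cast hr.le
  have h3 : |∑ m ∈ range (N % Q), F m| ≤ Q * B := by
    refine (Finset.abs_sum_le_sum_abs _ _).trans ((Finset.sum_le_sum fun m _ => hFB m).trans ?_)
    rw [Finset.sum_const, Finset.card_range, nsmul_eq_mul]
    exact mul_le_mul_of_nonneg_right hrQ hB0
  have h4 : |((N % Q : ℕ) : ℝ) * M| ≤ Q * B := by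
    rw [abs_mul, abs_of_nonneg (Nat.cast_nonneg _)]
    exact mul_le_mul hrQ hMB (abs_nonneg _) (Nat.cast_nonneg _)
  have h5 : ∑ m ∈ range N, ∏ p ∈ S, f p m = ∑ m ∈ range N, F m := by rw [hF]
  rw [h5, ← hM, h2, hQB]
  calc |∑ m ∈ range (N % Q), F m - (N % Q : ℕ) * M| ≤
        |∑ m ∈ range (N % Q), F m| + |((N % Q : ℕ) : ℝ) * M| := abs_sub _ _
    _ ≤ 2 * (Q * B) := by linarith

end Pool.Agent.H.MP_711652_nt.LG
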