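import Pool.Agent.H.MP_711652_nt.LG.Mean1

set_option autoImplicit false

namespace Pool.Agent.H.MP_711652_nt.LG

open Finset

open Classical in
theorem mean2_ef {ι : Type*} (A : ℕ → ι → ℕ → Prop) (p : ℕ) (i : ι) (m : ℕ) :
    Ef A p (some i) m = 1 - (p : ℝ) * (if A p i m then (1 : ℝ) else 0) := by
  simp only [Ef]
  by_cases h : A p i m
  · rw [if_pos h, if_pos h]
    ring
  · rw [if_neg h, if_neg h]
    ring

open Classical in
theorem mean2_one {ι : Type*} {P : Finset ℕ} {A : ℕ → ι → ℕ → Prop} (h : Forms P A) {p : ℕ}
    (hp : p ∈ P) (i : ι) : ∑ m ∈ range p, (if A p i m then (1 : ℝ) else 0) = 1 := by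
  obtain ⟨r, hr, hr2⟩ := h.one p hp i
  rw [Finset.sum_eq_single r]
  · rw [if_pos ((hr2 r hr).2 rfl)]
  · intro m hm hmr
    rw [if_neg]
    intro h3
    exact hmr ((hr2 m (Finset.mem_range.1 hm)).1 h3)
  · intro h3
    exact absurd (Finset.mem_range.2 hr) h3

open Classical in
theorem mean2_kap {ι : Type*} [DecidableEq ι] {P : Finset ℕ} {A : ℕ → ι → ℕ → Prop} (h : Forms P A)
    {p : ℕ} (hp : p ∈ P) (s t : Option ι) :
    (∑ m ∈ range p, Ef A p s m * Ef A p t m) / p = kap p s t := by
  have hp0 : (p : ℝ) ≠ 0 := by
    exact_mod_cast (h.prime p hp).ne_zero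
  have hN : ∀ m, Ef A p none m = 1 := fun m => rfl
  rcases s with _ | i
  · rcases t with _ | j
    · simp only [hN, kap, if_true, mul_one, Finset.sum_const, Finset.card_range, nsmul_eq_mul]
      field_simp
    · have h1 : ∑ m ∈ range p, Ef A p none m * Ef A p (some j) m = 0 := by
        simp only [hN, mean2_ef, one_mul, Finset.sum_sub_distrib, ← Finset.mul_sum,
          mean2_one h hp, Finset.sum_const, Finset.card_range, nsmul_eq_mul]
        ring
      rw [h1]
      simp [kap]
  · rcases t with _ | j
    · have h1 : ∑ m ∈ range p, Ef A p (some i) m * Ef A p none m = 0 := by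
        simp only [hN, mean2_ef, mul_one, Finset.sum_sub_distrib, ← Finset.mul_sum,
          mean2_one h hp, Finset.sum_const, Finset.card_range, nsmul_eq_mul]
        ring
      rw [h1]
      simp [kap]
    · by_cases hij : i = j
      · subst hij
        have h1 : ∑ m ∈ range p, Ef A p (some i) m * Ef A p (some i) m = p * ((p : ℝ) - 1) := by
          have h2 : ∀ m, Ef A p (some i) m * Ef A p (some i) m =
              1 + ((p : ℝ) ^ 2 - 2 * p) * (if A p i m then (1 : ℝ) else 0) := by
            intro m
            rw [mean2_ef]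
            split_ifs <;> ring
          simp only [h2, Finset.sum_add_distrib, ← Finset.mul_sum, mean2_one h hp,
            Finset.sum_const, Finset.card_range, nsmul_eq_mul]
          ring
        rw [h1]
        simp only [kap, if_true, reduceCtorEq, if_false]
        field_simp
      · have h1 : ∑ m ∈ range p, Ef A p (some i) m * Ef A p (some j) m = - (p : ℝ) := by
          have h2 : ∀ m, Ef A p (some i) m * Ef A p (some j) m =
              1 - (p : ℝ) * (if A p i m then (1 : ℝ) else 0) -
                (p : ℝ) * (if A p j m then (1 : ℝ) else 0) := by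
            intro m
            rw [mean2_ef, mean2_ef]
            by_cases h3 : A p i m
            · have h4 := h.disj p hp i j m hij h3
              rw [if_pos h3, if_neg h4]
              ring
            · rw [if_neg h3]
              ring
          simp only [h2, Finset.sum_sub_distrib, ← Finset.mul_sum, mean2_one h hp,
            Finset.sum_const, Finset.card_range, nsmul_eq_mul]
          ring
        rw [h1]
        have h5 : (some i : Option ι) ≠ some j := by
          simpa using hij
        simp only [kap, if_neg h5, reduceCtorEq, or_self, if_false]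
        field_simp

theorem mean2_abs {ι : Type*} [DecidableEq ι] (A : ℕ → ι → ℕ → Prop) {p : ℕ} (hp : p.Prime)
    (t : Option ι) (m : ℕ) : |Ef A p t m| ≤ if t = none then (1 : ℝ) else p := by
  have h2 : (2 : ℝ) ≤ p := by exact_mod_cast hp.two_le
  rcases t with _ | i
  · simp [Ef]
  · simp only [Ef, reduceCtorEq, if_false]
    split_ifs
    · rw [abs_le]
      constructor <;> linarith
    · rw [abs_one]
      linarith

theorem mean2_per {ι : Type*} {P : Finset ℕ} {A : ℕ → ι → ℕ → Prop} (h : Forms P A) {p : ℕ} (hp : p ∈ P)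
    (t : Option ι) (m : ℕ) : Ef A p t (m + p) = Ef A p t m := by
  rcases t with _ | i
  · rfl
  · by_cases h1 : A p i m
    · rw [mean2_ef, mean2_ef, if_pos h1, if_pos ((h.per p hp i m).2 h1)]
    · rw [mean2_ef, mean2_ef, if_neg h1, if_neg (fun h2 => h1 ((h.per p hp i m).1 h2))]

/-- PROOF. `mean_prod` with `S` = the primes of `P` which are somewhere in `σ` or in `τ`,
`f p m = Ef A p (σ p) m * Ef A p (τ p) m`, `b p = p ^ 2` if `p` is somewhere in both and `p` otherwise, so
`p * b p ≤ (a * a') ^ 2` with `a, a' = p` or `1`.  The mean of `f p` is `kap p (σ p) (τ p)`: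
`(1 / p) (p - 1 + 1 - p) = 0`;  `(1 / p) ((p - 1) + (1 - p)^2) = p - 1`;  `(1 / p) (p - 2 + 2 (1 - p)) = -1`
(for two different positions the two residue classes are different by `Forms.disj`). -/
theorem phi_pair {ι : Type*} [Fintype ι] [DecidableEq ι] {P : Finset ℕ} {A : ℕ → ι → ℕ → Prop}
    (h : Forms P A) (σ τ : P → Option ι) (N : ℕ) :
    |∑ m ∈ range N, Phi P A σ m * Phi P A τ m - N * KK P σ τ| ≤
      2 * ((DD P σ : ℝ) * DD P τ) ^ 2 := by
  classical
  let s : ℕ → Option ι := fun p => if hp : p ∈ P then σ ⟨p, hp⟩ else none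
  let t : ℕ → Option ι := fun p => if hp : p ∈ P then τ ⟨p, hp⟩ else none
  have hs : ∀ p : P, s p = σ p := fun p => dif_pos p.2
  have ht : ∀ p : P, t p = τ p := fun p => dif_pos p.2
  let S : Finset ℕ := P.filter fun p => ¬ (s p = none ∧ t p = none)
  have hSP : ∀ p ∈ S, p ∈ P := fun p hp => (Finset.mem_filter.1 hp).1
  -- products over `S` are products over `P`
  have hprod : ∀ F : ℕ → ℝ, (∀ p ∈ P, s p = none → t p = none → F p = 1) →
      ∏ p ∈ S, F p = ∏ p : P, F p := by
    intro F hF
    rw [Finset.prod_coe_sort P F]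
    apply Finset.prod_subset (Finset.filter_subset _ _)
    intro p hp hpS
    have h1 : s p = none ∧ t p = none := by
      by_contra h2
      exact hpS (Finset.mem_filter.2 ⟨hp, h2⟩)
    exact hF p hp h1.1 h1.2
  let a : ℕ → ℝ := fun p => if s p = none then (1 : ℝ) else p
  let a' : ℕ → ℝ := fun p => if t p = none then (1 : ℝ) else p
  have hmain := mean_prod S (fun p hp => h.prime p (hSP p hp))
    (fun p m => Ef A p (s p) m * Ef A p (t p) m)
    (fun p hp m => by simp only [mean2_per h (hSP p hp)])
    (fun p => a p * a' p)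
    (fun p hp m => by
      rw [abs_mul]
      exact mul_le_mul (mean2_abs A (h.prime p (hSP p hp)) _ _)
        (mean2_abs A (h.prime p (hSP p hp)) _ _) (abs_nonneg _)
        ((abs_nonneg _).trans (mean2_abs A (h.prime p (hSP p hp)) _ m)))
    N
  have e1 : ∀ m, ∏ p ∈ S, (Ef A p (s p) m * Ef A p (t p) m) = Phi P A σ m * Phi P A τ m := by
    intro m
    rw [hprod (fun p => Ef A p (s p) m * Ef A p (t p) m)]
    · unfold Phi
      rw [← Finset.prod_mul_distrib]
      apply Finset.prod_congr rfl
      intro p _
      rw [hs p, ht p]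
    · intro p _ h1 h2
      simp only [h1, h2]
      simp [Ef]
  have e2 : ∏ p ∈ S, ((∑ m ∈ range p, Ef A p (s p) m * Ef A p (t p) m) / p) = KK P σ τ := by
    rw [Finset.prod_congr rfl (fun p hp => mean2_kap h (hSP p hp) (s p) (t p))]
    rw [hprod (fun p => kap p (s p) (t p))]
    · unfold KK
      apply Finset.prod_congr rfl
      intro p _
      rw [hs p, ht p]
    · intro p _ h1 h2
      simp only [h1, h2]
      simp [kap]
  have e3 : ∏ p ∈ S, ((p : ℝ) * (a p * a' p)) ≤ ((DD P σ : ℝ) * DD P τ) ^ 2 := by
    have h1 : ∏ p ∈ S, ((p : ℝ) * (a p * a' p)) ≤ ∏ p ∈ S, (a p * a' p) ^ 2 := by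
      apply Finset.prod_le_prod
      · intro p hp
        have h2 : (0 : ℝ) ≤ p := Nat.cast_nonneg p
        have h3 : 0 ≤ a p := by
          simp only [a]
          split_ifs <;> [norm_num; exact h2]
        have h4 : 0 ≤ a' p := by
          simp only [a']
          split_ifs <;> [norm_num; exact h2]
        positivity
      · intro p hp
        have h1 : (1 : ℝ) ≤ p := by
          exact_mod_cast (h.prime p (hSP p hp)).one_lt.le
        have h2 : ¬ (s p = none ∧ t p = none) := (Finset.mem_filter.1 hp).2
        have h3 : (p : ℝ) ≤ a p * a' p := by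
          simp only [a, a']
          split_ifs with u v v
          · exact absurd ⟨u, v⟩ h2
          · linarith
          · linarith
          · nlinarith
        have h4 : 0 ≤ a p * a' p := by linarith
        nlinarith
    refine h1.trans (le_of_eq ?_)
    rw [hprod (fun p => (a p * a' p) ^ 2)]
    · rw [Finset.prod_pow, Finset.prod_mul_distrib]
      congr 1
      unfold DD
      rw [Nat.cast_prod, Nat.cast_prod]
      congr 1
      · apply Finset.prod_congr rfl
        intro p _
        simp only [a, hs p]
        split_ifs <;> simp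
      · apply Finset.prod_congr rfl
        intro p _
        simp only [a', ht p]
        split_ifs <;> simp
    · intro p _ h1 h2
      simp [a, a', h1, h2]
  simp only [e1, e2] at hmain
  exact hmain.trans (by linarith)

end Pool.Agent.H.MP_711652_nt.LG
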