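import Pool.Agent.H.MP_711652_nt.LG.Diag1

set_option autoImplicit false

namespace Pool.Agent.H.MP_711652_nt.LG

open Finset

variable {ι : Type*} [Fintype ι] [DecidableEq ι]

/-- The primes which are somewhere. -/
def diag3_T0 (P : Finset ℕ) (σ : P → Option ι) : Finset ℕ :=
  ((univ : Finset P).filter (fun p => σ p ≠ none)).map (Function.Embedding.subtype _)

omit [Fintype ι] [DecidableEq ι] in
theorem diag3_mem_T0 (P : Finset ℕ) (σ : P → Option ι) (p : ℕ) :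
    p ∈ diag3_T0 P σ ↔ ∃ h : p ∈ P, σ ⟨p, h⟩ ≠ none := by
  unfold diag3_T0
  simp only [mem_map, mem_filter, mem_univ, true_and, Function.Embedding.coe_subtype]
  constructor
  · rintro ⟨a, ha, rfl⟩
    exact ⟨a.2, ha⟩
  · rintro ⟨h, h1⟩
    exact ⟨⟨p, h⟩, h1, rfl⟩

omit [Fintype ι] [DecidableEq ι] in
theorem diag3_T0_subset (P : Finset ℕ) (σ : P → Option ι) : diag3_T0 P σ ⊆ P := by
  intro p hp
  obtain ⟨h, -⟩ := (diag3_mem_T0 P σ p).1 hp
  exact h

omit [Fintype ι] in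
theorem diag3_prod_T0 (P : Finset ℕ) (σ : P → Option ι) : ∏ p ∈ diag3_T0 P σ, p = DD P σ := by
  unfold diag3_T0 DD
  rw [prod_map, prod_filter]
  refine prod_congr rfl fun p _ => ?_
  by_cases h : σ p = none
  · simp [h]
  · simp [h]

theorem diag3_prod_ne_one {P : Finset ℕ} (hP : ∀ p ∈ P, p.Prime) {T : Finset P} (hT : T ≠ ∅) :
    ∏ p ∈ T, (p : ℕ) ≠ 1 := by
  intro h
  obtain ⟨q, hq⟩ := nonempty_iff_ne_empty.2 hT
  have h1 : (q : ℕ) ∣ ∏ p ∈ T, (p : ℕ) := dvd_prod_of_mem _ hq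
  rw [h, Nat.dvd_one] at h1
  exact (hP q q.2).one_lt.ne' h1

theorem diag3_prod_pos {P : Finset ℕ} (hP : ∀ p ∈ P, p.Prime) (T : Finset P) :
    0 < ∏ p ∈ T, (p : ℕ) := prod_pos fun p _ => (hP p p.2).pos

/-- The weight `wt` as a sum over `QQ P B`. -/
theorem diag3_wt (P : Finset ℕ) (hP : ∀ p ∈ P, p.Prime) (g : ι → ℕ → ℝ) (B Y : ℕ) (i : ι)
    (σ : P → Option ι) (hσ : DD P σ ≤ Y) :
    wt P (chi g B) Y i σ = 1 - ∑ T ∈ (QQ P B).filter (fun T => Disjoint T (diag3_T0 P σ) ∧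
      DD P σ * (∏ p ∈ T, p) ≤ Y), g i (∏ p ∈ T, p) := by
  unfold wt
  rw [← add_sum_erase _ _ (empty_mem_powerset ((univ : Finset P).filter (fun p => σ p = none)))]
  have h1 : (if DD P σ * (∏ p ∈ (∅ : Finset P), (p : ℕ)) ≤ Y then
      chi g B i (∏ p ∈ (∅ : Finset P), (p : ℕ)) else 0) = 1 := by
    rw [prod_empty, mul_one, if_pos hσ]
    unfold chi chg
    rw [if_pos rfl]
  have h2 : ∑ T ∈ ((univ : Finset P).filter (fun p => σ p = none)).powerset.erase ∅,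
      (if DD P σ * (∏ p ∈ T, (p : ℕ)) ≤ Y then chi g B i (∏ p ∈ T, (p : ℕ)) else 0) =
      ∑ T ∈ (((univ : Finset P).filter (fun p => σ p = none)).powerset.erase ∅).filter
        (fun T : Finset P => (∏ p ∈ T, (p : ℕ)) ≤ B ∧ DD P σ * (∏ p ∈ T, (p : ℕ)) ≤ Y),
        -g i (∏ p ∈ T, (p : ℕ)) := by
    rw [sum_filter]
    refine sum_congr rfl fun T hT => ?_
    have h3 := diag3_prod_ne_one hP (mem_erase.1 hT).1
    unfold chi chg
    rw [if_neg h3]
    by_cases h4 : DD P σ * (∏ p ∈ T, (p : ℕ)) ≤ Y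
    · by_cases h5 : (∏ p ∈ T, (p : ℕ)) ≤ B
      · rw [if_pos h4, if_pos h5, if_pos ⟨h5, h4⟩]
      · rw [if_pos h4, if_neg h5, if_neg fun h => h5 h.1]
    · rw [if_neg h4, if_neg fun h => h4 h.2]
  have h3 : ∑ T ∈ (((univ : Finset P).filter (fun p => σ p = none)).powerset.erase ∅).filter
        (fun T : Finset P => (∏ p ∈ T, (p : ℕ)) ≤ B ∧ DD P σ * (∏ p ∈ T, (p : ℕ)) ≤ Y),
        -g i (∏ p ∈ T, (p : ℕ)) =
      ∑ T ∈ (QQ P B).filter (fun T => Disjoint T (diag3_T0 P σ) ∧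
        DD P σ * (∏ p ∈ T, p) ≤ Y), -g i (∏ p ∈ T, p) := by
    refine sum_nbij' (fun T : Finset P => T.map (Function.Embedding.subtype _))
      (fun T : Finset ℕ => T.subtype (fun p => p ∈ P)) ?_ ?_ ?_ ?_ ?_
    · intro T hT
      simp only [mem_filter, mem_erase, mem_powerset, QQ] at hT ⊢
      obtain ⟨⟨h4, h5⟩, h6, h7⟩ := hT
      rw [prod_map]
      refine ⟨⟨⟨?_, ?_⟩, h6⟩, ?_, h7⟩
      · rwa [Ne, map_eq_empty]
      · intro p hp
        rw [mem_map] at hp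
        obtain ⟨a, -, rfl⟩ := hp
        exact a.2
      · rw [disjoint_left]
        intro p hp hp0
        rw [mem_map] at hp
        obtain ⟨a, ha, rfl⟩ := hp
        rw [diag3_mem_T0] at hp0
        obtain ⟨h8, h9⟩ := hp0
        have h10 := h5 ha
        rw [mem_filter] at h10
        exact h9 h10.2
    · intro T hT
      simp only [mem_filter, mem_erase, mem_powerset, QQ] at hT ⊢
      obtain ⟨⟨⟨h4, h5⟩, h6⟩, h7, h8⟩ := hT
      have h9 : (T.subtype (fun p => p ∈ P)).map (Function.Embedding.subtype _) = T := by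
        rw [subtype_map, filter_true_of_mem h5]
      have h10 : ∏ p ∈ T.subtype (fun p => p ∈ P), (p : ℕ) = ∏ p ∈ T, p := by
        conv_rhs => rw [← h9, prod_map]
        rfl
      rw [h10]
      refine ⟨⟨?_, ?_⟩, h6, h8⟩
      · intro h11
        rw [h11, map_empty] at h9
        exact h4 h9.symm
      · intro p hp
        rw [mem_subtype] at hp
        rw [mem_filter]
        refine ⟨mem_univ _, ?_⟩
        by_contra h12
        exact (disjoint_left.1 h7) hp ((diag3_mem_T0 P σ p).2 ⟨p.2, h12⟩)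
    · intro T _
      ext p
      simp
    · intro T hT
      simp only [mem_filter, mem_erase, mem_powerset, QQ] at hT
      rw [subtype_map, filter_true_of_mem hT.1.1.2]
    · intro T _
      rw [prod_map]
      rfl
  rw [h1, h2, h3, sum_neg_distrib]
  ring

/-- The weight is between 0 and 1. -/
theorem diag3_wt_mem (P : Finset ℕ) (hP : ∀ p ∈ P, p.Prime) (g : ι → ℕ → ℝ)
    (hg : ∀ i n, 0 ≤ g i n) (B Y : ℕ) (hsum : ∀ i, ∑ T ∈ QQ P B, g i (∏ p ∈ T, p) = 1) (i : ι)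
    (σ : P → Option ι) (hσ : DD P σ ≤ Y) :
    0 ≤ wt P (chi g B) Y i σ ∧ wt P (chi g B) Y i σ ≤ 1 := by
  rw [diag3_wt P hP g B Y i σ hσ]
  have h1 : ∑ T ∈ (QQ P B).filter (fun T => Disjoint T (diag3_T0 P σ) ∧
      DD P σ * (∏ p ∈ T, p) ≤ Y), g i (∏ p ∈ T, p) ≤ 1 := by
    rw [← hsum i]
    exact sum_le_sum_of_subset_of_nonneg (filter_subset _ _) fun T _ _ => hg i _
  have h2 : 0 ≤ ∑ T ∈ (QQ P B).filter (fun T => Disjoint T (diag3_T0 P σ) ∧
      DD P σ * (∏ p ∈ T, p) ≤ Y), g i (∏ p ∈ T, p) := sum_nonneg fun T _ => hg i _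
  constructor <;> linarith

/-- The coefficients of `B_i` are bounded by those of `Ψ`.  PROOF. If some prime is at position `i`, `vf = 0`.  Otherwise
`wt = [DD ≤ Y] - ∑_{T ≠ ∅} g i (∏T) [..] ∈ [0, 1]` (and `= 0` for `DD > Y`); the sets `T` are sets of elements of the
subtype `P`, so this uses `∑_{T ∈ QQ P B} g i = 1` through the injection `T ↦ T.map val`. -/
theorem abs_vf_le (P : Finset ℕ) (hP : ∀ p ∈ P, p.Prime) (g : ι → ℕ → ℝ) (hg : ∀ i n, 0 ≤ g i n)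
    (B Y : ℕ) (hsum : ∀ i, ∑ T ∈ QQ P B, g i (∏ p ∈ T, p) = 1) (i : ι) (σ : P → Option ι) :
    |vf P (chi g B) Y i σ| ≤ |cf P (chi g B) Y σ| := by
  unfold vf cf
  by_cases h : ∀ p, σ p ≠ some i
  · rw [if_pos h]
    by_cases h1 : DD P σ ≤ Y
    · rw [if_pos h1, abs_mul]
      obtain ⟨h2, h3⟩ := diag3_wt_mem P hP g hg B Y hsum i σ h1
      rw [abs_of_nonneg h2]
      exact mul_le_of_le_one_right (abs_nonneg _) h3
    · rw [if_neg h1]
      have h2 : wt P (chi g B) Y i σ = 0 := by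
        unfold wt
        refine sum_eq_zero fun T _ => if_neg fun h3 => h1 ?_
        exact (Nat.le_mul_of_pos_right _ (diag3_prod_pos hP T)).trans h3
      rw [h2, mul_zero]
  · rw [if_neg h, abs_zero]
    exact abs_nonneg _

/-- PROOF. If `DD σ * B ≤ Y` then all `T` with `∏ T ≤ B` are allowed in `wt`, so `wt = 1 - ∑` over the sets
`T ∈ QQ P B` of primes nowhere in `σ` `= ∑_{T ∈ QQ P B, T meets the primes of DD σ} g i (∏ T) ≤ t`. -/
theorem abs_vf_le_small (P : Finset ℕ) (hP : ∀ p ∈ P, p.Prime) (g : ι → ℕ → ℝ)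
    (hg : ∀ i n, 0 ≤ g i n) (B Y : ℕ) (hB : 1 ≤ B)
    (hsum : ∀ i, ∑ T ∈ QQ P B, g i (∏ p ∈ T, p) = 1) (t : ℝ)
    (ht : ∀ i, ∀ T0 ⊆ P, (∏ p ∈ T0, p) ≤ Y →
      ∑ T ∈ (QQ P B).filter (fun T => ¬ Disjoint T T0), g i (∏ p ∈ T, p) ≤ t)
    (i : ι) (σ : P → Option ι) (hσ : DD P σ * B ≤ Y) :
    |vf P (chi g B) Y i σ| ≤ t * |cf P (chi g B) Y σ| := by
  have hD : DD P σ ≤ Y := (Nat.le_mul_of_pos_right _ hB).trans hσ
  have h1 := ht i (diag3_T0 P σ) (diag3_T0_subset P σ) (by rw [diag3_prod_T0]; exact hD)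
  have h2 : wt P (chi g B) Y i σ =
      ∑ T ∈ (QQ P B).filter (fun T => ¬ Disjoint T (diag3_T0 P σ)), g i (∏ p ∈ T, p) := by
    rw [diag3_wt P hP g B Y i σ hD]
    have h3 : (QQ P B).filter (fun T => Disjoint T (diag3_T0 P σ) ∧
        DD P σ * (∏ p ∈ T, p) ≤ Y) = (QQ P B).filter (fun T => Disjoint T (diag3_T0 P σ)) := by
      refine filter_congr fun T hT => ?_
      constructor
      · exact fun h => h.1
      · intro h
        refine ⟨h, ?_⟩
        have h4 : (∏ p ∈ T, p) ≤ B := (mem_filter.1 hT).2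
        exact (Nat.mul_le_mul_left _ h4).trans hσ
    have h5 := sum_filter_add_sum_filter_not (QQ P B) (fun T => Disjoint T (diag3_T0 P σ))
      (fun T => g i (∏ p ∈ T, p))
    rw [hsum i] at h5
    rw [h3]
    linarith
  have ht0 : 0 ≤ t := (sum_nonneg fun T _ => hg i _).trans h1
  unfold vf cf
  by_cases h : ∀ p, σ p ≠ some i
  · rw [if_pos h, if_pos hD, abs_mul, mul_comm]
    obtain ⟨h6, -⟩ := diag3_wt_mem P hP g hg B Y hsum i σ hD
    rw [abs_of_nonneg h6]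
    exact mul_le_mul_of_nonneg_right (h2.le.trans h1) (abs_nonneg _)
  · rw [if_neg h, abs_zero]
    exact mul_nonneg ht0 (abs_nonneg _)

end Pool.Agent.H.MP_711652_nt.LG
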