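import Pool.Agent.H.MP_711652_nt.LG.Defs

/-!
# Main Lemma, part A: the linear forms and the weight `c / (φ n log n)`
-/

set_option autoImplicit false

namespace Pool.Agent.H.MP_711652_nt.LG

open Finset

theorem mla_root {p W a : ℕ} (hp : p.Prime) (hW : ¬ p ∣ W) :
    ∃ r < p, ∀ m < p, p ∣ W * m + a ↔ m = r := by
  have := Fact.mk hp
  have hW' : (W : ZMod p) ≠ 0 := by
    rwa [Ne, ZMod.natCast_eq_zero_iff]
  refine ⟨(-(a : ZMod p) / W).val, ZMod.val_lt _, ?_⟩
  intro m hm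
  rw [← ZMod.natCast_eq_zero_iff]
  push_cast
  constructor
  · intro h
    have h1 : (m : ZMod p) = -(a : ZMod p) / W := by
      rw [eq_div_iff hW']
      linear_combination h
    rw [← h1, ZMod.val_natCast, Nat.mod_eq_of_lt hm]
  · intro h
    have h1 : (m : ZMod p) = -(a : ZMod p) / W := by
      rw [h, ZMod.natCast_val, ZMod.cast_id]
    rw [h1]
    field_simp
    ring

/-- linear forms satisfy `Forms` -/
theorem forms_linear {ι : Type*} (P : Finset ℕ) (W : ℕ) (b : ι → ℕ) (hP : ∀ p ∈ P, p.Prime)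
    (hW : ∀ p ∈ P, ¬ p ∣ W) (hb : ∀ p ∈ P, ∀ i j, i ≠ j → ¬ b i ≡ b j [MOD p]) :
    Forms P (fun p i m => p ∣ W * m + b i) where
  prime := hP
  per := by
    intro p _ i m
    have h : W * (m + p) + b i = (W * m + b i) + p * W := by ring
    simp only [h]
    exact (Nat.dvd_add_iff_left (Dvd.intro _ rfl)).symm
  one := fun p hp i => mla_root (hP p hp) (hW p hp)
  disj := by
    intro p hp i j m hij h1 h2
    apply hb p hp i j hij
    have h3 : W * m + b i ≡ W * m + b j [MOD p] :=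
      (Nat.modEq_zero_iff_dvd.2 h1).trans (Nat.modEq_zero_iff_dvd.2 h2).symm
    exact Nat.ModEq.add_left_cancel' _ h3

/-- the weight `c / (φ n log n)` for `n ≥ 2` -/
noncomputable def gw (c : ℝ) (n : ℕ) : ℝ :=
  if n ≤ 1 then 0 else c / ((Nat.totient n : ℝ) * Real.log n)

theorem gw_of_two_le (c : ℝ) {n : ℕ} (hn : 2 ≤ n) :
    gw c n = c / ((Nat.totient n : ℝ) * Real.log n) := by
  rw [gw, if_neg (by omega)]

theorem gw_nonneg {c : ℝ} (hc : 0 ≤ c) (n : ℕ) : 0 ≤ gw c n := by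
  unfold gw
  split_ifs
  · exact le_rfl
  · have h1 : 0 ≤ Real.log n := Real.log_natCast_nonneg n
    positivity

theorem mem_QQ {P : Finset ℕ} {B : ℕ} {T : Finset ℕ} :
    T ∈ QQ P B ↔ T ≠ ∅ ∧ T ⊆ P ∧ ∏ p ∈ T, p ≤ B := by
  rw [QQ, mem_filter, mem_erase, mem_powerset]
  tauto

theorem two_le_prod_of_QQ {P : Finset ℕ} (hP : ∀ p ∈ P, p.Prime) {T : Finset ℕ}
    (hT : T ⊆ P) (hne : T ≠ ∅) : 2 ≤ ∏ p ∈ T, p := by
  obtain ⟨q, hq⟩ := Finset.nonempty_iff_ne_empty.2 hne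
  have h1 : q ≤ ∏ p ∈ T, p := Nat.le_of_dvd
    (Finset.prod_pos fun p hp => (hP p (hT hp)).pos) (Finset.dvd_prod_of_mem _ hq)
  exact (hP q (hT hq)).two_le.trans h1

/-- the total mass of the weight -/
noncomputable def S1 (P : Finset ℕ) (B : ℕ) : ℝ :=
  ∑ T ∈ QQ P B, 1 / ((Nat.totient (∏ p ∈ T, p) : ℝ) * Real.log ((∏ p ∈ T, p : ℕ) : ℝ))

theorem sum_gw {P : Finset ℕ} (hP : ∀ p ∈ P, p.Prime) (B : ℕ) (hS : 0 < S1 P B) :
    ∑ T ∈ QQ P B, gw (1 / S1 P B) (∏ p ∈ T, p) = 1 := by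
  have h1 : ∀ T ∈ QQ P B, gw (1 / S1 P B) (∏ p ∈ T, p)
      = (1 / S1 P B) * (1 / ((Nat.totient (∏ p ∈ T, p) : ℝ) *
        Real.log ((∏ p ∈ T, p : ℕ) : ℝ))) := by
    intro T hT
    rw [mem_QQ] at hT
    rw [gw_of_two_le _ (two_le_prod_of_QQ hP hT.2.1 hT.1)]
    ring
  rw [Finset.sum_congr rfl h1, ← Finset.mul_sum]
  change 1 / S1 P B * S1 P B = 1
  field_simp

/-- the sets containing a given prime -/
theorem sum_gw_mem {P : Finset ℕ} (hP : ∀ p ∈ P, p.Prime) (B : ℕ) {c : ℝ} (hc : 0 ≤ c)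
    (hsum : ∑ T ∈ QQ P B, gw c (∏ p ∈ T, p) = 1) (q : ℕ) (hq : q ∈ P)
    (hlog : c ≤ Real.log q) :
    ∑ T ∈ (QQ P B).filter (fun T => q ∈ T), gw c (∏ p ∈ T, p) ≤ 2 / ((q : ℝ) - 1) := by
  classical
  have hqp := hP q hq
  have hq1 : (1 : ℝ) < q := by exact_mod_cast hqp.one_lt
  have hlq : 0 < Real.log q := Real.log_pos hq1
  have hqtot : ((Nat.totient q : ℕ) : ℝ) = (q : ℝ) - 1 := by
    rw [Nat.totient_prime hqp, Nat.cast_sub hqp.one_le, Nat.cast_one]
  -- compare each term with the term for `T.erase q`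
  set F : Finset ℕ → ℝ := fun T' => if T' = ∅ then 1 / ((q : ℝ) - 1)
    else gw c (∏ p ∈ T', p) / ((q : ℝ) - 1) with hF
  have hterm : ∀ T ∈ (QQ P B).filter (fun T => q ∈ T), gw c (∏ p ∈ T, p) ≤ F (T.erase q) := by
    intro T hT
    rw [mem_filter, mem_QQ] at hT
    obtain ⟨⟨hne, hTP, hTB⟩, hqT⟩ := hT
    have hprod : ∏ p ∈ T, p = q * ∏ p ∈ T.erase q, p := (Finset.mul_prod_erase T (fun p => p) hqT).symm
    by_cases hE : T.erase q = ∅
    · rw [hF]
      simp only [hE, if_true]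
      have h1 : ∏ p ∈ T, p = q := by rw [hprod, hE]; simp
      rw [h1, gw_of_two_le _ hqp.two_le, hqtot]
      rw [div_le_div_iff₀ (mul_pos (by linarith) hlq) (by linarith)]
      have : c * ((q:ℝ) - 1) ≤ Real.log q * ((q:ℝ) - 1) :=
        mul_le_mul_of_nonneg_right hlog (by linarith)
      linarith
    · rw [hF]
      simp only [hE, if_false]
      have hEP : T.erase q ⊆ P := (Finset.erase_subset _ _).trans hTP
      have h2 : 2 ≤ ∏ p ∈ T.erase q, p := two_le_prod_of_QQ hP hEP hE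
      have hcop : q.Coprime (∏ p ∈ T.erase q, p) := by
        refine Nat.Coprime.prod_right fun p hp => ?_
        rw [Finset.mem_erase] at hp
        exact (Nat.coprime_primes hqp (hP p (hTP hp.2))).2 (Ne.symm hp.1)
      have h3 : 2 ≤ ∏ p ∈ T, p := two_le_prod_of_QQ hP hTP hne
      rw [gw_of_two_le _ h3, gw_of_two_le _ h2, hprod, Nat.totient_mul hcop, Nat.cast_mul, hqtot]
      set n' := ∏ p ∈ T.erase q, p with hn'
      have hn'1 : (1 : ℝ) < n' := by exact_mod_cast h2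
      have hln' : 0 < Real.log n' := Real.log_pos hn'1
      have hle : Real.log n' ≤ Real.log ((q * n' : ℕ) : ℝ) := by
        refine Real.log_le_log (by linarith) ?_
        push_cast
        nlinarith
      have htot : 0 < ((Nat.totient n' : ℕ) : ℝ) := by
        exact_mod_cast Nat.totient_pos.2 (by omega)
      rw [div_div]
      refine div_le_div_of_nonneg_left hc (by have : (0:ℝ) < q - 1 := by linarith
                                              positivity) ?_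
      have h5 : (n'.totient : ℝ) * Real.log n' ≤ n'.totient * Real.log ((q * n' : ℕ) : ℝ) :=
        mul_le_mul_of_nonneg_left hle htot.le
      have h6 : (0:ℝ) ≤ q - 1 := by linarith
      calc (n'.totient : ℝ) * Real.log n' * ((q:ℝ) - 1)
          ≤ (n'.totient * Real.log ((q * n' : ℕ) : ℝ)) * ((q:ℝ) - 1) :=
            mul_le_mul_of_nonneg_right h5 h6
        _ = ((q:ℝ) - 1) * n'.totient * Real.log ((q * n' : ℕ) : ℝ) := by ring
  have hinj : Set.InjOn (fun T : Finset ℕ => T.erase q)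
      ((QQ P B).filter (fun T => q ∈ T) : Finset (Finset ℕ)) := by
    intro T hT T' hT' h
    rw [mem_coe, mem_filter] at hT hT'
    simp only at h
    rw [← Finset.insert_erase hT.2, ← Finset.insert_erase hT'.2, h]
  refine (Finset.sum_le_sum hterm).trans ?_
  rw [← Finset.sum_image (f := F) hinj]
  have hFnn : ∀ T', 0 ≤ F T' := by
    intro T'
    rw [hF]
    simp only
    have : (0:ℝ) ≤ q - 1 := by linarith
    split_ifs
    · positivity
    · exact div_nonneg (gw_nonneg hc _) this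
  have hsub : Finset.image (fun T : Finset ℕ => T.erase q) ((QQ P B).filter (fun T => q ∈ T))
      ⊆ insert ∅ (QQ P B) := by
    intro T' hT'
    rw [mem_image] at hT'
    obtain ⟨T, hT, rfl⟩ := hT'
    rw [mem_filter, mem_QQ] at hT
    obtain ⟨⟨hne, hTP, hTB⟩, hqT⟩ := hT
    rw [mem_insert]
    by_cases hE : T.erase q = ∅
    · exact Or.inl hE
    · right
      rw [mem_QQ]
      refine ⟨hE, (Finset.erase_subset _ _).trans hTP, ?_⟩
      refine le_trans ?_ hTB
      rw [← Finset.mul_prod_erase T (fun p => p) hqT]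
      exact Nat.le_mul_of_pos_left _ hqp.pos
  refine (Finset.sum_le_sum_of_subset_of_nonneg hsub fun T' _ _ => hFnn T').trans ?_
  have hnot : (∅ : Finset ℕ) ∉ QQ P B := by
    rw [mem_QQ]
    tauto
  rw [Finset.sum_insert hnot]
  have h1 : ∀ T' ∈ QQ P B, F T' = gw c (∏ p ∈ T', p) / ((q : ℝ) - 1) := by
    intro T' hT'
    rw [mem_QQ] at hT'
    rw [hF]
    simp only [hT'.1, if_false]
  rw [Finset.sum_congr rfl h1, ← Finset.sum_div, hsum]
  rw [hF]
  simp only [if_true]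
  apply le_of_eq
  ring

theorem sum_biUnion_le_of_nonneg {α β : Type*} [DecidableEq α] [DecidableEq β] (s : Finset α)
    (t : α → Finset β) (f : β → ℝ) (hf : ∀ b, 0 ≤ f b) :
    ∑ b ∈ s.biUnion t, f b ≤ ∑ a ∈ s, ∑ b ∈ t a, f b := by
  induction s using Finset.induction_on with
  | empty => simp
  | insert a s ha ih =>
    rw [Finset.biUnion_insert, Finset.sum_insert ha]
    have h1 := Finset.sum_union_inter (s₁ := t a) (s₂ := s.biUnion t) (f := f)
    have h2 : 0 ≤ ∑ b ∈ t a ∩ s.biUnion t, f b := Finset.sum_nonneg fun b _ => hf b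
    linarith

/-- the sets which meet a given set -/
theorem sum_gw_meet {P : Finset ℕ} (hP : ∀ p ∈ P, p.Prime) (B : ℕ) {c : ℝ} (hc : 0 ≤ c)
    (hsum : ∑ T ∈ QQ P B, gw c (∏ p ∈ T, p) = 1) (D : ℝ) (hD : 1 < D) (hlog : c ≤ Real.log D)
    (hPD : ∀ p ∈ P, D ≤ p) (T0 : Finset ℕ) (hT0 : T0 ⊆ P) :
    ∑ T ∈ (QQ P B).filter (fun T => ¬ Disjoint T T0), gw c (∏ p ∈ T, p) ≤
      T0.card * (2 / (D - 1)) := by
  classical
  have h1 : ∑ T ∈ (QQ P B).filter (fun T => ¬ Disjoint T T0), gw c (∏ p ∈ T, p) ≤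
      ∑ q ∈ T0, ∑ T ∈ (QQ P B).filter (fun T => q ∈ T), gw c (∏ p ∈ T, p) := by
    have h2 : (QQ P B).filter (fun T => ¬ Disjoint T T0) ⊆
        T0.biUnion (fun q => (QQ P B).filter (fun T => q ∈ T)) := by
      intro T hT
      rw [mem_filter, Finset.not_disjoint_iff] at hT
      obtain ⟨hT, q, hqT, hqT0⟩ := hT
      rw [mem_biUnion]
      exact ⟨q, hqT0, mem_filter.2 ⟨hT, hqT⟩⟩
    refine (Finset.sum_le_sum_of_subset_of_nonneg h2 fun _ _ _ => gw_nonneg hc _).trans ?_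
    exact sum_biUnion_le_of_nonneg T0 _ _ fun _ => gw_nonneg hc _
  refine h1.trans ?_
  have h3 : ∀ q ∈ T0, ∑ T ∈ (QQ P B).filter (fun T => q ∈ T), gw c (∏ p ∈ T, p)
      ≤ 2 / (D - 1) := by
    intro q hq
    refine (sum_gw_mem hP B hc hsum q (hT0 hq) ?_).trans ?_
    · exact hlog.trans (Real.log_le_log (by linarith) (hPD q (hT0 hq)))
    · have := hPD q (hT0 hq)
      exact div_le_div_of_nonneg_left (by norm_num) (by linarith) (by linarith)
  refine (Finset.sum_le_sum h3).trans ?_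
  simp

/-- the level cost -/
theorem sum_cost {P : Finset ℕ} (hP : ∀ p ∈ P, p.Prime) (B : ℕ) {c : ℝ} (hc : 0 ≤ c)
    (hsum : ∑ T ∈ QQ P B, gw c (∏ p ∈ T, p) = 1) (s : ℝ) (hs : 0 ≤ s)
    (hsB : s * Real.log B ≤ 1) :
    ∑ T ∈ QQ P B, gw c (∏ p ∈ T, p) ^ 2 * (Nat.totient (∏ p ∈ T, p) : ℝ) *
          (((∏ p ∈ T, p : ℕ) : ℝ) ^ s - 1) ≤ 2 * s * c := by
  have h1 : ∀ T ∈ QQ P B, gw c (∏ p ∈ T, p) ^ 2 * (Nat.totient (∏ p ∈ T, p) : ℝ) *
          (((∏ p ∈ T, p : ℕ) : ℝ) ^ s - 1) ≤ (2 * s * c) * gw c (∏ p ∈ T, p) := by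
    intro T hT
    rw [mem_QQ] at hT
    have h2 : 2 ≤ ∏ p ∈ T, p := two_le_prod_of_QQ hP hT.2.1 hT.1
    have hB : ∏ p ∈ T, p ≤ B := hT.2.2
    set n := ∏ p ∈ T, p with hn
    have hn1 : (1 : ℝ) < n := by exact_mod_cast h2
    have hln : 0 < Real.log n := Real.log_pos hn1
    have htot : 0 < ((Nat.totient n : ℕ) : ℝ) := by
      exact_mod_cast Nat.totient_pos.2 (by omega)
    have hu : s * Real.log n ≤ 1 := by
      refine le_trans (mul_le_mul_of_nonneg_left ?_ hs) hsB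
      exact Real.log_le_log (by linarith) (by exact_mod_cast hB)
    have hu0 : 0 ≤ s * Real.log n := by positivity
    have hexp : ((n : ℝ)) ^ s - 1 ≤ 2 * (s * Real.log n) := by
      rw [Real.rpow_def_of_pos (by linarith), mul_comm (Real.log (n:ℝ)) s]
      have h5 := Real.abs_exp_sub_one_le (x := s * Real.log n) (by rwa [abs_of_nonneg hu0])
      rw [abs_of_nonneg hu0] at h5
      exact (le_abs_self _).trans h5
    have hg : gw c n * (Nat.totient n : ℝ) * Real.log n = c := by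
      rw [gw_of_two_le _ h2]
      field_simp
    have hg0 : 0 ≤ gw c n := gw_nonneg hc n
    calc gw c n ^ 2 * (Nat.totient n : ℝ) * (((n : ℕ) : ℝ) ^ s - 1)
        ≤ gw c n ^ 2 * (Nat.totient n : ℝ) * (2 * (s * Real.log n)) :=
          mul_le_mul_of_nonneg_left hexp (by positivity)
      _ = (2 * s) * gw c n * (gw c n * (Nat.totient n : ℝ) * Real.log n) := by ring
      _ = (2 * s * c) * gw c n := by rw [hg]; ring
  refine (Finset.sum_le_sum h1).trans ?_
  rw [← Finset.mul_sum, hsum, mul_one]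

/-- the number of primes of a set with bounded product -/
theorem card_log_le {T : Finset ℕ} {D Y : ℝ} (hD : 1 < D) (hT : ∀ p ∈ T, D ≤ p)
    (hY : ((∏ p ∈ T, p : ℕ) : ℝ) ≤ Y) : (T.card : ℝ) * Real.log D ≤ Real.log Y := by
  have h1 : D ^ T.card ≤ Y := by
    refine le_trans ?_ hY
    push_cast
    rw [← Finset.prod_const]
    exact Finset.prod_le_prod (fun _ _ => by linarith) hT
  rw [← Real.log_pow]
  exact Real.log_le_log (by positivity) h1

/-- the Gram factor -/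
theorem gram_factor_le {T : Finset ℕ} {D R n : ℝ} (hD : 2 ≤ D) (hR : 0 ≤ R)
    (hT : ∀ p ∈ T, D ≤ (p : ℕ)) (hn : (T.card : ℝ) ≤ n) (hsmall : n * (2 * R / D) ≤ 1) :
    ∏ p ∈ T, (1 + (R - 1) / ((p : ℝ) - 1)) ≤ 1 + 2 * (n * (2 * R / D)) := by
  have hfac : ∀ p ∈ T, 0 ≤ 1 + (R - 1) / ((p : ℝ) - 1) ∧
      1 + (R - 1) / ((p : ℝ) - 1) ≤ Real.exp (2 * R / D) := by
    intro p hp
    have hp2 := hT p hp
    have hp1 : (0:ℝ) < (p:ℝ) - 1 := by linarith
    constructor
    · have : -1 ≤ (R - 1) / ((p : ℝ) - 1) := by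
        rw [le_div_iff₀ hp1]
        linarith
      linarith
    · have h1 : (R - 1) / ((p : ℝ) - 1) ≤ 2 * R / D := by
        have h2 : (R - 1) / ((p : ℝ) - 1) ≤ R / ((p : ℝ) - 1) :=
          div_le_div_of_nonneg_right (by linarith) hp1.le
        refine h2.trans ?_
        rw [div_le_div_iff₀ hp1 (by linarith)]
        nlinarith
      have h3 := Real.add_one_le_exp (2 * R / D)
      linarith
  have h1 : ∏ p ∈ T, (1 + (R - 1) / ((p : ℝ) - 1)) ≤ ∏ p ∈ T, Real.exp (2 * R / D) :=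
    Finset.prod_le_prod (fun p hp => (hfac p hp).1) (fun p hp => (hfac p hp).2)
  refine h1.trans ?_
  rw [Finset.prod_const, ← Real.exp_nat_mul]
  set u := (T.card : ℝ) * (2 * R / D) with hu
  have hRD : 0 ≤ 2 * R / D := by positivity
  have hu0 : 0 ≤ u := by positivity
  have hun : u ≤ n * (2 * R / D) := mul_le_mul_of_nonneg_right hn hRD
  have h5 := Real.abs_exp_sub_one_le (x := u) (by rw [abs_of_nonneg hu0]; linarith)
  rw [abs_of_nonneg hu0] at h5
  have h6 := (le_abs_self (Real.exp u - 1)).trans h5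
  linarith

end Pool.Agent.H.MP_711652_nt.LG
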