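import Pool.Agent.H.MP_711652_nt.LG.Tilt2

set_option autoImplicit false

namespace Pool.Agent.H.MP_711652_nt.LG

open Finset

variable {ι : Type*} [Fintype ι] [DecidableEq ι]

theorem diag2_prod_ne_one {T : Finset ℕ} (hT : ∀ p ∈ T, p.Prime) (h : T.Nonempty) :
    (∏ p ∈ T, p) ≠ 1 := by
  intro h1
  obtain ⟨p, hp⟩ := h
  rw [Finset.prod_eq_one_iff] at h1
  exact (hT p hp).one_lt.ne' (h1 p hp)

theorem diag2_sum_abs (P : Finset ℕ) (hP : ∀ p ∈ P, p.Prime) (g : ℕ → ℝ) (hg : ∀ n, 0 ≤ g n)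
    (B : ℕ) (hsum : ∑ T ∈ QQ P B, g (∏ p ∈ T, p) = 1) :
    ∑ T ∈ P.powerset, |chg g B (∏ p ∈ T, p)| = 2 := by
  classical
  rw [← Finset.add_sum_erase _ _ (Finset.empty_mem_powerset P), Finset.prod_empty]
  have h1 : |chg g B 1| = 1 := by
    unfold chg
    rw [if_pos rfl, abs_one]
  have h2 : ∑ T ∈ P.powerset.erase ∅, |chg g B (∏ p ∈ T, p)| = ∑ T ∈ QQ P B, g (∏ p ∈ T, p) := by
    unfold QQ
    rw [Finset.sum_filter]
    refine Finset.sum_congr rfl fun T hT => ?_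
    rw [Finset.mem_erase, Finset.mem_powerset] at hT
    have h3 := diag2_prod_ne_one (fun p hp => hP p (hT.2 hp)) (Finset.nonempty_iff_ne_empty.2 hT.1)
    unfold chg
    rw [if_neg h3]
    split_ifs
    · rw [abs_neg, abs_of_nonneg (hg _)]
    · exact abs_zero
  rw [h1, h2, hsum]
  norm_num

/-- PROOF. `|cf| = [DD ≤ Y] ∏ |chi (rr)|`, so the sum is an `SS`; `SS_le_prod` and
`∑_T |chi g B i (∏T)| = 1 + ∑_{T ∈ QQ P B} g i (∏ T) = 2`. -/
theorem sum_abs_cf (P : Finset ℕ) (hP : ∀ p ∈ P, p.Prime) (g : ι → ℕ → ℝ) (hg : ∀ i n, 0 ≤ g i n)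
    (B Y : ℕ) (hB : 1 ≤ B) (hsum : ∀ i, ∑ T ∈ QQ P B, g i (∏ p ∈ T, p) = 1) :
    ∑ σ : P → Option ι, |cf P (chi g B) Y σ| ≤ 2 ^ Fintype.card ι := by
  have h1 : ∑ σ : P → Option ι, |cf P (chi g B) Y σ| =
      SS P Y (fun i n => |chi g B i n|) := by
    unfold SS
    refine Finset.sum_congr rfl fun σ _ => ?_
    unfold cf
    split_ifs
    · rw [Finset.abs_prod]
    · exact abs_zero
  rw [h1]
  refine (SS_le_prod P hP Y _ fun j n => abs_nonneg _).trans ?_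
  have h2 : ∀ i : ι, ∑ T ∈ P.powerset, |chi g B i (∏ p ∈ T, p)| = 2 := fun i =>
    diag2_sum_abs P hP (g i) (hg i) B (hsum i)
  rw [Finset.prod_congr rfl fun i _ => h2 i, Finset.prod_const, Finset.card_univ]

end Pool.Agent.H.MP_711652_nt.LG
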