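import Pool.Agent.H.MP_711652_nt.LG.Tilt1

set_option autoImplicit false

namespace Pool.Agent.H.MP_711652_nt.LG

open Finset

variable {ι : Type*} [Fintype ι] [DecidableEq ι]

theorem tilt2_del_nonneg (n : ℕ) : 0 ≤ del n := by
  rw [del]
  split_ifs <;> norm_num

/-- The weights with `del` at the positions in `s`. -/
noncomputable def tilt2_u (s : Finset ι) (u : ι → ℕ → ℝ) : ι → ℕ → ℝ :=
  fun i => if i ∈ s then del else u i

theorem tilt2_u_nonneg (s : Finset ι) (u : ι → ℕ → ℝ) (hu : ∀ j n, 0 ≤ u j n) (j : ι) (n : ℕ) :
    0 ≤ tilt2_u s u j n := by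
  rw [tilt2_u]
  split_ifs
  · exact tilt2_del_nonneg n
  · exact hu j n

theorem tilt2_all (P : Finset ℕ) (hP : ∀ p ∈ P, p.Prime) (Y : ℕ) :
    SS P Y (fun _ : ι => del) ≤ 1 := by
  classical
  have h : ∀ σ : P → Option ι, (if DD P σ ≤ Y then ∏ i, del (rr P σ i) else 0) ≤
      if σ = (fun _ => none) then (1 : ℝ) else 0 := by
    intro σ
    by_cases hσ : σ = fun _ => none
    · rw [if_pos hσ]
      split_ifs
      · refine Finset.prod_le_one (fun i _ => tilt2_del_nonneg _) fun i _ => ?_
        rw [del]
        split_ifs <;> norm_num
      · norm_num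
    · rw [if_neg hσ]
      split_ifs
      · obtain ⟨p, hp⟩ := Function.ne_iff.1 hσ
        obtain ⟨i, hi⟩ := Option.ne_none_iff_exists'.1 hp
        refine le_of_eq (Finset.prod_eq_zero (Finset.mem_univ i) ?_)
        rw [del, if_neg]
        intro h1
        rw [rr, Finset.prod_eq_one_iff] at h1
        have h2 := h1 p (Finset.mem_univ p)
        rw [if_pos hi] at h2
        exact (hP p p.2).one_lt.ne' h2
      · exact le_rfl
  rw [SS]
  refine (Finset.sum_le_sum fun σ _ => h σ).trans ?_
  rw [Finset.sum_ite_eq' univ (fun _ : P => (none : Option ι)) (fun _ => (1 : ℝ))]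
  simp

/-- PROOF. `one_step` at every position (induction over a finset of positions, the positions already treated carry
`del`), and `SS P Y (fun _ => del) ≤ 1`: only the assignment `none` contributes. -/
theorem SS_le_prod (P : Finset ℕ) (hP : ∀ p ∈ P, p.Prime) (Y : ℕ) (u : ι → ℕ → ℝ)
    (hu : ∀ j n, 0 ≤ u j n) :
    SS P Y u ≤ ∏ i, ∑ T ∈ P.powerset, u i (∏ p ∈ T, p) := by
  classical
  have key : ∀ s : Finset ι, SS P Y u ≤
      (∏ i ∈ s, ∑ T ∈ P.powerset, u i (∏ p ∈ T, p)) * SS P Y (tilt2_u s u) := by
    intro s
    induction s using Finset.induction_on with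
    | empty =>
      have : tilt2_u ∅ u = u := by
        funext i
        simp [tilt2_u]
      rw [this, Finset.prod_empty, one_mul]
    | insert i s hi ih =>
      refine ih.trans ?_
      rw [Finset.prod_insert hi, mul_comm (∑ T ∈ P.powerset, u i (∏ p ∈ T, p)), mul_assoc]
      refine mul_le_mul_of_nonneg_left ?_ (Finset.prod_nonneg fun j _ =>
        Finset.sum_nonneg fun T _ => hu _ _)
      have h1 := one_step P hP Y i (tilt2_u s u) (tilt2_u_nonneg s u hu)
      have h2 : tilt2_u s u i = u i := by
        rw [tilt2_u, if_neg hi]
      have h3 : Function.update (tilt2_u s u) i del = tilt2_u (insert i s) u := by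
        funext j
        by_cases hj : j = i
        · subst hj
          rw [Function.update_self, tilt2_u, if_pos (Finset.mem_insert_self _ _)]
        · rw [Function.update_of_ne hj, tilt2_u, tilt2_u]
          simp only [Finset.mem_insert, hj, false_or]
      rw [h2, h3] at h1
      exact h1
  have h := key univ
  have h4 : tilt2_u univ u = fun _ : ι => del := by
    funext i
    simp [tilt2_u]
  rw [h4] at h
  refine h.trans ?_
  refine (mul_le_mul_of_nonneg_left (tilt2_all P hP Y) (Finset.prod_nonneg fun j _ =>
    Finset.sum_nonneg fun T _ => hu _ _)).trans ?_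
  rw [mul_one]

theorem tilt2_add (P : Finset ℕ) (Y : ℕ) (u : ι → ℕ → ℝ) (i : ι) (a b : ℕ → ℝ) :
    SS P Y (Function.update u i fun n => a n + b n) =
      SS P Y (Function.update u i a) + SS P Y (Function.update u i b) := by
  classical
  rw [SS, SS, SS, ← Finset.sum_add_distrib]
  refine Finset.sum_congr rfl fun σ _ => ?_
  split_ifs
  · rw [← Finset.mul_prod_erase univ _ (Finset.mem_univ i),
      ← Finset.mul_prod_erase univ (fun j => Function.update u i a j (rr P σ j))
        (Finset.mem_univ i),
      ← Finset.mul_prod_erase univ (fun j => Function.update u i b j (rr P σ j))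
        (Finset.mem_univ i), Function.update_self, Function.update_self, Function.update_self]
    have h : ∀ c : ℕ → ℝ, ∏ j ∈ univ.erase i, Function.update u i c j (rr P σ j) =
        ∏ j ∈ univ.erase i, u j (rr P σ j) := fun c =>
      Finset.prod_congr rfl fun j hj => by rw [Function.update_of_ne (Finset.ne_of_mem_erase hj)]
    rw [h, h, h, add_mul]
  · rw [add_zero]

/-- The weights tilted at the positions in `s`. -/
noncomputable def tilt2_w (s : Finset ι) (w d : ι → ℕ → ℝ) : ι → ℕ → ℝ :=
  fun i n => if i ∈ s then w i n * (1 + d i n) else w i n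

/-- **Tilt inequality.**  PROOF. One position at a time: with `w'` = `w` multiplied by `1 + d` at position `i`,
`SS w' = SS w + SS (w with w i * d i at position i) ≤ SS w + (∑_T w i (∏T) * d i (∏T)) SS (update w i del)`
(`one_step`) and `update w i del ≤ w` because `w i 1 = 1`.  Induction over the finset of the positions already
treated. -/
theorem tilt (P : Finset ℕ) (hP : ∀ p ∈ P, p.Prime) (Y : ℕ) (w d : ι → ℕ → ℝ)
    (hw : ∀ i n, 0 ≤ w i n) (hd : ∀ i n, 0 ≤ d i n) (hw1 : ∀ i, w i 1 = 1) :
    SS P Y (fun i n => w i n * (1 + d i n)) ≤
      (∏ i, (1 + ∑ T ∈ P.powerset, w i (∏ p ∈ T, p) * d i (∏ p ∈ T, p))) * SS P Y w := by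
  classical
  have hw' : ∀ s j n, 0 ≤ tilt2_w s w d j n := by
    intro s j n
    rw [tilt2_w]
    split_ifs
    · exact mul_nonneg (hw _ _) (by linarith [hd j n])
    · exact hw j n
  have hS : ∀ i, 0 ≤ ∑ T ∈ P.powerset, w i (∏ p ∈ T, p) * d i (∏ p ∈ T, p) := fun i =>
    Finset.sum_nonneg fun T _ => mul_nonneg (hw _ _) (hd _ _)
  have key : ∀ s : Finset ι, SS P Y (tilt2_w s w d) ≤
      (∏ i ∈ s, (1 + ∑ T ∈ P.powerset, w i (∏ p ∈ T, p) * d i (∏ p ∈ T, p))) * SS P Y w := by
    intro s
    induction s using Finset.induction_on with
    | empty =>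
      have : tilt2_w ∅ w d = w := by
        funext i n
        simp [tilt2_w]
      rw [this, Finset.prod_empty, one_mul]
    | insert i s hi ih =>
      have e1 : tilt2_w (insert i s) w d =
          Function.update (tilt2_w s w d) i fun n => w i n + w i n * d i n := by
        funext j n
        by_cases hj : j = i
        · subst hj
          rw [Function.update_self, tilt2_w, if_pos (Finset.mem_insert_self _ _)]
          ring
        · rw [Function.update_of_ne hj, tilt2_w, tilt2_w]
          simp only [Finset.mem_insert, hj, false_or]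
      have e2 : Function.update (tilt2_w s w d) i (fun n => w i n) = tilt2_w s w d := by
        have : (fun n => w i n) = tilt2_w s w d i := by
          funext n
          rw [tilt2_w, if_neg hi]
        rw [this, Function.update_eq_self]
      have h1 := one_step P hP Y i
        (Function.update (tilt2_w s w d) i fun n => w i n * d i n) (by
          intro j n
          by_cases hj : j = i
          · subst hj
            rw [Function.update_self]
            exact mul_nonneg (hw _ _) (hd _ _)
          · rw [Function.update_of_ne hj]
            exact hw' s j n)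
      rw [Function.update_self, Function.update_idem] at h1
      have h2 : SS P Y (Function.update (tilt2_w s w d) i del) ≤ SS P Y (tilt2_w s w d) := by
        refine SS_mono P Y _ _ ?_ ?_
        · intro j n
          by_cases hj : j = i
          · subst hj
            rw [Function.update_self]
            exact tilt2_del_nonneg n
          · rw [Function.update_of_ne hj]
            exact hw' s j n
        · intro j n
          by_cases hj : j = i
          · subst hj
            rw [Function.update_self, tilt2_w, if_neg hi, del]
            split_ifs with hn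
            · rw [hn, hw1]
            · exact hw _ _
          · rw [Function.update_of_ne hj]
      rw [e1, tilt2_add, e2, Finset.prod_insert hi]
      have h3 := h1.trans (mul_le_mul_of_nonneg_left h2 (hS i))
      calc SS P Y (tilt2_w s w d) +
            SS P Y (Function.update (tilt2_w s w d) i fun n => w i n * d i n) ≤
            SS P Y (tilt2_w s w d) + (∑ T ∈ P.powerset, w i (∏ p ∈ T, p) * d i (∏ p ∈ T, p)) *
              SS P Y (tilt2_w s w d) := by linarith
        _ = (1 + ∑ T ∈ P.powerset, w i (∏ p ∈ T, p) * d i (∏ p ∈ T, p)) *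
              SS P Y (tilt2_w s w d) := by ring
        _ ≤ _ := by
            rw [mul_assoc]
            exact mul_le_mul_of_nonneg_left ih (by linarith [hS i])
  have h := key univ
  have e3 : tilt2_w univ w d = fun i n => w i n * (1 + d i n) := by
    funext i n
    simp [tilt2_w]
  rw [e3] at h
  exact h

end Pool.Agent.H.MP_711652_nt.LG
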