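import Pool.Agent.H.MP_711652_nt.LG.Diag1
import Pool.Agent.H.MP_711652_nt.LG.Tilt2

set_option autoImplicit false

namespace Pool.Agent.H.MP_711652_nt.LG

open Finset

variable {ι : Type*} [Fintype ι] [DecidableEq ι]

/-- the tilt `n ^ s - 1` (`0` at `n = 0`) -/
noncomputable def diag4_d (s : ℝ) (n : ℕ) : ℝ := if n = 0 then 0 else (n : ℝ) ^ s - 1

theorem diag4_d_nonneg (s : ℝ) (hs : 0 ≤ s) (n : ℕ) : 0 ≤ diag4_d s n := by
  unfold diag4_d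
  split_ifs with h
  · exact le_rfl
  · have h1 : (1 : ℝ) ≤ (n : ℝ) := by exact_mod_cast Nat.one_le_iff_ne_zero.2 h
    have := Real.one_le_rpow h1 hs
    linarith

theorem diag4_one_add (s : ℝ) (n : ℕ) (hn : n ≠ 0) : 1 + diag4_d s n = (n : ℝ) ^ s := by
  unfold diag4_d
  rw [if_neg hn]
  ring

omit [Fintype ι] in
theorem diag4_rr_ne (P : Finset ℕ) (hP : ∀ p ∈ P, p.Prime) (σ : P → Option ι) (i : ι) :
    rr P σ i ≠ 0 := by
  unfold rr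
  refine Finset.prod_ne_zero_iff.2 fun p _ => ?_
  split_ifs
  · exact (hP p p.2).ne_zero
  · exact one_ne_zero

/-- the weighted diagonal sum as an `SS` -/
theorem diag4_eq (P : Finset ℕ) (hP : ∀ p ∈ P, p.Prime) (c : ι → ℕ → ℝ) (Y : ℕ) (s : ℝ) :
    ∑ σ : P → Option ι, cf P c Y σ ^ 2 * ph P σ * (DD P σ : ℝ) ^ s =
      SS P Y (fun i n => c i n ^ 2 * (Nat.totient n : ℝ) * (1 + diag4_d s n)) := by
  unfold SS
  refine Finset.sum_congr rfl fun σ _ => ?_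
  unfold cf
  by_cases h : DD P σ ≤ Y
  · rw [if_pos h, if_pos h, ph_eq_prod P hP σ, DD_eq_prod_rr P σ, ← Finset.prod_pow,
      Nat.cast_prod, ← Real.finsetProd_rpow _ _ (fun i _ => Nat.cast_nonneg _),
      ← Finset.prod_mul_distrib, ← Finset.prod_mul_distrib]
    refine Finset.prod_congr rfl fun i _ => ?_
    show _ = c i (rr P σ i) ^ 2 * (Nat.totient (rr P σ i) : ℝ) * (1 + diag4_d s (rr P σ i))
    rw [diag4_one_add s _ (diag4_rr_ne P hP σ i)]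
  · rw [if_neg h, if_neg h]
    ring

theorem diag4_prod_pos (P : Finset ℕ) (hP : ∀ p ∈ P, p.Prime) (T : Finset ℕ) (hT : T ⊆ P) :
    0 < ∏ p ∈ T, p :=
  Finset.prod_pos fun p hp => (hP p (hT hp)).pos

theorem diag4_prod_ne_one (P : Finset ℕ) (hP : ∀ p ∈ P, p.Prime) (T : Finset ℕ) (hT : T ⊆ P)
    (hne : T ≠ ∅) : ∏ p ∈ T, p ≠ 1 := by
  obtain ⟨q, hq⟩ := Finset.nonempty_iff_ne_empty.2 hne
  intro h
  have h1 : q ∣ ∏ p ∈ T, p := Finset.dvd_prod_of_mem _ hq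
  rw [h] at h1
  exact (hP q (hT hq)).one_lt.ne' (Nat.dvd_one.1 h1)

omit [Fintype ι] [DecidableEq ι] in
theorem diag4_sum (P : Finset ℕ) (hP : ∀ p ∈ P, p.Prime) (g : ι → ℕ → ℝ) (B : ℕ) (s : ℝ) (i : ι) :
    ∑ T ∈ P.powerset, (chi g B i (∏ p ∈ T, p) ^ 2 * (Nat.totient (∏ p ∈ T, p) : ℝ)) *
        diag4_d s (∏ p ∈ T, p) =
      ∑ T ∈ QQ P B, g i (∏ p ∈ T, p) ^ 2 * (Nat.totient (∏ p ∈ T, p) : ℝ) *
          (((∏ p ∈ T, p : ℕ) : ℝ) ^ s - 1) := by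
  unfold QQ
  rw [Finset.sum_filter, ← Finset.add_sum_erase _ _ (Finset.empty_mem_powerset P)]
  have h0 : diag4_d s (∏ p ∈ (∅ : Finset ℕ), p) = 0 := by
    unfold diag4_d
    simp
  rw [h0, mul_zero, zero_add]
  refine Finset.sum_congr rfl fun T hT => ?_
  obtain ⟨hne, hT⟩ := Finset.mem_erase.1 hT
  have hT' := Finset.mem_powerset.1 hT
  have h1 := diag4_prod_ne_one P hP T hT' hne
  have h2 : ∏ p ∈ T, p ≠ 0 := (diag4_prod_pos P hP T hT').ne'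
  unfold chi chg diag4_d
  rw [if_neg h1, if_neg h2]
  by_cases h3 : ∏ p ∈ T, p ≤ B
  · rw [if_pos h3, if_pos h3]
    ring
  · rw [if_neg h3, if_neg h3]
    ring

/-- PROOF. `∑_{σ : DD σ * B > Y} cf^2 ph ≤ (B/Y)^s ∑ cf^2 ph DD^s` (`(DD * B / Y) ^ s ≥ 1`), and `DD^s = ∏_i (rr σ i)^s`, so
the last sum is `SS (fun i n => w i n * (1 + d i n))` with `w i n = chi g B i n ^ 2 * φ n` and `1 + d i n = n ^ s` (for `n ≥ 1`; put
`d i 0 = 0`); apply `tilt`.  `∑_{T ∈ powerset} w d` is the sum over `QQ P B`, at most `K`, and `∏ (1 + x) ≤ exp (R x)`. -/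
theorem tail_le (P : Finset ℕ) (hP : ∀ p ∈ P, p.Prime) (g : ι → ℕ → ℝ) (hg : ∀ i n, 0 ≤ g i n)
    (B Y : ℕ) (hB : 1 ≤ B) (hY : 1 ≤ Y) (s : ℝ) (hs : 0 ≤ s) (K : ℝ)
    (hK : ∀ i, ∑ T ∈ QQ P B, g i (∏ p ∈ T, p) ^ 2 * (Nat.totient (∏ p ∈ T, p) : ℝ) *
          (((∏ p ∈ T, p : ℕ) : ℝ) ^ s - 1) ≤ K) :
    ∑ σ ∈ (univ : Finset (P → Option ι)).filter (fun σ => Y < DD P σ * B),
        cf P (chi g B) Y σ ^ 2 * ph P σ ≤
      ((B : ℝ) / Y) ^ s * Real.exp ((Fintype.card ι : ℝ) * K) *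
        ∑ σ : P → Option ι, cf P (chi g B) Y σ ^ 2 * ph P σ := by
  have hB' : (0 : ℝ) < B := by exact_mod_cast hB
  have hY' : (0 : ℝ) < Y := by exact_mod_cast hY
  have hph : ∀ σ : P → Option ι, 0 ≤ ph P σ := fun σ => by
    rw [ph_eq_prod P hP σ]
    exact Finset.prod_nonneg fun i _ => Nat.cast_nonneg _
  have hcf : ∀ σ : P → Option ι, 0 ≤ cf P (chi g B) Y σ ^ 2 * ph P σ := fun σ =>
    mul_nonneg (sq_nonneg _) (hph σ)
  have hBY : 0 ≤ ((B : ℝ) / Y) ^ s := Real.rpow_nonneg (div_nonneg hB'.le hY'.le) s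
  -- step 1
  have s1 : ∑ σ ∈ (univ : Finset (P → Option ι)).filter (fun σ => Y < DD P σ * B),
        cf P (chi g B) Y σ ^ 2 * ph P σ ≤
      ((B : ℝ) / Y) ^ s *
        ∑ σ : P → Option ι, cf P (chi g B) Y σ ^ 2 * ph P σ * (DD P σ : ℝ) ^ s := by
    rw [Finset.mul_sum]
    have hnn : ∀ σ : P → Option ι,
        0 ≤ ((B : ℝ) / Y) ^ s * (cf P (chi g B) Y σ ^ 2 * ph P σ * (DD P σ : ℝ) ^ s) := fun σ =>
      mul_nonneg hBY (mul_nonneg (hcf σ) (Real.rpow_nonneg (Nat.cast_nonneg _) s))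
    refine le_trans (Finset.sum_le_sum fun σ hσ => ?_)
      (Finset.sum_le_sum_of_subset_of_nonneg (Finset.filter_subset _ _) fun σ _ _ => hnn σ)
    have hlt := (Finset.mem_filter.1 hσ).2
    have h1 : (1 : ℝ) ≤ (B : ℝ) / Y * DD P σ := by
      rw [div_mul_eq_mul_div, le_div_iff₀ hY', one_mul]
      have h2 : (Y : ℝ) < (DD P σ * B : ℕ) := by exact_mod_cast hlt
      rw [Nat.cast_mul] at h2
      linarith [mul_comm (B : ℝ) (DD P σ : ℝ)]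
    have h3 : (1 : ℝ) ≤ ((B : ℝ) / Y) ^ s * (DD P σ : ℝ) ^ s := by
      rw [← Real.mul_rpow (div_nonneg hB'.le hY'.le) (Nat.cast_nonneg _)]
      exact Real.one_le_rpow h1 hs
    calc cf P (chi g B) Y σ ^ 2 * ph P σ = 1 * (cf P (chi g B) Y σ ^ 2 * ph P σ) := by ring
      _ ≤ (((B : ℝ) / Y) ^ s * (DD P σ : ℝ) ^ s) * (cf P (chi g B) Y σ ^ 2 * ph P σ) :=
          mul_le_mul_of_nonneg_right h3 (hcf σ)
      _ = ((B : ℝ) / Y) ^ s * (cf P (chi g B) Y σ ^ 2 * ph P σ * (DD P σ : ℝ) ^ s) := by ring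
  -- step 2
  have hw1 : ∀ i : ι, (chi g B i 1 ^ 2 * (Nat.totient 1 : ℝ)) = 1 := fun i => by
    unfold chi chg
    simp
  have s2 := tilt P hP Y (fun i n => chi g B i n ^ 2 * (Nat.totient n : ℝ))
    (fun _ n => diag4_d s n) (fun i n => mul_nonneg (sq_nonneg _) (Nat.cast_nonneg _))
    (fun _ n => diag4_d_nonneg s hs n) hw1
  have hsum0 : ∀ i : ι, 0 ≤ ∑ T ∈ P.powerset,
      (chi g B i (∏ p ∈ T, p) ^ 2 * (Nat.totient (∏ p ∈ T, p) : ℝ)) * diag4_d s (∏ p ∈ T, p) :=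
    fun i => Finset.sum_nonneg fun T _ =>
      mul_nonneg (mul_nonneg (sq_nonneg _) (Nat.cast_nonneg _)) (diag4_d_nonneg s hs _)
  have hprod : (∏ i : ι, (1 + ∑ T ∈ P.powerset,
      (chi g B i (∏ p ∈ T, p) ^ 2 * (Nat.totient (∏ p ∈ T, p) : ℝ)) * diag4_d s (∏ p ∈ T, p))) ≤
      Real.exp ((Fintype.card ι : ℝ) * K) := by
    have h1 : (∏ i : ι, (1 + ∑ T ∈ P.powerset,
        (chi g B i (∏ p ∈ T, p) ^ 2 * (Nat.totient (∏ p ∈ T, p) : ℝ)) *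
          diag4_d s (∏ p ∈ T, p))) ≤ ∏ _i : ι, Real.exp K := by
      refine Finset.prod_le_prod (fun i _ => by have := hsum0 i; linarith) fun i _ => ?_
      rw [diag4_sum P hP g B s i]
      have h2 := Real.add_one_le_exp K
      have h3 := hK i
      linarith
    refine h1.trans (le_of_eq ?_)
    rw [Finset.prod_const, Finset.card_univ, ← Real.exp_nat_mul]
  have hSS : SS P Y (fun i n => chi g B i n ^ 2 * (Nat.totient n : ℝ)) =
      ∑ σ : P → Option ι, cf P (chi g B) Y σ ^ 2 * ph P σ := (diag_eq P hP (chi g B) Y).symm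
  have hSS0 : 0 ≤ SS P Y (fun i n => chi g B i n ^ 2 * (Nat.totient n : ℝ)) := by
    rw [hSS]
    exact Finset.sum_nonneg fun σ _ => hcf σ
  have s3 : ∑ σ : P → Option ι, cf P (chi g B) Y σ ^ 2 * ph P σ * (DD P σ : ℝ) ^ s ≤
      Real.exp ((Fintype.card ι : ℝ) * K) *
        ∑ σ : P → Option ι, cf P (chi g B) Y σ ^ 2 * ph P σ := by
    rw [diag4_eq P hP (chi g B) Y s, ← hSS]
    exact s2.trans (mul_le_mul_of_nonneg_right hprod hSS0)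
  calc _ ≤ _ := s1
    _ ≤ ((B : ℝ) / Y) ^ s * (Real.exp ((Fintype.card ι : ℝ) * K) *
        ∑ σ : P → Option ι, cf P (chi g B) Y σ ^ 2 * ph P σ) :=
        mul_le_mul_of_nonneg_left s3 hBY
    _ = _ := by ring

end Pool.Agent.H.MP_711652_nt.LG
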