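import Pool.Agent.H.MP_711652_nt.LG.Gram1

set_option autoImplicit false

namespace Pool.Agent.H.MP_711652_nt.LG

open Finset

variable {ι : Type*} [Fintype ι] [DecidableEq ι]

/-- PROOF. `a σ * a τ ≤ (a σ ^ 2 + a τ ^ 2) / 2`, `KK_symm` and `sum_abs_KK`. -/
theorem gram_abs (P : Finset ℕ) (hP : ∀ p ∈ P, p.Prime) (a : (P → Option ι) → ℝ) (ha : ∀ σ, 0 ≤ a σ)
    (ε : ℝ)
    (hε : ∀ σ, a σ ≠ 0 → (∏ p : P, if σ p = none then (1 : ℝ)
        else 1 + ((Fintype.card ι : ℝ) - 1) / (((p : ℕ) : ℝ) - 1)) ≤ 1 + ε) :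
    ∑ σ : P → Option ι, ∑ τ : P → Option ι, a σ * a τ * |KK P σ τ| ≤
      (1 + ε) * ∑ σ : P → Option ι, a σ ^ 2 * ph P σ := by
  have _ := ha
  have h1 : ∑ σ : P → Option ι, ∑ τ : P → Option ι, a σ * a τ * |KK P σ τ| ≤
      ∑ σ : P → Option ι, ∑ τ : P → Option ι,
        (a σ ^ 2 * |KK P σ τ| / 2 + a τ ^ 2 * |KK P σ τ| / 2) := by
    refine sum_le_sum fun σ _ => sum_le_sum fun τ _ => ?_
    have h2 : a σ * a τ ≤ (a σ ^ 2 + a τ ^ 2) / 2 := by nlinarith [sq_nonneg (a σ - a τ)]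
    have h3 := mul_le_mul_of_nonneg_right h2 (abs_nonneg (KK P σ τ))
    linarith
  have h4 : ∑ σ : P → Option ι, ∑ τ : P → Option ι, a τ ^ 2 * |KK P σ τ| / 2 =
      ∑ σ : P → Option ι, ∑ τ : P → Option ι, a σ ^ 2 * |KK P σ τ| / 2 := by
    rw [sum_comm]
    refine sum_congr rfl fun σ _ => sum_congr rfl fun τ _ => ?_
    rw [KK_symm P τ σ]
  have h5 : ∑ σ : P → Option ι, ∑ τ : P → Option ι,
        (a σ ^ 2 * |KK P σ τ| / 2 + a τ ^ 2 * |KK P σ τ| / 2) =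
      ∑ σ : P → Option ι, a σ ^ 2 * ∑ τ : P → Option ι, |KK P σ τ| := by
    simp only [sum_add_distrib]
    rw [h4, ← sum_add_distrib]
    refine sum_congr rfl fun σ _ => ?_
    rw [← sum_add_distrib, mul_sum]
    refine sum_congr rfl fun τ _ => ?_
    ring
  rw [h5] at h1
  refine h1.trans ?_
  rw [mul_sum]
  refine sum_le_sum fun σ _ => ?_
  by_cases h0 : a σ = 0
  · simp [h0]
  · rw [sum_abs_KK P hP σ]
    have h6 := hε σ h0
    have h7 : 0 ≤ a σ ^ 2 * ph P σ := mul_nonneg (sq_nonneg _) (ph_nonneg P hP σ)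
    have h8 := mul_le_mul_of_nonneg_left h6 h7
    calc _ = a σ ^ 2 * ph P σ * (∏ p : P, if σ p = none then (1 : ℝ)
        else 1 + ((Fintype.card ι : ℝ) - 1) / (((p : ℕ) : ℝ) - 1)) := by ring
      _ ≤ a σ ^ 2 * ph P σ * (1 + ε) := h8
      _ = _ := by ring

/-- The sum of the diagonal terms written as a double sum. -/
theorem gram2_diag (P : Finset ℕ) (f : (P → Option ι) → ℝ) :
    ∑ σ : P → Option ι, ∑ τ : P → Option ι, (if σ = τ then f σ else 0) =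
      ∑ σ : P → Option ι, f σ := by
  refine sum_congr rfl fun σ _ => ?_
  rw [sum_ite_eq]
  simp

/-- PROOF. The off-diagonal part is in absolute value at most `gram_abs` minus its diagonal. -/
theorem gram_lower (P : Finset ℕ) (hP : ∀ p ∈ P, p.Prime) (v : (P → Option ι) → ℝ)
    (ε : ℝ)
    (hε : ∀ σ, v σ ≠ 0 → (∏ p : P, if σ p = none then (1 : ℝ)
        else 1 + ((Fintype.card ι : ℝ) - 1) / (((p : ℕ) : ℝ) - 1)) ≤ 1 + ε) :
    (1 - ε) * ∑ σ : P → Option ι, v σ ^ 2 * ph P σ ≤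
      ∑ σ : P → Option ι, ∑ τ : P → Option ι, v σ * v τ * KK P σ τ := by
  have h1 := gram_abs P hP (fun σ => |v σ|) (fun σ => abs_nonneg _) ε
    (fun σ h => hε σ (fun h0 => h (by simp [h0])))
  simp only [sq_abs] at h1
  have h2 : ∑ σ : P → Option ι, ∑ τ : P → Option ι,
      ((if σ = τ then 2 * (v σ ^ 2 * ph P σ) else 0) - |v σ| * |v τ| * |KK P σ τ|) ≤
      ∑ σ : P → Option ι, ∑ τ : P → Option ι, v σ * v τ * KK P σ τ := by
    refine sum_le_sum fun σ _ => sum_le_sum fun τ _ => ?_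
    by_cases h : σ = τ
    · subst h
      rw [if_pos rfl, KK_self, abs_of_nonneg (ph_nonneg P hP σ), ← sq_abs (v σ)]
      have e1 : v σ * v σ = |v σ| ^ 2 := by rw [sq_abs]; ring
      rw [e1]
      exact le_of_eq (by ring)
    · rw [if_neg h, zero_sub, ← abs_mul, ← abs_mul]
      exact neg_abs_le _
  simp only [sum_sub_distrib] at h2
  rw [gram2_diag P (fun σ => 2 * (v σ ^ 2 * ph P σ)), ← mul_sum] at h2
  linarith

/-- PROOF. The off-diagonal part is at most `∑_{σ ≠ τ} a σ * a τ * |KK σ τ|`, which is `gram_abs` minus its diagonal. -/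
theorem gram_upper (P : Finset ℕ) (hP : ∀ p ∈ P, p.Prime) (v a : (P → Option ι) → ℝ)
    (hva : ∀ σ, |v σ| ≤ a σ) (ε : ℝ)
    (hε : ∀ σ, a σ ≠ 0 → (∏ p : P, if σ p = none then (1 : ℝ)
        else 1 + ((Fintype.card ι : ℝ) - 1) / (((p : ℕ) : ℝ) - 1)) ≤ 1 + ε) :
    ∑ σ : P → Option ι, ∑ τ : P → Option ι, v σ * v τ * KK P σ τ ≤
      ∑ σ : P → Option ι, v σ ^ 2 * ph P σ + ε * ∑ σ : P → Option ι, a σ ^ 2 * ph P σ := by
  have ha : ∀ σ, 0 ≤ a σ := fun σ => (abs_nonneg _).trans (hva σ)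
  have h1 := gram_abs P hP a ha ε hε
  have h2 : ∑ σ : P → Option ι, ∑ τ : P → Option ι, v σ * v τ * KK P σ τ ≤
      ∑ σ : P → Option ι, ∑ τ : P → Option ι,
      (a σ * a τ * |KK P σ τ| +
        (if σ = τ then v σ ^ 2 * ph P σ - a σ ^ 2 * ph P σ else 0)) := by
    refine sum_le_sum fun σ _ => sum_le_sum fun τ _ => ?_
    by_cases h : σ = τ
    · subst h
      rw [if_pos rfl, KK_self, abs_of_nonneg (ph_nonneg P hP σ)]
      exact le_of_eq (by ring)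
    · rw [if_neg h, add_zero]
      calc v σ * v τ * KK P σ τ ≤ |v σ * v τ * KK P σ τ| := le_abs_self _
        _ = |v σ| * |v τ| * |KK P σ τ| := by rw [abs_mul, abs_mul]
        _ ≤ a σ * a τ * |KK P σ τ| :=
          mul_le_mul_of_nonneg_right
            (mul_le_mul (hva σ) (hva τ) (abs_nonneg _) (ha σ)) (abs_nonneg _)
  simp only [sum_add_distrib] at h2
  rw [gram2_diag P (fun σ => v σ ^ 2 * ph P σ - a σ ^ 2 * ph P σ), sum_sub_distrib] at h2
  linarith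

end Pool.Agent.H.MP_711652_nt.LG
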