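import Pool.Agent.H.MP_711652_nt.LG.Defs

set_option autoImplicit false

namespace Pool.Agent.H.MP_711652_nt.LG

open Finset

/-- Put the primes of `T` at position `i`. -/
def key_put {ι : Type*} {P : Finset ℕ} (i : ι) (σ : P → Option ι) (T : Finset P) :
    P → Option ι := fun p => if p ∈ T then some i else σ p

theorem key_prodT {P : Finset ℕ} (T : Finset P) :
    (∏ p : P, if p ∈ T then (p : ℕ) else 1) = ∏ p ∈ T, (p : ℕ) := by
  rw [Finset.prod_ite_mem, Finset.univ_inter]

theorem key_DD {ι : Type*} [DecidableEq ι] {P : Finset ℕ} (i : ι) (σ : P → Option ι)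
    (T : Finset P) (hT : ∀ p ∈ T, σ p = none) :
    DD P (key_put i σ T) = DD P σ * ∏ p ∈ T, (p : ℕ) := by
  rw [← key_prodT T, DD, DD, ← Finset.prod_mul_distrib]
  refine Finset.prod_congr rfl fun p _ => ?_
  by_cases hp : p ∈ T
  · simp [key_put, hp, hT p hp]
  · simp [key_put, hp]

theorem key_rr_self {ι : Type*} [DecidableEq ι] {P : Finset ℕ} (i : ι) (σ : P → Option ι)
    (T : Finset P) (hσ : ∀ p, σ p ≠ some i) :
    rr P (key_put i σ T) i = ∏ p ∈ T, (p : ℕ) := by
  rw [← key_prodT T, rr]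
  refine Finset.prod_congr rfl fun p _ => ?_
  by_cases hp : p ∈ T
  · simp [key_put, hp]
  · simp [key_put, hp, hσ p]

theorem key_rr_ne {ι : Type*} [DecidableEq ι] {P : Finset ℕ} (i j : ι) (hij : j ≠ i)
    (σ : P → Option ι) (T : Finset P) (hT : ∀ p ∈ T, σ p = none) :
    rr P (key_put i σ T) j = rr P σ j := by
  rw [rr, rr]
  refine Finset.prod_congr rfl fun p _ => ?_
  by_cases hp : p ∈ T
  · simp [key_put, hp, hT p hp, Ne.symm hij]
  · simp [key_put, hp]

theorem key_rr_one {ι : Type*} [DecidableEq ι] {P : Finset ℕ} (i : ι) (σ : P → Option ι)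
    (hσ : ∀ p, σ p ≠ some i) : rr P σ i = 1 := by
  rw [rr]
  refine Finset.prod_eq_one fun p _ => ?_
  simp [hσ p]

theorem key_Phi {ι : Type*} [DecidableEq ι] {P : Finset ℕ} {A : ℕ → ι → ℕ → Prop} (i : ι)
    (σ : P → Option ι) (T : Finset P) (hT : ∀ p ∈ T, σ p = none) (m : ℕ)
    (hm : ∀ p ∈ T, ¬ A (p : ℕ) i m) : Phi P A (key_put i σ T) m = Phi P A σ m := by
  rw [Phi, Phi]
  refine Finset.prod_congr rfl fun p _ => ?_
  by_cases hp : p ∈ T
  · have h1 : key_put i σ T p = some i := by simp [key_put, hp]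
    rw [h1, hT p hp]
    simp [Ef, hm p hp]
  · have h1 : key_put i σ T p = σ p := by simp [key_put, hp]
    rw [h1]

/-- One term of the sum. -/
theorem key_term {ι : Type*} [Fintype ι] [DecidableEq ι] {P : Finset ℕ}
    {A : ℕ → ι → ℕ → Prop} (chi : ι → ℕ → ℝ) (h1 : ∀ j, chi j 1 = 1) (Y : ℕ) (i : ι)
    (Pi : Finset ℕ) (hPi : ∀ T ⊆ P, ¬ T ⊆ Pi → chi i (∏ p ∈ T, p) = 0) (m : ℕ)
    (hm : ∀ p ∈ Pi, ¬ A p i m)
    (σ : P → Option ι) (T : Finset P) (hσ : ∀ p, σ p ≠ some i) (hT : ∀ p ∈ T, σ p = none) :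
    cf P chi Y (key_put i σ T) * Phi P A (key_put i σ T) m =
      (∏ j, chi j (rr P σ j)) *
        (if DD P σ * (∏ p ∈ T, (p : ℕ)) ≤ Y then chi i (∏ p ∈ T, (p : ℕ)) else 0) *
        Phi P A σ m := by
  have h2 : ∏ j, chi j (rr P (key_put i σ T) j) =
      (∏ j, chi j (rr P σ j)) * chi i (∏ p ∈ T, (p : ℕ)) := by
    rw [← Finset.mul_prod_erase univ (fun j => chi j (rr P (key_put i σ T) j)) (mem_univ i),
      ← Finset.mul_prod_erase univ (fun j => chi j (rr P σ j)) (mem_univ i)]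
    have h3 : ∏ j ∈ univ.erase i, chi j (rr P (key_put i σ T) j) =
        ∏ j ∈ univ.erase i, chi j (rr P σ j) := by
      refine Finset.prod_congr rfl fun j hj => ?_
      rw [key_rr_ne i j (Finset.ne_of_mem_erase hj) σ T hT]
    rw [h3, key_rr_self i σ T hσ, key_rr_one i σ hσ, h1]
    ring
  have hcf : cf P chi Y (key_put i σ T) =
      (∏ j, chi j (rr P σ j)) *
        (if DD P σ * (∏ p ∈ T, (p : ℕ)) ≤ Y then chi i (∏ p ∈ T, (p : ℕ)) else 0) := by
    rw [cf, key_DD i σ T hT]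
    split_ifs with h
    · exact h2
    · rw [mul_zero]
  rw [hcf]
  by_cases hTP : ∀ p ∈ T, (p : ℕ) ∈ Pi
  · rw [key_Phi i σ T hT m fun p hp => hm p (hTP p hp)]
  · have hz : chi i (∏ p ∈ T, (p : ℕ)) = 0 := by
      have h4 := hPi (T.map (Function.Embedding.subtype _)) ?_ ?_
      · rw [Finset.prod_map] at h4
        exact h4
      · intro x hx
        obtain ⟨y, _, rfl⟩ := Finset.mem_map.1 hx
        exact y.2
      · intro hsub
        exact hTP fun p hp => hsub (Finset.mem_map.2 ⟨p, hp, rfl⟩)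
    rw [hz, ite_self, mul_zero, zero_mul, zero_mul]

/-- **Key identity.**  PROOF. No prime of `Pi` hits position `i`, so `Ef A p (some i) m = 1` for `p ∈ Pi`.  Group the assignments `σ`
by the assignment `σ'` in which the primes at position `i` are removed (put to `none`), `T` = the set of the removed
primes, a subset of the primes which are nowhere in `σ'`: `DD σ = DD σ' * ∏ T`,
`rr σ i = ∏ T`, `rr σ' i = 1`, `rr σ j = rr σ' j` for `j ≠ i`; if `T ⊆ Pi` then `Phi σ m = Phi σ' m`; if not then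
`chi i (∏ T) = 0` and both coefficients are 0. -/
theorem key {ι : Type*} [Fintype ι] [DecidableEq ι] {P : Finset ℕ} {A : ℕ → ι → ℕ → Prop}
    (chi : ι → ℕ → ℝ) (h1 : ∀ j, chi j 1 = 1) (Y : ℕ) (i : ι) (Pi : Finset ℕ)
    (hPi : ∀ T ⊆ P, ¬ T ⊆ Pi → chi i (∏ p ∈ T, p) = 0) (m : ℕ) (hm : ∀ p ∈ Pi, ¬ A p i m) :
    Psi P A chi Y m = ∑ σ : P → Option ι, vf P chi Y i σ * Phi P A σ m := by
  have hR : ∑ σ : P → Option ι, vf P chi Y i σ * Phi P A σ m =
      ∑ σ ∈ (univ : Finset (P → Option ι)).filter (fun σ => ∀ p, σ p ≠ some i),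
        ∑ T ∈ ((univ : Finset P).filter (fun p => σ p = none)).powerset,
          (∏ j, chi j (rr P σ j)) *
            (if DD P σ * (∏ p ∈ T, (p : ℕ)) ≤ Y then chi i (∏ p ∈ T, (p : ℕ)) else 0) *
            Phi P A σ m := by
    rw [Finset.sum_filter]
    refine Finset.sum_congr rfl fun σ _ => ?_
    by_cases hσ : ∀ p, σ p ≠ some i
    · rw [vf, if_pos hσ, if_pos hσ, wt, Finset.mul_sum, Finset.sum_mul]
    · rw [vf, if_neg hσ, if_neg hσ, zero_mul]
  rw [hR, Finset.sum_sigma', Psi]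
  symm
  refine Finset.sum_bij'
    (fun x _ => key_put i x.1 x.2)
    (fun σ _ => ⟨fun p => if σ p = some i then none else σ p,
      univ.filter (fun p => σ p = some i)⟩)
    ?_ ?_ ?_ ?_ ?_
  · intro x _
    exact mem_univ _
  · intro σ _
    rw [Finset.mem_sigma]
    refine ⟨?_, ?_⟩
    · rw [Finset.mem_filter]
      refine ⟨mem_univ _, fun p => ?_⟩
      dsimp only
      split_ifs with h
      · simp
      · exact h
    · rw [Finset.mem_powerset]
      intro p hp
      rw [Finset.mem_filter] at hp ⊢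
      refine ⟨mem_univ _, ?_⟩
      dsimp only
      rw [if_pos hp.2]
  · rintro ⟨σ, T⟩ hx
    rw [Finset.mem_sigma] at hx
    obtain ⟨hσ, hT⟩ := hx
    have hσ' : ∀ p, σ p ≠ some i := (Finset.mem_filter.1 hσ).2
    have hT' : ∀ p ∈ T, σ p = none := fun p hp =>
      (Finset.mem_filter.1 ((Finset.mem_powerset.1 hT) hp)).2
    have e1 : (fun p => if key_put i σ T p = some i then none else key_put i σ T p) = σ := by
      funext p
      by_cases hp : p ∈ T
      · simp [key_put, hp, hT' p hp]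
      · simp [key_put, hp, hσ' p]
    have e2 : univ.filter (fun p => key_put i σ T p = some i) = T := by
      ext p
      rw [Finset.mem_filter]
      by_cases hp : p ∈ T
      · simp [key_put, hp]
      · simp [key_put, hp, hσ' p]
    dsimp only
    rw [e1, e2]
  · intro σ _
    funext p
    by_cases hp : σ p = some i
    · simp [key_put, hp]
    · simp [key_put, hp]
  · rintro ⟨σ, T⟩ hx
    rw [Finset.mem_sigma] at hx
    obtain ⟨hσ, hT⟩ := hx
    have hσ' : ∀ p, σ p ≠ some i := (Finset.mem_filter.1 hσ).2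
    have hT' : ∀ p ∈ T, σ p = none := fun p hp =>
      (Finset.mem_filter.1 ((Finset.mem_powerset.1 hT) hp)).2
    exact (key_term chi h1 Y i Pi hPi m hm σ T hσ' hT').symm

end Pool.Agent.H.MP_711652_nt.LG
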