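import Pool.Agent.H.MP_711652_nt.LG.Mean2
import Pool.Agent.H.MP_711652_nt.LG.Gram2
import Pool.Agent.H.MP_711652_nt.LG.Key
import Pool.Agent.H.MP_711652_nt.LG.Diag2
import Pool.Agent.H.MP_711652_nt.LG.Diag3
import Pool.Agent.H.MP_711652_nt.LG.Diag4

set_option autoImplicit false

namespace Pool.Agent.H.MP_711652_nt.LG

open Finset

variable {ι : Type*} [Fintype ι] [DecidableEq ι]

/-- the set of the primes which are somewhere -/
def abs_supp (P : Finset ℕ) (σ : P → Option ι) : Finset ℕ :=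
  ((univ : Finset P).filter (fun p => σ p ≠ none)).map ⟨Subtype.val, Subtype.val_injective⟩

theorem abs_supp_sub (P : Finset ℕ) (σ : P → Option ι) : abs_supp P σ ⊆ P := by
  intro p hp
  unfold abs_supp at hp
  rw [mem_map] at hp
  obtain ⟨q, -, rfl⟩ := hp
  exact q.2

theorem abs_prod_supp (P : Finset ℕ) (σ : P → Option ι) (f : ℕ → ℝ) :
    ∏ p ∈ abs_supp P σ, f p = ∏ p : P, if σ p = none then (1 : ℝ) else f p := by
  unfold abs_supp
  rw [prod_map, prod_filter]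
  refine prod_congr rfl fun p _ => ?_
  by_cases hp : σ p = none
  · simp [hp]
  · simp [hp]

theorem abs_DD_supp (P : Finset ℕ) (σ : P → Option ι) : ∏ p ∈ abs_supp P σ, p = DD P σ := by
  unfold abs_supp DD
  rw [prod_map, prod_filter]
  refine prod_congr rfl fun p _ => ?_
  by_cases hp : σ p = none
  · simp [hp]
  · simp [hp]

theorem abs_cf_DD (P : Finset ℕ) (χ : ι → ℕ → ℝ) (Y : ℕ) (σ : P → Option ι) (h : cf P χ Y σ ≠ 0) :
    DD P σ ≤ Y := by
  by_contra hc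
  exact h (by unfold cf; rw [if_neg hc])

theorem abs_quad {P : Finset ℕ} {A : ℕ → ι → ℕ → Prop} (h : Forms P A)
    (v : (P → Option ι) → ℝ) (Y N : ℕ) (hv : ∀ σ, v σ ≠ 0 → DD P σ ≤ Y) (V : ℝ)
    (hV : ∑ σ, |v σ| ≤ V) :
    |∑ m ∈ range N, (∑ σ : P → Option ι, v σ * Phi P A σ m) ^ 2 -
        N * ∑ σ : P → Option ι, ∑ τ : P → Option ι, v σ * v τ * KK P σ τ| ≤
      2 * (Y : ℝ) ^ 4 * V ^ 2 := by
  have h0 : 0 ≤ ∑ σ, |v σ| := sum_nonneg fun σ _ => abs_nonneg _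
  have h1 : ∑ m ∈ range N, (∑ σ : P → Option ι, v σ * Phi P A σ m) ^ 2 =
      ∑ σ : P → Option ι, ∑ τ : P → Option ι,
        v σ * v τ * ∑ m ∈ range N, Phi P A σ m * Phi P A τ m := by
    have h2 : ∀ m, (∑ σ : P → Option ι, v σ * Phi P A σ m) ^ 2 =
        ∑ σ : P → Option ι, ∑ τ : P → Option ι, v σ * v τ * (Phi P A σ m * Phi P A τ m) := by
      intro m
      rw [sq, sum_mul_sum]
      refine sum_congr rfl fun σ _ => sum_congr rfl fun τ _ => ?_
      ring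
    rw [sum_congr rfl fun m _ => h2 m, sum_comm]
    refine sum_congr rfl fun σ _ => ?_
    rw [sum_comm]
    refine sum_congr rfl fun τ _ => ?_
    rw [mul_sum]
  rw [h1, mul_sum, ← sum_sub_distrib]
  have h3 : ∀ σ τ : P → Option ι,
      |v σ * v τ * (∑ m ∈ range N, Phi P A σ m * Phi P A τ m) - N * (v σ * v τ * KK P σ τ)| ≤
        |v σ| * |v τ| * (2 * (Y : ℝ) ^ 4) := by
    intro σ τ
    have e : v σ * v τ * (∑ m ∈ range N, Phi P A σ m * Phi P A τ m) -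
        N * (v σ * v τ * KK P σ τ) =
        v σ * v τ * ((∑ m ∈ range N, Phi P A σ m * Phi P A τ m) - N * KK P σ τ) := by ring
    rw [e, abs_mul, abs_mul]
    by_cases hσ : v σ = 0
    · simp [hσ]
    by_cases hτ : v τ = 0
    · simp [hτ]
    refine mul_le_mul_of_nonneg_left ?_ (by positivity)
    refine (phi_pair h σ τ N).trans ?_
    have e1 : (DD P σ : ℝ) ≤ Y := by exact_mod_cast hv σ hσ
    have e2 : (DD P τ : ℝ) ≤ Y := by exact_mod_cast hv τ hτ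
    have e3 : (DD P σ : ℝ) * DD P τ ≤ (Y : ℝ) * Y := by gcongr
    have e4 : ((DD P σ : ℝ) * DD P τ) ^ 2 ≤ ((Y : ℝ) * Y) ^ 2 := by gcongr
    nlinarith [e4]
  calc |∑ σ : P → Option ι, ((∑ τ : P → Option ι,
          v σ * v τ * ∑ m ∈ range N, Phi P A σ m * Phi P A τ m) -
          N * ∑ τ : P → Option ι, v σ * v τ * KK P σ τ)|
      ≤ ∑ σ : P → Option ι, |(∑ τ : P → Option ι,
          v σ * v τ * ∑ m ∈ range N, Phi P A σ m * Phi P A τ m) -
          N * ∑ τ : P → Option ι, v σ * v τ * KK P σ τ| := abs_sum_le_sum_abs _ _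
    _ ≤ ∑ σ : P → Option ι, ∑ τ : P → Option ι, |v σ| * |v τ| * (2 * (Y : ℝ) ^ 4) := by
        refine sum_le_sum fun σ _ => ?_
        rw [mul_sum, ← sum_sub_distrib]
        exact (abs_sum_le_sum_abs _ _).trans (sum_le_sum fun τ _ => h3 σ τ)
    _ = 2 * (Y : ℝ) ^ 4 * (∑ σ, |v σ|) ^ 2 := by
        rw [sq, sum_mul_sum, mul_sum]
        refine sum_congr rfl fun σ _ => ?_
        rw [mul_sum]
        refine sum_congr rfl fun τ _ => ?_
        ring
    _ ≤ 2 * (Y : ℝ) ^ 4 * V ^ 2 := by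
        gcongr

/-- **The abstract lemma.**  PROOF. Suppose that for every `m < N` there is `i` with no prime of `Pi i` hitting `i` at `m`. Let
`M = ∑ cf^2 ph ≥ 1`. `∑_{m<N} Ψ^2 ≤ ∑_i ∑_{m<N} B_i^2` (`key`, `B_i = ∑ vf Phi`). The left side is `≥ N (1 - ε) M - 2 Y^4 4^R`
(`phi_pair`, `gram_lower`, `sum_abs_cf`), each `∑ B_i^2 ≤ N ((t^2 + θ) M + ε M) + 2 Y^4 4^R` (`gram_upper`, `abs_vf_le`,
`abs_vf_le_small`, `tail_le`). Contradiction. -/
theorem abs_lemma {ι : Type*} [Fintype ι] [DecidableEq ι] {P : Finset ℕ} {A : ℕ → ι → ℕ → Prop}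
    (h : Forms P A) (Pi : ι → Finset ℕ) (g : ι → ℕ → ℝ) (hg : ∀ i n, 0 ≤ g i n)
    (hgP : ∀ i, ∀ T ⊆ P, ¬ T ⊆ Pi i → g i (∏ p ∈ T, p) = 0)
    (B Y N : ℕ) (hB : 1 ≤ B) (hY : 1 ≤ Y)
    (hsum : ∀ i, ∑ T ∈ QQ P B, g i (∏ p ∈ T, p) = 1)
    (s ε t θ K : ℝ) (hs : 0 ≤ s) (hε : 0 ≤ ε) (ht0 : 0 ≤ t)
    (h1 : ∀ T ⊆ P, (∏ p ∈ T, p) ≤ Y →
      ∏ p ∈ T, (1 + ((Fintype.card ι : ℝ) - 1) / ((p : ℝ) - 1)) ≤ 1 + ε)
    (h2 : ∀ i, ∀ T0 ⊆ P, (∏ p ∈ T0, p) ≤ Y →
      ∑ T ∈ (QQ P B).filter (fun T => ¬ Disjoint T T0), g i (∏ p ∈ T, p) ≤ t)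
    (h3 : ∀ i, ∑ T ∈ QQ P B, g i (∏ p ∈ T, p) ^ 2 * (Nat.totient (∏ p ∈ T, p) : ℝ) *
          (((∏ p ∈ T, p : ℕ) : ℝ) ^ s - 1) ≤ K)
    (h3' : ((B : ℝ) / Y) ^ s * Real.exp ((Fintype.card ι : ℝ) * K) ≤ θ)
    (h4 : (Fintype.card ι : ℝ) * (θ + t ^ 2 + ε) + ε ≤ 1 / 2)
    (h5 : 8 * ((Fintype.card ι : ℝ) + 1) * (Y : ℝ) ^ 4 * 4 ^ Fintype.card ι ≤ N) :
    ∃ m < N, ∀ i, ∃ p ∈ Pi i, A p i m := by
  by_contra hcon
  push Not at hcon
  set χ : ι → ℕ → ℝ := chi g B with hχ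
  have hP := h.prime
  have hχ1 : ∀ i, χ i 1 = 1 := fun i => by
    rw [hχ]
    simp [chi, chg]
  set R : ℝ := (Fintype.card ι : ℝ) with hR
  have hR0 : 0 ≤ R := Nat.cast_nonneg _
  set M : ℝ := ∑ σ : P → Option ι, cf P χ Y σ ^ 2 * ph P σ with hM
  have hM1 : 1 ≤ M := one_le_diag P hP χ hχ1 Y hY
  have hεσ : ∀ σ : P → Option ι, DD P σ ≤ Y → (∏ p : P, if σ p = none then (1 : ℝ)
        else 1 + ((Fintype.card ι : ℝ) - 1) / (((p : ℕ) : ℝ) - 1)) ≤ 1 + ε := by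
    intro σ hσ
    have e := h1 (abs_supp P σ) (abs_supp_sub P σ) (by rw [abs_DD_supp]; exact hσ)
    rwa [abs_prod_supp P σ (fun p => 1 + ((Fintype.card ι : ℝ) - 1) / ((p : ℝ) - 1))] at e
  have hcfS : ∑ σ : P → Option ι, |cf P χ Y σ| ≤ 2 ^ Fintype.card ι :=
    sum_abs_cf P hP g hg B Y hB hsum
  have hvc : ∀ i σ, |vf P χ Y i σ| ≤ |cf P χ Y σ| := fun i σ => abs_vf_le P hP g hg B Y hsum i σ
  set E : ℝ := 2 * (Y : ℝ) ^ 4 * (2 ^ Fintype.card ι) ^ 2 with hE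
  -- lower bound
  have hlow : N * ((1 - ε) * M) - E ≤ ∑ m ∈ range N, Psi P A χ Y m ^ 2 := by
    have e1 := abs_quad h (fun σ => cf P χ Y σ) Y N (fun σ hσ => abs_cf_DD P χ Y σ hσ)
      (2 ^ Fintype.card ι) hcfS
    have e2 := gram_lower P hP (fun σ => cf P χ Y σ) ε
      (fun σ hσ => hεσ σ (abs_cf_DD P χ Y σ hσ))
    have e3 := (abs_le.1 e1).1
    have e4 : (N : ℝ) * ((1 - ε) * M) ≤ N * ∑ σ : P → Option ι, ∑ τ : P → Option ι,
        cf P χ Y σ * cf P χ Y τ * KK P σ τ :=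
      mul_le_mul_of_nonneg_left e2 (Nat.cast_nonneg _)
    have e5 : ∑ m ∈ range N, Psi P A χ Y m ^ 2 =
        ∑ m ∈ range N, (∑ σ : P → Option ι, cf P χ Y σ * Phi P A σ m) ^ 2 := rfl
    rw [e5]
    linarith
  -- upper bound
  have hup : ∀ i, ∑ m ∈ range N, (∑ σ : P → Option ι, vf P χ Y i σ * Phi P A σ m) ^ 2 ≤
      N * ((t ^ 2 + θ + ε) * M) + E := by
    intro i
    have hv0 : ∀ σ, vf P χ Y i σ ≠ 0 → DD P σ ≤ Y := by
      intro σ hσ
      refine abs_cf_DD P χ Y σ fun h0 => hσ ?_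
      have := hvc i σ
      rw [h0, abs_zero] at this
      exact abs_eq_zero.1 (le_antisymm this (abs_nonneg _))
    have e1 := abs_quad h (fun σ => vf P χ Y i σ) Y N hv0 (2 ^ Fintype.card ι)
      ((sum_le_sum fun σ _ => hvc i σ).trans hcfS)
    have e2 := gram_upper P hP (fun σ => vf P χ Y i σ) (fun σ => |cf P χ Y σ|) (hvc i) ε
      (fun σ hσ => hεσ σ (abs_cf_DD P χ Y σ (fun h0 => hσ (by simp [h0]))))
    have e3 := (abs_le.1 e1).2
    have e4 : ∑ σ : P → Option ι, |cf P χ Y σ| ^ 2 * ph P σ = M := by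
      rw [hM]
      exact sum_congr rfl fun σ _ => by rw [sq_abs]
    have htail : ∑ σ ∈ (univ : Finset (P → Option ι)).filter (fun σ => Y < DD P σ * B),
        cf P χ Y σ ^ 2 * ph P σ ≤ θ * M := by
      refine (tail_le P hP g hg B Y hB hY s hs K h3).trans ?_
      exact mul_le_mul_of_nonneg_right h3' (by linarith)
    have e5 : ∑ σ : P → Option ι, vf P χ Y i σ ^ 2 * ph P σ ≤ t ^ 2 * M + θ * M := by
      rw [← sum_filter_add_sum_filter_not univ (fun σ : P → Option ι => Y < DD P σ * B), add_comm]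
      refine add_le_add ?_ ?_
      · calc ∑ σ ∈ (univ : Finset (P → Option ι)).filter (fun σ => ¬ Y < DD P σ * B),
              vf P χ Y i σ ^ 2 * ph P σ
            ≤ ∑ σ ∈ (univ : Finset (P → Option ι)).filter (fun σ => ¬ Y < DD P σ * B),
              t ^ 2 * (cf P χ Y σ ^ 2 * ph P σ) := by
              refine sum_le_sum fun σ hσ => ?_
              rw [mem_filter] at hσ
              have e6 := abs_vf_le_small P hP g hg B Y hB hsum t h2 i σ (not_lt.1 hσ.2)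
              have e7 : vf P χ Y i σ ^ 2 ≤ t ^ 2 * cf P χ Y σ ^ 2 := by
                rw [← sq_abs (vf P χ Y i σ), ← sq_abs (cf P χ Y σ), ← mul_pow]
                exact pow_le_pow_left₀ (abs_nonneg _) e6 2
              calc vf P χ Y i σ ^ 2 * ph P σ ≤ (t ^ 2 * cf P χ Y σ ^ 2) * ph P σ :=
                    mul_le_mul_of_nonneg_right e7 (ph_nonneg P hP σ)
                _ = t ^ 2 * (cf P χ Y σ ^ 2 * ph P σ) := by ring
          _ ≤ ∑ σ : P → Option ι, t ^ 2 * (cf P χ Y σ ^ 2 * ph P σ) :=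
              sum_le_sum_of_subset_of_nonneg (filter_subset _ _) fun σ _ _ =>
                mul_nonneg (sq_nonneg _) (mul_nonneg (sq_nonneg _) (ph_nonneg P hP σ))
          _ = t ^ 2 * M := by rw [hM, mul_sum]
      · refine le_trans (sum_le_sum fun σ _ => ?_) htail
        refine mul_le_mul_of_nonneg_right ?_ (ph_nonneg P hP σ)
        rw [← sq_abs (vf P χ Y i σ), ← sq_abs (cf P χ Y σ)]
        exact pow_le_pow_left₀ (abs_nonneg _) (hvc i σ) 2
    rw [e4] at e2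
    have e6 : (N : ℝ) * ∑ σ : P → Option ι, ∑ τ : P → Option ι,
        vf P χ Y i σ * vf P χ Y i τ * KK P σ τ ≤ N * ((t ^ 2 + θ + ε) * M) := by
      refine mul_le_mul_of_nonneg_left ?_ (Nat.cast_nonneg _)
      nlinarith [e2, e5]
    linarith
  -- the comparison
  have hcmp : ∑ m ∈ range N, Psi P A χ Y m ^ 2 ≤
      ∑ i : ι, ∑ m ∈ range N, (∑ σ : P → Option ι, vf P χ Y i σ * Phi P A σ m) ^ 2 := by
    rw [sum_comm]
    refine sum_le_sum fun m hm => ?_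
    rw [mem_range] at hm
    obtain ⟨i, hi⟩ := hcon m hm
    have e1 : Psi P A χ Y m = ∑ σ : P → Option ι, vf P χ Y i σ * Phi P A σ m := by
      refine key χ hχ1 Y i (Pi i) ?_ m hi
      intro T hT hTi
      have hne : (∏ p ∈ T, p) ≠ 1 := by
        intro h1
        apply hTi
        have hTe : T = ∅ := by
          by_contra hne
          obtain ⟨p, hp⟩ := nonempty_iff_ne_empty.2 hne
          have e := dvd_prod_of_mem (fun p => p) hp
          rw [h1] at e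
          exact (hP p (hT hp)).one_lt.ne' (Nat.dvd_one.1 e)
        rw [hTe]
        exact empty_subset _
      rw [hχ]
      unfold chi chg
      rw [if_neg hne, hgP i T hT hTi]
      simp
    rw [e1]
    exact single_le_sum (f := fun i => (∑ σ : P → Option ι, vf P χ Y i σ * Phi P A σ m) ^ 2)
      (fun i _ => sq_nonneg _) (mem_univ i)
  have hsumup : ∑ i : ι, ∑ m ∈ range N, (∑ σ : P → Option ι, vf P χ Y i σ * Phi P A σ m) ^ 2 ≤
      R * (N * ((t ^ 2 + θ + ε) * M) + E) := by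
    refine (sum_le_sum fun i _ => hup i).trans ?_
    rw [sum_const, card_univ, nsmul_eq_mul]
  have hY1 : (1 : ℝ) ≤ Y := by exact_mod_cast hY
  have hE2 : E = 2 * (Y : ℝ) ^ 4 * 4 ^ Fintype.card ι := by
    rw [hE, ← pow_mul, mul_comm (Fintype.card ι) 2, pow_mul]
    norm_num
  have h4pos : (0 : ℝ) < 4 ^ Fintype.card ι := by positivity
  have hYpos : (0 : ℝ) < (Y : ℝ) ^ 4 := by positivity
  have hEpos : 0 < E := by rw [hE2]; positivity
  have hN5 : 4 * (R + 1) * E ≤ N := by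
    rw [hE2]
    have e : 4 * (R + 1) * (2 * (Y : ℝ) ^ 4 * 4 ^ Fintype.card ι) =
        8 * (R + 1) * (Y : ℝ) ^ 4 * 4 ^ Fintype.card ι := by ring
    rw [e]
    exact h5
  have hNpos : (0 : ℝ) < N := lt_of_lt_of_le (by positivity) hN5
  have hNM : (N : ℝ) ≤ N * M := le_mul_of_one_le_right hNpos.le hM1
  have key1 : N * M * (1 - ε - R * (θ + t ^ 2 + ε)) ≤ (R + 1) * E := by
    have := hlow.trans (hcmp.trans hsumup)
    nlinarith [this]
  have key2 : N * M * (1 / 2) ≤ N * M * (1 - ε - R * (θ + t ^ 2 + ε)) :=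
    mul_le_mul_of_nonneg_left (by linarith) (by positivity)
  have key3 : 0 < (R + 1) * E := by positivity
  nlinarith

end Pool.Agent.H.MP_711652_nt.LG
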