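import Mathlib

/-!
# MP_711652_nt, large gaps: the interfaces (helper15)

`ML`     : the Main Lemma (engine + sums), owner helper38
`Stage1` : the choice of the residues of the small primes, owner helper91
`Local`  : the localised theorem from `ML` and `Stage1` (LG/Asm, helper15)
`Full`   : the hand-in statement from `Local` (LG/Final, helper15)
-/

set_option autoImplicit false

namespace Pool.Agent.H.MP_711652_nt.LG

/-- `log H (loglog H)^2 loglogloglog H / (logloglog H)^2` -/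
noncomputable def FF (H : ℝ) : ℝ :=
  Real.log H * Real.log (Real.log H) ^ 2 * Real.log (Real.log (Real.log (Real.log H))) /
    Real.log (Real.log (Real.log H)) ^ 2

/-- Main Lemma -/
def ML : Prop :=
  ∃ c₀ : ℝ, 0 < c₀ ∧ ∃ x₀ : ℝ, ∀ x : ℝ, x₀ ≤ x → ∀ J : Finset ℕ,
    (∀ h ∈ J, (h : ℝ) ≤ x ^ 5) → (J.card : ℝ) ≤ c₀ * x →
    ∀ W : ℕ, 0 < W → (∀ p : ℕ, p.Prime → p ∣ W → (p : ℝ) ≤ x ^ 6) → ∀ ν : ℕ,
      ∃ m : ℕ, (m : ℝ) < Real.exp (x / 2) ∧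
        ∀ h ∈ J, ∃ p : ℕ, p.Prime ∧ x ^ 6 < (p : ℝ) ∧
          (p : ℝ) ≤ Real.exp (x / (200 * Real.log x)) ∧ p ∣ W * m + ν + h

/-- the number of consecutive integers treated, as a function of `x = log H` -/
noncomputable def LL (c x : ℝ) : ℕ :=
  ⌊c * (x * Real.log x ^ 2 * Real.log (Real.log (Real.log x)) / Real.log (Real.log x) ^ 2)⌋₊

/-- Erdős–Rankin stage: `c₀` arbitrary, at most `c₀ x` survivors. -/
def Stage1 : Prop :=
  ∀ c₀ : ℝ, 0 < c₀ → ∃ c : ℝ, 0 < c ∧ ∃ x₀ : ℝ, ∀ x : ℝ, x₀ ≤ x → ∃ ν : ℕ,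
    (((Finset.Icc 1 (LL c x)).filter
      (fun h => Nat.Coprime (ν + h) (primorial ⌊x / 10⌋₊))).card : ℝ) ≤ c₀ * x

/-- the localised theorem -/
def Local : Prop :=
  ∃ c : ℝ, 0 < c ∧ ∃ H₀ : ℝ, ∀ H : ℝ, H₀ ≤ H → ∀ y : ℕ, ∃ n : ℕ,
    y ≤ n ∧ (n : ℝ) + c * FF H ≤ y + H ∧
      ∀ k : ℕ, n < k → (k : ℝ) ≤ n + c * FF H →
        ∃ p : ℕ, p.Prime ∧ p < k ∧ p ∣ k ∧
          (p : ℝ) ≤ Real.exp (Real.log H / (200 * Real.log (Real.log H)))

/-- the hand-in: some gap between consecutive primes meets `[X, X + X^θ]` in length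
`≥ c θ log X (loglog X)^2 loglogloglog X / (logloglog X)^2` -/
def Full : Prop :=
  ∃ c : ℝ, 0 < c ∧ ∀ θ : ℝ, 0 < θ → θ ≤ 1 → ∃ X₀ : ℝ, ∀ X : ℝ, X₀ ≤ X → ∃ k : ℕ,
    max (Nat.nth Nat.Prime k : ℝ) X +
      c * θ * (Real.log X * Real.log (Real.log X) ^ 2 *
        Real.log (Real.log (Real.log (Real.log X))) / Real.log (Real.log (Real.log X)) ^ 2) ≤
    min (Nat.nth Nat.Prime (k + 1) : ℝ) (X + X ^ θ)

end Pool.Agent.H.MP_711652_nt.LG
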