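import Mathlib
import Pool.Agent.H.MP_711652_nt.LG.Stmt

/-!
# `ML` and `Stage1` imply `Local`
-/

set_option autoImplicit false

namespace Pool.Agent.H.MP_711652_nt.LG

open Filter Finset

/-- the function of `x = log H` -/
noncomputable def GG (x : ℝ) : ℝ :=
  x * Real.log x ^ 2 * Real.log (Real.log (Real.log x)) / Real.log (Real.log x) ^ 2

theorem FF_eq (H : ℝ) : FF H = GG (Real.log H) := rfl

theorem tendsto_log2 : Tendsto (fun x : ℝ => Real.log (Real.log x)) atTop atTop :=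
  Real.tendsto_log_atTop.comp Real.tendsto_log_atTop

theorem tendsto_log3 : Tendsto (fun x : ℝ => Real.log (Real.log (Real.log x))) atTop atTop :=
  Real.tendsto_log_atTop.comp tendsto_log2

theorem GG_nonneg_ev : ∀ᶠ x : ℝ in atTop, 0 ≤ GG x := by
  filter_upwards [eventually_ge_atTop (0 : ℝ), tendsto_log3.eventually_ge_atTop 0] with x h0 h3
  unfold GG
  positivity

theorem GG_le_ev : ∀ᶠ x : ℝ in atTop, GG x ≤ x ^ 4 := by
  filter_upwards [eventually_ge_atTop (1 : ℝ), tendsto_log2.eventually_ge_atTop 1,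
    Real.tendsto_log_atTop.eventually_ge_atTop 1, tendsto_log3.eventually_ge_atTop 0]
    with x h1 h2 hl h3
  have hx0 : 0 < x := by linarith
  have hlx : Real.log x ≤ x := (Real.log_le_sub_one_of_pos hx0).trans (by linarith)
  have hl2 : Real.log (Real.log x) ≤ Real.log x :=
    (Real.log_le_sub_one_of_pos (by linarith)).trans (by linarith)
  have hl3 : Real.log (Real.log (Real.log x)) ≤ x := by
    have := Real.log_le_sub_one_of_pos (show 0 < Real.log (Real.log x) by linarith)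
    linarith
  unfold GG
  rw [div_le_iff₀ (by positivity)]
  have ha : x * Real.log x ^ 2 * Real.log (Real.log (Real.log x)) ≤ x * x ^ 2 * x := by
    gcongr
  have hb : (1 : ℝ) ≤ Real.log (Real.log x) ^ 2 := by nlinarith
  have hc : (0 : ℝ) ≤ x ^ 4 := by positivity
  nlinarith

theorem small_ev : ∀ᶠ x : ℝ in atTop, x / 10 ≤ Real.exp (x / (200 * Real.log x)) := by
  have h : Tendsto (fun x : ℝ => x / Real.log x ^ 2) atTop atTop := by
    have h1 := (isLittleO_log_rpow_atTop (show (0 : ℝ) < 1 / 2 by norm_num))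
    have h2 : (fun x : ℝ => Real.log x ^ 2) =o[atTop] (fun x : ℝ => x) := by
      have := h1.pow (n := 2) (by norm_num)
      refine this.congr' (EventuallyEq.refl _ _) ?_
      filter_upwards [eventually_gt_atTop (0 : ℝ)] with x hx
      show (x ^ (1 / 2 : ℝ)) ^ 2 = x
      rw [← Real.rpow_natCast, ← Real.rpow_mul hx.le]
      norm_num
    have h3 : Tendsto (fun x : ℝ => Real.log x ^ 2 / x) atTop (nhdsWithin 0 (Set.Ioi 0)) := by
      rw [tendsto_nhdsWithin_iff]
      refine ⟨h2.tendsto_div_nhds_zero, ?_⟩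
      filter_upwards [eventually_gt_atTop (1 : ℝ)] with x hx
      have : 0 < Real.log x := Real.log_pos hx
      have hx0 : (0 : ℝ) < x := by linarith
      exact div_pos (by positivity) hx0
    have h4 := h3.inv_tendsto_nhdsGT_zero
    refine h4.congr (fun x => ?_)
    simp [inv_div]
  filter_upwards [h.eventually_ge_atTop 200, eventually_gt_atTop (1 : ℝ)] with x hx h1
  have hl : 0 < Real.log x := Real.log_pos h1
  have hx0 : (0 : ℝ) < x := by linarith
  have h5 : Real.log x ≤ x / (200 * Real.log x) := by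
    rw [le_div_iff₀ (by positivity)] at hx
    rw [le_div_iff₀ (by positivity)]
    nlinarith
  calc x / 10 ≤ x := by linarith
    _ = Real.exp (Real.log x) := (Real.exp_log hx0).symm
    _ ≤ _ := Real.exp_le_exp.mpr h5

theorem size_ev (c : ℝ) : ∀ᶠ x : ℝ in atTop,
    Real.exp (x / (200 * Real.log x)) + 1 + 3 * Real.exp (7 / 10 * x) + c * GG x ≤ Real.exp x := by
  have h1 : Tendsto (fun x : ℝ => Real.exp x / x ^ 4) atTop atTop :=
    Real.tendsto_exp_div_pow_atTop 4
  have h2 : Tendsto (fun x : ℝ => Real.exp (3 / 10 * x)) atTop atTop := by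
    refine Real.tendsto_exp_atTop.comp ?_
    exact Tendsto.const_mul_atTop (by norm_num) tendsto_id
  filter_upwards [h1.eventually_ge_atTop (4 * |c|), h2.eventually_ge_atTop 20, GG_le_ev,
    GG_nonneg_ev, eventually_ge_atTop (3 : ℝ), Real.tendsto_log_atTop.eventually_ge_atTop 1]
    with x h1 h2 h3 h3' h4 h5
  have hx0 : (0 : ℝ) < x := by linarith
  have ha : c * GG x ≤ Real.exp x / 4 := by
    rw [le_div_iff₀ (by positivity)] at h1
    have : c * GG x ≤ |c| * x ^ 4 :=
      (mul_le_mul_of_nonneg_right (le_abs_self c) h3').trans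
        (mul_le_mul_of_nonneg_left h3 (abs_nonneg c))
    linarith
  have hb : Real.exp (7 / 10 * x) * 20 ≤ Real.exp x := by
    have : Real.exp x = Real.exp (7 / 10 * x) * Real.exp (3 / 10 * x) := by
      rw [← Real.exp_add]; congr 1; ring
    rw [this]
    exact mul_le_mul_of_nonneg_left h2 (Real.exp_pos _).le
  have hc : Real.exp (x / (200 * Real.log x)) ≤ Real.exp (7 / 10 * x) := by
    apply Real.exp_le_exp.mpr
    rw [div_le_iff₀ (by positivity)]
    nlinarith
  have hd : (1 : ℝ) ≤ Real.exp (7 / 10 * x) := Real.one_le_exp (by positivity)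
  nlinarith [Real.exp_pos x]

theorem prim_le (x : ℝ) (hx : 0 ≤ x) :
    (primorial ⌊x / 10⌋₊ : ℝ) ≤ Real.exp (1 / 5 * x) := by
  have h1 : (primorial ⌊x / 10⌋₊ : ℝ) ≤ (4 : ℝ) ^ ⌊x / 10⌋₊ := by
    exact_mod_cast primorial_le_four_pow ⌊x / 10⌋₊
  have h2 : (4 : ℝ) ≤ Real.exp 2 := by
    have := Real.add_one_le_exp (1 : ℝ)
    have h3 : Real.exp 2 = Real.exp 1 * Real.exp 1 := by rw [← Real.exp_add]; norm_num
    rw [h3]; nlinarith
  calc (primorial ⌊x / 10⌋₊ : ℝ) ≤ (4 : ℝ) ^ ⌊x / 10⌋₊ := h1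
    _ ≤ (Real.exp 2) ^ ⌊x / 10⌋₊ := by gcongr
    _ = Real.exp (⌊x / 10⌋₊ * 2) := by rw [← Real.exp_nat_mul]
    _ ≤ Real.exp (1 / 5 * x) := by
      apply Real.exp_le_exp.mpr
      have := Nat.floor_le (show 0 ≤ x / 10 by positivity)
      linarith

theorem dvd_prim {p n : ℕ} (hp : p.Prime) (h : p ∣ primorial n) : p ≤ n := by
  unfold primorial at h
  rw [Prime.dvd_finsetProd_iff hp.prime] at h
  obtain ⟨q, hq, hpq⟩ := h
  rw [mem_filter, mem_range] at hq
  have := (Nat.prime_dvd_prime_iff_eq hp hq.2).mp hpq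
  omega

theorem local_of (hML : ML) (hS : Stage1) : Local := by
  obtain ⟨c₀, hc₀, x₀, hML⟩ := hML
  obtain ⟨c, hc, x₁, hS⟩ := hS c₀ hc₀
  refine ⟨c, hc, ?_⟩
  have hev : ∀ᶠ x : ℝ in atTop, x₀ ≤ x ∧ x₁ ≤ x ∧ 1 ≤ x ∧ 1 ≤ Real.log x ∧
      x / 10 ≤ Real.exp (x / (200 * Real.log x)) ∧
      Real.exp (x / (200 * Real.log x)) + 1 + 3 * Real.exp (7 / 10 * x) + c * GG x ≤ Real.exp x ∧
      c ≤ x ∧ 0 ≤ GG x ∧ GG x ≤ x ^ 4 := by
    filter_upwards [eventually_ge_atTop x₀, eventually_ge_atTop x₁, eventually_ge_atTop 1,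
      Real.tendsto_log_atTop.eventually_ge_atTop 1, small_ev, size_ev c, eventually_ge_atTop c,
      GG_nonneg_ev, GG_le_ev] with x h1 h2 h3 h4 h5 h6 h7 h8 h9
    exact ⟨h1, h2, h3, h4, h5, h6, h7, h8, h9⟩
  obtain ⟨X, hX⟩ := eventually_atTop.mp hev
  refine ⟨Real.exp X, fun H hH y => ?_⟩
  have hHpos : 0 < H := (Real.exp_pos X).trans_le hH
  set x := Real.log H with hxdef
  have hHx : Real.exp x = H := Real.exp_log hHpos
  obtain ⟨h0, h1, hx1, hlx, hsm, hsize, hcx, hG0, hG4⟩ := hX x ((Real.le_log_iff_exp_le hHpos).mpr hH)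
  have hx0 : 0 < x := by linarith
  obtain ⟨ν, hν⟩ := hS x h1
  set W := primorial ⌊x / 10⌋₊ with hW
  have hWpos : 0 < W := primorial_pos _
  set B : ℝ := Real.exp (x / (200 * Real.log x)) with hB
  set T : ℕ := ⌈B⌉₊ with hT
  set t : ℕ := (y + T) / W + 1 with ht
  set ν' : ℕ := ν % W + W * t with hν'
  set J := ((Finset.Icc 1 (LL c x)).filter (fun h => Nat.Coprime (ν + h) W)) with hJ
  have hLL : LL c x = ⌊c * GG x⌋₊ := rfl
  have hLle : ((LL c x : ℕ) : ℝ) ≤ c * GG x := by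
    rw [hLL]; exact Nat.floor_le (by positivity)
  have hJ5 : ∀ h ∈ J, (h : ℝ) ≤ x ^ 5 := by
    intro h hh
    rw [hJ, mem_filter, mem_Icc] at hh
    have h1 : (h : ℝ) ≤ ((LL c x : ℕ) : ℝ) := by exact_mod_cast hh.1.2
    calc (h : ℝ) ≤ c * GG x := h1.trans hLle
      _ ≤ x * x ^ 4 := mul_le_mul hcx hG4 hG0 hx0.le
      _ = x ^ 5 := by ring
  have hWp : ∀ p : ℕ, p.Prime → p ∣ W → (p : ℝ) ≤ x ^ 6 := by
    intro p hp hpW
    have h1 : p ≤ ⌊x / 10⌋₊ := dvd_prim hp hpW
    have h2 : (p : ℝ) ≤ x / 10 := (Nat.cast_le.mpr h1).trans (Nat.floor_le (by positivity))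
    have h3 : x ≤ x ^ 6 := le_self_pow₀ hx1 (by norm_num)
    linarith
  obtain ⟨m, hm, hmJ⟩ := hML x h0 J hJ5 hν W hWpos hWp ν'
  -- sizes
  have hWt1 : y + T < W * t := by
    rw [ht]; exact Nat.lt_mul_div_succ _ hWpos
  have hWt2 : W * t ≤ y + T + W := by
    rw [ht, mul_add, mul_one]
    have := Nat.mul_div_le (y + T) W
    omega
  have hmod : ν % W < W := Nat.mod_lt _ hWpos
  refine ⟨W * m + ν', by omega, ?_, ?_⟩
  · rw [FF_eq, ← hxdef]
    have hTB : (T : ℝ) ≤ B + 1 := (Nat.ceil_lt_add_one (Real.exp_pos _).le).le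
    have hν'le : (ν' : ℝ) ≤ W + (y + T + W) := by
      have : ν' ≤ W + (y + T + W) := by omega
      exact_mod_cast this
    have hWle : (W : ℝ) ≤ Real.exp (1 / 5 * x) := prim_le x hx0.le
    have hWm : (W : ℝ) * m ≤ Real.exp (7 / 10 * x) := by
      have : Real.exp (7 / 10 * x) = Real.exp (1 / 5 * x) * Real.exp (x / 2) := by
        rw [← Real.exp_add]; congr 1; ring
      rw [this]
      exact mul_le_mul hWle hm.le (by positivity) (by positivity)
    have hWle2 : (W : ℝ) ≤ Real.exp (7 / 10 * x) :=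
      hWle.trans (Real.exp_le_exp.mpr (by linarith))
    push_cast
    rw [← hHx]
    linarith
  · intro k hk1 hk2
    rw [FF_eq, ← hxdef] at hk2
    obtain ⟨h, rfl⟩ : ∃ h, k = W * m + ν' + h := ⟨k - (W * m + ν'), by omega⟩
    have hh1 : 1 ≤ h := by omega
    have hh2 : h ≤ LL c x := by
      rw [hLL]
      apply Nat.le_floor
      push_cast at hk2
      linarith
    have hkT : T < W * m + ν' + h := by omega
    have hBT : B ≤ T := Nat.le_ceil _
    by_cases hcop : Nat.Coprime (ν + h) W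
    · have hhJ : h ∈ J := by
        rw [hJ, mem_filter, mem_Icc]; exact ⟨⟨hh1, hh2⟩, hcop⟩
      obtain ⟨p, hp, _, hpB, hpd⟩ := hmJ h hhJ
      refine ⟨p, hp, ?_, hpd, hpB⟩
      have : (p : ℝ) < ((W * m + ν' + h : ℕ) : ℝ) := by
        calc (p : ℝ) ≤ B := hpB
          _ ≤ T := hBT
          _ < _ := by exact_mod_cast hkT
      exact_mod_cast this
    · rw [Nat.Prime.not_coprime_iff_dvd] at hcop
      obtain ⟨p, hp, hp1, hp2⟩ := hcop
      have hple : p ≤ ⌊x / 10⌋₊ := dvd_prim hp hp2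
      have hpB : (p : ℝ) ≤ B :=
        ((Nat.cast_le.mpr hple).trans (Nat.floor_le (by positivity))).trans hsm
      refine ⟨p, hp, ?_, ?_, hpB⟩
      · have : (p : ℝ) < ((W * m + ν' + h : ℕ) : ℝ) := by
          calc (p : ℝ) ≤ B := hpB
            _ ≤ T := hBT
            _ < _ := by exact_mod_cast hkT
        exact_mod_cast this
      · have h1 : p ∣ ν % W + h := by
          have h2 : ν + h = W * (ν / W) + (ν % W + h) := by
            have := Nat.div_add_mod ν W
            omega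
          rw [h2] at hp1
          exact (Nat.dvd_add_right (dvd_mul_of_dvd_left hp2 _)).mp hp1
        have h3 : W * m + ν' + h = W * (m + t) + (ν % W + h) := by
          rw [hν']; ring
        rw [h3]
        exact dvd_add (dvd_mul_of_dvd_left hp2 _) h1

end Pool.Agent.H.MP_711652_nt.LG
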