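import Pool.Agent.H.MP_711652_nt.LG.Defs

set_option autoImplicit false

namespace Pool.Agent.H.MP_711652_nt.LG

open Finset

variable {ι : Type*} [Fintype ι] [DecidableEq ι]

theorem diag1_prod_ite {M : Type*} [CommMonoid M] (t : Option ι) (a : M) :
    (∏ i : ι, if t = some i then a else 1) = if t = none then 1 else a := by
  cases t with
  | none => simp
  | some j =>
    have h1 : ∀ i : ι, (some j = some i) = (j = i) := fun i => by simp
    simp only [h1]
    rw [Finset.prod_ite_eq]
    simp

theorem DD_eq_prod_rr (P : Finset ℕ) (σ : P → Option ι) : DD P σ = ∏ i, rr P σ i := by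
  unfold DD rr
  rw [Finset.prod_comm]
  exact Finset.prod_congr rfl fun p _ => (diag1_prod_ite (σ p) (p : ℕ)).symm

omit [Fintype ι] in
theorem diag1_totient (P : Finset ℕ) (hP : ∀ p ∈ P, p.Prime) (σ : P → Option ι) (i : ι)
    (s : Finset P) :
    (Nat.totient (∏ p ∈ s, if σ p = some i then (p : ℕ) else 1) : ℝ) =
      ∏ p ∈ s, if σ p = some i then ((p : ℕ) : ℝ) - 1 else 1 := by
  classical
  induction s using Finset.induction_on with
  | empty => simp
  | insert a s ha ih =>
    rw [Finset.prod_insert ha, Finset.prod_insert ha, ← ih]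
    have hco : Nat.Coprime (if σ a = some i then (a : ℕ) else 1)
        (∏ p ∈ s, if σ p = some i then (p : ℕ) else 1) := by
      refine Nat.Coprime.prod_right fun p hp => ?_
      by_cases h1 : σ a = some i
      · by_cases h2 : σ p = some i
        · rw [if_pos h1, if_pos h2]
          refine (Nat.coprime_primes (hP a a.2) (hP p p.2)).2 fun h => ?_
          have h3 : a = p := Subtype.ext h
          exact ha (h3 ▸ hp)
        · rw [if_neg h2]
          exact Nat.coprime_one_right _
      · rw [if_neg h1]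
        exact Nat.coprime_one_left _
    rw [Nat.totient_mul hco, Nat.cast_mul]
    congr 1
    by_cases h1 : σ a = some i
    · rw [if_pos h1, if_pos h1, Nat.totient_prime (hP a a.2),
        Nat.cast_sub (hP a a.2).one_le, Nat.cast_one]
    · rw [if_neg h1, if_neg h1, Nat.totient_one, Nat.cast_one]

theorem ph_eq_prod (P : Finset ℕ) (hP : ∀ p ∈ P, p.Prime) (σ : P → Option ι) :
    ph P σ = ∏ i, (Nat.totient (rr P σ i) : ℝ) := by
  have h1 : ∀ i, (Nat.totient (rr P σ i) : ℝ) =
      ∏ p : P, if σ p = some i then ((p : ℕ) : ℝ) - 1 else 1 := fun i =>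
    diag1_totient P hP σ i Finset.univ
  simp only [h1]
  unfold ph
  rw [Finset.prod_comm]
  exact Finset.prod_congr rfl fun p _ => (diag1_prod_ite (σ p) (((p : ℕ) : ℝ) - 1)).symm

/-- the diagonal sum as an `SS` -/
theorem diag_eq (P : Finset ℕ) (hP : ∀ p ∈ P, p.Prime) (chi : ι → ℕ → ℝ) (Y : ℕ) :
    ∑ σ : P → Option ι, cf P chi Y σ ^ 2 * ph P σ =
      SS P Y (fun i n => chi i n ^ 2 * (Nat.totient n : ℝ)) := by
  unfold SS
  refine Finset.sum_congr rfl fun σ _ => ?_
  unfold cf
  by_cases h : DD P σ ≤ Y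
  · rw [if_pos h, if_pos h, ph_eq_prod P hP σ, ← Finset.prod_pow, ← Finset.prod_mul_distrib]
  · rw [if_neg h, if_neg h]
    ring

theorem diag1_ph_nonneg (P : Finset ℕ) (hP : ∀ p ∈ P, p.Prime) (σ : P → Option ι) :
    0 ≤ ph P σ := by
  rw [ph_eq_prod P hP σ]
  exact Finset.prod_nonneg fun i _ => Nat.cast_nonneg _

/-- the assignment `none` contributes 1 -/
theorem one_le_diag (P : Finset ℕ) (hP : ∀ p ∈ P, p.Prime) (chi : ι → ℕ → ℝ) (h1 : ∀ i, chi i 1 = 1)
    (Y : ℕ) (hY : 1 ≤ Y) : 1 ≤ ∑ σ : P → Option ι, cf P chi Y σ ^ 2 * ph P σ := by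
  have h2 : cf P chi Y (fun _ => (none : Option ι)) ^ 2 * ph P (fun _ => (none : Option ι)) = 1 := by
    have h3 : DD P (fun _ => (none : Option ι)) = 1 := by
      unfold DD
      simp
    have h4 : ∀ i, rr P (fun _ => (none : Option ι)) i = 1 := by
      intro i
      unfold rr
      simp
    have h5 : ph P (fun _ => (none : Option ι)) = 1 := by
      unfold ph
      simp
    unfold cf
    rw [h3, if_pos hY, h5]
    simp only [h4, h1]
    simp
  rw [← h2]
  exact Finset.single_le_sum
    (f := fun σ : P → Option ι => cf P chi Y σ ^ 2 * ph P σ)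
    (fun σ _ => mul_nonneg (sq_nonneg _) (diag1_ph_nonneg P hP σ)) (Finset.mem_univ _)

end Pool.Agent.H.MP_711652_nt.LG
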