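import Mathlib
import Pool.Agent.H.MP_711652_nt.LG.Stmt
import Pool.Agent.H.MP_711652_nt.LG.Asm

/-!
# `Local` implies `Full`
-/

set_option autoImplicit false

namespace Pool.Agent.H.MP_711652_nt.LG

open Filter Finset

theorem log_lower_ev (f : ℝ → ℝ) (hf : Tendsto f atTop atTop) (a : ℝ) :
    ∀ᶠ x : ℝ in atTop, 15 / 16 * f x ≤ f x + a := by
  filter_upwards [hf.eventually_ge_atTop (-16 * a)] with x hx
  linarith

theorem GG_scale_ev (θ : ℝ) (h0 : 0 < θ) (h1 : θ ≤ 1) :
    ∀ᶠ x : ℝ in atTop, 3 / 4 * θ * GG x ≤ GG (θ * x) := by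
  have t1 := log_lower_ev _ Real.tendsto_log_atTop (Real.log θ)
  have t2 := log_lower_ev _ tendsto_log2 (Real.log (15 / 16))
  have t3 := log_lower_ev _ tendsto_log3 (Real.log (15 / 16))
  filter_upwards [t1, t2, t3, eventually_ge_atTop (1 : ℝ),
    Real.tendsto_log_atTop.eventually_ge_atTop 16, tendsto_log2.eventually_ge_atTop 16,
    tendsto_log3.eventually_ge_atTop 16] with x t1 t2 t3 hx l1 l2 l3
  have hx0 : (0 : ℝ) < x := by linarith
  have e1 : Real.log (θ * x) = Real.log x + Real.log θ := by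
    rw [Real.log_mul h0.ne' hx0.ne']; ring
  have a1 : 15 / 16 * Real.log x ≤ Real.log (θ * x) := by rw [e1]; exact t1
  have a1p : 0 < Real.log (θ * x) := by linarith
  have b2 : Real.log (Real.log (θ * x)) ≤ Real.log (Real.log x) := by
    apply Real.log_le_log a1p
    exact Real.log_le_log (by positivity) (by nlinarith)
  have a2 : 15 / 16 * Real.log (Real.log x) ≤ Real.log (Real.log (θ * x)) := by
    calc 15 / 16 * Real.log (Real.log x) ≤ Real.log (Real.log x) + Real.log (15 / 16) := t2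
      _ = Real.log (15 / 16 * Real.log x) := by
        rw [Real.log_mul (by norm_num) (by linarith)]; ring
      _ ≤ _ := Real.log_le_log (by linarith) a1
  have a2p : 0 < Real.log (Real.log (θ * x)) := by linarith
  have a3 : 15 / 16 * Real.log (Real.log (Real.log x)) ≤ Real.log (Real.log (Real.log (θ * x))) := by
    calc 15 / 16 * Real.log (Real.log (Real.log x))
        ≤ Real.log (Real.log (Real.log x)) + Real.log (15 / 16) := t3
      _ = Real.log (15 / 16 * Real.log (Real.log x)) := by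
        rw [Real.log_mul (by norm_num) (by linarith)]; ring
      _ ≤ _ := Real.log_le_log (by linarith) a2
  unfold GG
  have l1p : 0 < Real.log x := by linarith
  have l2p : 0 < Real.log (Real.log x) := by linarith
  have l3p : 0 < Real.log (Real.log (Real.log x)) := by linarith
  calc 3 / 4 * θ * (x * Real.log x ^ 2 * Real.log (Real.log (Real.log x)) /
        Real.log (Real.log x) ^ 2)
      ≤ (15 / 16) ^ 3 * θ * (x * Real.log x ^ 2 * Real.log (Real.log (Real.log x)) /
        Real.log (Real.log x) ^ 2) := by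
        gcongr; norm_num
    _ = θ * x * (15 / 16 * Real.log x) ^ 2 * (15 / 16 * Real.log (Real.log (Real.log x))) /
        Real.log (Real.log x) ^ 2 := by ring
    _ ≤ θ * x * Real.log (θ * x) ^ 2 * Real.log (Real.log (Real.log (θ * x))) /
        Real.log (Real.log x) ^ 2 := by gcongr
    _ ≤ θ * x * Real.log (θ * x) ^ 2 * Real.log (Real.log (Real.log (θ * x))) /
        Real.log (Real.log (θ * x)) ^ 2 := by
        have a3p : 0 < Real.log (Real.log (Real.log (θ * x))) := by linarith
        gcongr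

theorem GG_tendsto : Tendsto GG atTop atTop := by
  refine tendsto_atTop_mono' atTop ?_ tendsto_id
  filter_upwards [eventually_ge_atTop (1 : ℝ), tendsto_log2.eventually_ge_atTop 1,
    Real.tendsto_log_atTop.eventually_ge_atTop 1, tendsto_log3.eventually_ge_atTop 1]
    with x hx l2 l1 l3
  have hx0 : (0 : ℝ) < x := by linarith
  have h : Real.log (Real.log x) ≤ Real.log x :=
    (Real.log_le_sub_one_of_pos (by linarith)).trans (by linarith)
  show x ≤ GG x
  unfold GG
  rw [le_div_iff₀ (by positivity)]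
  have h2 : Real.log (Real.log x) ^ 2 ≤ Real.log x ^ 2 := by gcongr
  calc x * Real.log (Real.log x) ^ 2 ≤ x * Real.log x ^ 2 := by gcongr
    _ = x * Real.log x ^ 2 * 1 := by ring
    _ ≤ x * Real.log x ^ 2 * Real.log (Real.log (Real.log x)) := by gcongr

theorem full_of (h : Local) : Full := by
  obtain ⟨c, hc, H₀, h⟩ := h
  refine ⟨c / 2, by positivity, fun θ hθ hθ1 => ?_⟩
  have hlog : Tendsto (fun X : ℝ => Real.log X) atTop atTop := Real.tendsto_log_atTop
  have hpow : Tendsto (fun X : ℝ => X ^ θ) atTop atTop := tendsto_rpow_atTop hθ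
  have hev : ∀ᶠ X : ℝ in atTop, 2 ≤ X ∧ H₀ ≤ X ^ θ ∧
      3 / 4 * θ * GG (Real.log X) ≤ GG (θ * Real.log X) ∧ 4 / (c * θ) ≤ GG (Real.log X) := by
    filter_upwards [eventually_ge_atTop 2, hpow.eventually_ge_atTop H₀,
      hlog.eventually (GG_scale_ev θ hθ hθ1),
      hlog.eventually (GG_tendsto.eventually_ge_atTop (4 / (c * θ)))] with X h1 h2 h3 h4
    exact ⟨h1, h2, h3, h4⟩
  obtain ⟨X₀, hX₀⟩ := eventually_atTop.mp hev
  refine ⟨X₀, fun X hX => ?_⟩
  obtain ⟨hX2, hH, hscale, hbig⟩ := hX₀ X hX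
  have hXpos : 0 < X := by linarith
  obtain ⟨n, hyn, hnH, hrun⟩ := h (X ^ θ) hH ⌈X⌉₊
  have hFF : FF (X ^ θ) = GG (θ * Real.log X) := by
    rw [FF_eq, Real.log_rpow hXpos]
  have hell : Real.log X * Real.log (Real.log X) ^ 2 *
        Real.log (Real.log (Real.log (Real.log X))) / Real.log (Real.log (Real.log X)) ^ 2 =
      GG (Real.log X) := rfl
  rw [hell]
  set G := GG (Real.log X) with hG
  have hXn : X ≤ n := (Nat.le_ceil X).trans (by exact_mod_cast hyn)
  have hceil : (⌈X⌉₊ : ℝ) ≤ X + 1 := (Nat.ceil_lt_add_one hXpos.le).le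
  have hbig' : 4 ≤ c * θ * G := by
    rw [div_le_iff₀ (by positivity)] at hbig
    linarith
  have hL : c / 2 * θ * G + 1 ≤ c * FF (X ^ θ) := by
    rw [hFF]
    nlinarith
  have hn2 : 2 ≤ n := by
    have : (2 : ℝ) ≤ n := hX2.trans hXn
    exact_mod_cast this
  have hC : 1 ≤ Nat.count Nat.Prime (n + 1) := by
    have h1 : Nat.count Nat.Prime 3 ≤ Nat.count Nat.Prime (n + 1) :=
      Nat.count_monotone _ (by omega)
    have h2 : Nat.count Nat.Prime 3 = 1 := by
      simp [Nat.count_succ]
      decide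
    omega
  have hinf : (Set.ofPred Nat.Prime).Infinite := Nat.infinite_setOfPred_prime
  refine ⟨Nat.count Nat.Prime (n + 1) - 1, ?_⟩
  have hk : Nat.nth Nat.Prime (Nat.count Nat.Prime (n + 1) - 1) ≤ n := by
    have : Nat.nth Nat.Prime (Nat.count Nat.Prime (n + 1) - 1) < n + 1 :=
      Nat.nth_lt_of_lt_count (by omega)
    omega
  have hk1 : Nat.count Nat.Prime (n + 1) - 1 + 1 = Nat.count Nat.Prime (n + 1) := by omega
  rw [hk1]
  set q := Nat.nth Nat.Prime (Nat.count Nat.Prime (n + 1)) with hq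
  have hqp : q.Prime := Nat.prime_nth_prime _
  have hqn : n + 1 ≤ q := by
    rw [hq]
    exact (Nat.gc_count_nth hinf).le_u_l (n + 1)
  have hqbig : (n : ℝ) + c * FF (X ^ θ) < q := by
    by_contra hcon
    push Not at hcon
    obtain ⟨p, hp, hpq, hpd, _⟩ := hrun q (by omega) hcon
    have := (Nat.prime_dvd_prime_iff_eq hp hqp).mp hpd
    omega
  have hmax : max (Nat.nth Nat.Prime (Nat.count Nat.Prime (n + 1) - 1) : ℝ) X ≤ n :=
    max_le (by exact_mod_cast hk) hXn
  refine le_min ?_ ?_ <;> linarith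

end Pool.Agent.H.MP_711652_nt.LG
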