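import Pool.Agent.H.MP_711652_nt.LG.Defs

set_option autoImplicit false

namespace Pool.Agent.H.MP_711652_nt.LG

open Finset

variable {ι : Type*} [Fintype ι] [DecidableEq ι]

private theorem gram1_factor (p : ℕ) (hp : p.Prime) (s : Option ι) :
    ∑ t : Option ι, |kap p s t| =
      (if s = none then (1 : ℝ) else (p : ℝ) - 1) *
        (if s = none then (1 : ℝ) else 1 + ((Fintype.card ι : ℝ) - 1) / ((p : ℝ) - 1)) := by
  have hp1 : (1 : ℝ) < p := by exact_mod_cast hp.one_lt
  have hp0 : (p : ℝ) - 1 ≠ 0 := by linarith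
  rw [Fintype.sum_option]
  cases s with
  | none => simp [kap]
  | some i =>
    have h1 : ∑ j : ι, |kap p (some i) (some j)| =
        ∑ j : ι, ((if j = i then (p : ℝ) - 2 else 0) + 1) := by
      refine Finset.sum_congr rfl fun j _ => ?_
      by_cases h : j = i
      · subst h
        simp only [kap, if_true, reduceCtorEq, if_false]
        rw [abs_of_nonneg (by linarith)]
        ring
      · have h' : ¬ (some i : Option ι) = some j := fun e => h (Option.some.inj e).symm
        simp [kap, h, h']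
    have h2 : |kap p (some i) (none : Option ι)| = 0 := by simp [kap]
    rw [h1, h2, Finset.sum_add_distrib, Finset.sum_ite_eq' Finset.univ i]
    simp only [Finset.mem_univ, if_true, Finset.sum_const, Finset.card_univ, nsmul_eq_mul, mul_one,
      reduceCtorEq, if_false]
    field_simp
    ring

/-- PROOF. `∑_τ |KK σ τ| = ∏_p ∑_{t : Option ι} |kap p (σ p) t|` (`Finset.prod_univ_sum`), and the factor is
`1` if `σ p = none` and `(p - 1) + (R - 1) = (p - 1)(1 + (R - 1)/(p - 1))` otherwise, `R = card ι`. -/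
theorem sum_abs_KK (P : Finset ℕ) (hP : ∀ p ∈ P, p.Prime) (σ : P → Option ι) :
    ∑ τ : P → Option ι, |KK P σ τ| =
      ph P σ * ∏ p : P, if σ p = none then (1 : ℝ)
        else 1 + ((Fintype.card ι : ℝ) - 1) / (((p : ℕ) : ℝ) - 1) := by
  have h1 : ∑ τ : P → Option ι, |KK P σ τ| =
      ∏ p : P, ∑ t : Option ι, |kap (p : ℕ) (σ p) t| := by
    rw [Finset.prod_univ_sum]
    simp only [Fintype.piFinset_univ]
    refine Finset.sum_congr rfl fun τ _ => ?_
    rw [KK, Finset.abs_prod]
  rw [h1, ph, ← Finset.prod_mul_distrib]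
  exact Finset.prod_congr rfl fun p _ => gram1_factor (p : ℕ) (hP p p.2) (σ p)

/-- `KK` is symmetric. -/
theorem KK_symm (P : Finset ℕ) (σ τ : P → Option ι) : KK P σ τ = KK P τ σ := by
  unfold KK
  refine Finset.prod_congr rfl fun p _ => ?_
  by_cases h : σ p = τ p
  · rw [h]
  · have h' : ¬ τ p = σ p := fun e => h e.symm
    simp only [kap, if_neg h, if_neg h']
    by_cases h1 : σ p = none <;> by_cases h2 : τ p = none <;> simp [h1, h2]

/-- the diagonal -/
theorem KK_self (P : Finset ℕ) (σ : P → Option ι) : KK P σ σ = ph P σ := by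
  unfold KK ph
  exact Finset.prod_congr rfl fun p _ => by simp [kap]

theorem ph_nonneg (P : Finset ℕ) (hP : ∀ p ∈ P, p.Prime) (σ : P → Option ι) : 0 ≤ ph P σ := by
  unfold ph
  refine Finset.prod_nonneg fun p _ => ?_
  have hp1 : (1 : ℝ) < ((p : ℕ) : ℝ) := by exact_mod_cast (hP p p.2).one_lt
  split_ifs
  · exact zero_le_one
  · linarith

end Pool.Agent.H.MP_711652_nt.LG
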