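import Mathlib

/-!
# Greedy choice of residue classes

For a finite set `S` of positions and a finite set `A` of primes one can choose a shift `ν`
(in a prescribed residue class modulo a number `Q` coprime to the primes of `A`) such that at most
`#S * ∏ (1 - 1 / p)` of the numbers `ν + h`, `h ∈ S`, have no prime factor in `A`.
-/

set_option autoImplicit false

open Finset

namespace Pool.MP711652.LG

theorem greedy_step (S : Finset ℕ) {p M ν : ℕ} (hp : p.Prime) (hM : Nat.Coprime p M) :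
    ∃ j : ℕ, ((#{h ∈ S | ¬ p ∣ ν + j * M + h} : ℕ) : ℝ) ≤ #S * (1 - 1 / (p : ℝ)) := by
  classical
  have hp0 : (0 : ℝ) < p := by exact_mod_cast hp.pos
  -- each `h` is killed by exactly one `j < p`
  have hkill : ∀ h ∈ S, 1 ≤ #{j ∈ range p | p ∣ ν + j * M + h} := by
    intro h _
    rw [Nat.one_le_iff_ne_zero, Finset.card_ne_zero]
    -- solve `j * M ≡ -(ν + h) mod p`
    obtain ⟨u, hu⟩ : ∃ u : ℕ, M * u ≡ 1 [MOD p] := by
      obtain ⟨u, hu⟩ := Nat.exists_mul_mod_eq_one_of_coprime hM.symm hp.one_lt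
      exact ⟨u, by rw [Nat.ModEq, hu.2, Nat.mod_eq_of_lt hp.one_lt]⟩
    refine ⟨((p - 1) * (ν + h) * u) % p, ?_⟩
    rw [mem_filter, mem_range]
    refine ⟨Nat.mod_lt _ hp.pos, ?_⟩
    rw [← Nat.modEq_zero_iff_dvd]
    have h1 : ((p - 1) * (ν + h) * u) % p * M ≡ (p - 1) * (ν + h) [MOD p] := by
      calc ((p - 1) * (ν + h) * u) % p * M ≡ ((p - 1) * (ν + h) * u) * M [MOD p] :=
            (Nat.mod_modEq _ _).mul_right _
        _ = (p - 1) * (ν + h) * (M * u) := by ring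
        _ ≡ (p - 1) * (ν + h) * 1 [MOD p] := hu.mul_left _
        _ = (p - 1) * (ν + h) := by ring
    calc ν + ((p - 1) * (ν + h) * u) % p * M + h ≡ ν + (p - 1) * (ν + h) + h [MOD p] :=
          (h1.add_left _).add_right _
      _ = p * (ν + h) := by
          obtain ⟨q, rfl⟩ : ∃ q, p = q + 1 := ⟨p - 1, by have := hp.pos; omega⟩
          simp only [Nat.add_sub_cancel]
          ring
      _ ≡ 0 [MOD p] := (Nat.modEq_zero_iff_dvd).2 ⟨_, rfl⟩
  -- average over `j`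
  have hsum : ∑ j ∈ range p, ((#{h ∈ S | ¬ p ∣ ν + j * M + h} : ℕ) : ℝ) ≤
      (p : ℝ) * (#S * (1 - 1 / (p : ℝ))) := by
    have e1 : ∀ j, ((#{h ∈ S | ¬ p ∣ ν + j * M + h} : ℕ) : ℝ) =
        #S - ((#{h ∈ S | p ∣ ν + j * M + h} : ℕ) : ℝ) := by
      intro j
      have := Finset.card_filter_add_card_filter_not (s := S) (fun h => p ∣ ν + j * M + h)
      have h2 : ((#{h ∈ S | p ∣ ν + j * M + h} : ℕ) : ℝ) +
          ((#{h ∈ S | ¬ p ∣ ν + j * M + h} : ℕ) : ℝ) = #S := by exact_mod_cast this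
      linarith
    simp_rw [e1]
    rw [sum_sub_distrib, sum_const, card_range, nsmul_eq_mul]
    have e2 : (#S : ℝ) ≤ ∑ j ∈ range p, ((#{h ∈ S | p ∣ ν + j * M + h} : ℕ) : ℝ) := by
      have e3 : ∑ j ∈ range p, #{h ∈ S | p ∣ ν + j * M + h} =
          ∑ h ∈ S, #{j ∈ range p | p ∣ ν + j * M + h} := by
        simp_rw [card_filter]
        exact sum_comm
      have e4 : #S ≤ ∑ j ∈ range p, #{h ∈ S | p ∣ ν + j * M + h} := by
        rw [e3, card_eq_sum_ones]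
        exact sum_le_sum hkill
      exact_mod_cast e4
    have e5 : (p : ℝ) * (#S * (1 - 1 / (p : ℝ))) = p * #S - #S := by
      field_simp
    rw [e5]
    linarith
  by_contra hcon
  push Not at hcon
  have : ∑ j ∈ range p, (#S * (1 - 1 / (p : ℝ)) : ℝ) <
      ∑ j ∈ range p, ((#{h ∈ S | ¬ p ∣ ν + j * M + h} : ℕ) : ℝ) :=
    sum_lt_sum_of_nonempty ⟨0, mem_range.2 hp.pos⟩ (fun j _ => hcon j)
  rw [sum_const, card_range, nsmul_eq_mul] at this
  linarith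

/-- greedy choice -/
theorem greedy (S : Finset ℕ) (A : Finset ℕ) (hA : ∀ p ∈ A, p.Prime) (Q : ℕ)
    (hQ : ∀ p ∈ A, Nat.Coprime p Q) (ν0 : ℕ) :
    ∃ ν : ℕ, ν ≡ ν0 [MOD Q] ∧
      ((#{h ∈ S | ∀ p ∈ A, ¬ p ∣ ν + h} : ℕ) : ℝ) ≤ #S * ∏ p ∈ A, (1 - 1 / (p : ℝ)) := by
  classical
  induction A using Finset.induction_on with
  | empty => exact ⟨ν0, Nat.ModEq.refl _, by simp⟩
  | insert q A hq ih =>
    obtain ⟨ν, h1, h2⟩ := ih (fun p hp => hA p (mem_insert_of_mem hp))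
      (fun p hp => hQ p (mem_insert_of_mem hp))
    have hqp : q.Prime := hA q (mem_insert_self _ _)
    have hM : Nat.Coprime q (Q * ∏ p ∈ A, p) := by
      refine Nat.Coprime.mul_right (hQ q (mem_insert_self _ _)) ?_
      refine Nat.Coprime.prod_right fun p hp => ?_
      exact (Nat.coprime_primes hqp (hA p (mem_insert_of_mem hp))).2 (by rintro rfl; exact hq hp)
    obtain ⟨j, hj⟩ := greedy_step ({h ∈ S | ∀ p ∈ A, ¬ p ∣ ν + h}) (ν := ν) hqp hM
    refine ⟨ν + j * (Q * ∏ p ∈ A, p), ?_, ?_⟩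
    · have : j * (Q * ∏ p ∈ A, p) ≡ 0 [MOD Q] := by
        rw [Nat.modEq_zero_iff_dvd]
        exact ⟨j * ∏ p ∈ A, p, by ring⟩
      simpa using h1.add this
    · have hsub : ({h ∈ S | ∀ p ∈ insert q A, ¬ p ∣ ν + j * (Q * ∏ p ∈ A, p) + h} : Finset ℕ) ⊆
          {h ∈ ({h ∈ S | ∀ p ∈ A, ¬ p ∣ ν + h} : Finset ℕ) |
            ¬ q ∣ ν + j * (Q * ∏ p ∈ A, p) + h} := by
        intro h hh
        rw [mem_filter] at hh
        rw [mem_filter, mem_filter]
        refine ⟨⟨hh.1, fun p hp hdvd => ?_⟩, hh.2 q (mem_insert_self _ _)⟩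
        apply hh.2 p (mem_insert_of_mem hp)
        have h3 : p ∣ j * (Q * ∏ p ∈ A, p) :=
          Dvd.dvd.mul_left (Dvd.dvd.mul_left (dvd_prod_of_mem _ hp) _) _
        have : ν + j * (Q * ∏ p ∈ A, p) + h = (ν + h) + j * (Q * ∏ p ∈ A, p) := by ring
        rw [this]
        exact dvd_add hdvd h3
      have hc : ((#{h ∈ S | ∀ p ∈ insert q A, ¬ p ∣ ν + j * (Q * ∏ p ∈ A, p) + h} : ℕ) : ℝ) ≤
          ((#{h ∈ ({h ∈ S | ∀ p ∈ A, ¬ p ∣ ν + h} : Finset ℕ) |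
            ¬ q ∣ ν + j * (Q * ∏ p ∈ A, p) + h} : ℕ) : ℝ) := by
        exact_mod_cast card_le_card hsub
      refine hc.trans (hj.trans ?_)
      rw [prod_insert hq]
      have hq1 : (0 : ℝ) ≤ 1 - 1 / (q : ℝ) := by
        have : (1 : ℝ) / q ≤ 1 := by
          rw [div_le_one (by exact_mod_cast hqp.pos)]
          exact_mod_cast hqp.one_lt.le
        linarith
      calc ((#{h ∈ S | ∀ p ∈ A, ¬ p ∣ ν + h} : ℕ) : ℝ) * (1 - 1 / (q : ℝ)) ≤
            (#S * ∏ p ∈ A, (1 - 1 / (p : ℝ))) * (1 - 1 / (q : ℝ)) :=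
              mul_le_mul_of_nonneg_right h2 hq1
        _ = _ := by ring

/-- a prime divides the primorial of `D` exactly when it is at most `D` -/
theorem prime_dvd_primorial {p D : ℕ} (hp : p.Prime) : p ∣ primorial D ↔ p ≤ D := by
  unfold primorial
  constructor
  · intro h
    rw [Prime.dvd_finsetProd_iff hp.prime] at h
    obtain ⟨q, hq, hpq⟩ := h
    rw [mem_filter, mem_range] at hq
    have := (Nat.prime_dvd_prime_iff_eq hp hq.2).1 hpq
    omega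
  · intro h
    exact dvd_prod_of_mem (fun q => q) (mem_filter.2 ⟨mem_range.2 (by omega), hp⟩)

/-- The Erdős-Rankin choice of residues: `ν = 0` for the primes in `(z, D]`, greedy for the primes
up to `z`. -/
theorem greedy_primorial (A : Finset ℕ) {z D : ℕ} (hzD : z ≤ D) :
    ∃ ν : ℕ, (∀ p : ℕ, p.Prime → z < p → p ≤ D → p ∣ ν) ∧
      ((#{h ∈ A | Nat.Coprime (ν + h) (primorial D)} : ℕ) : ℝ) ≤
        (∏ p ∈ (Icc 1 z).filter Nat.Prime, (1 - 1 / (p : ℝ))) *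
          ((#{h ∈ A | ∀ p ∈ (Ioc z D).filter Nat.Prime, ¬ p ∣ h} : ℕ) : ℝ) := by
  classical
  set P1 : Finset ℕ := (Icc 1 z).filter Nat.Prime with hP1
  set P2 : Finset ℕ := (Ioc z D).filter Nat.Prime with hP2
  obtain ⟨ν, h1, h2⟩ := greedy ({h ∈ A | ∀ p ∈ P2, ¬ p ∣ h}) P1
    (fun p hp => (mem_filter.1 hp).2) (∏ q ∈ P2, q) (fun p hp => by
      rw [hP1, mem_filter, mem_Icc] at hp
      refine Nat.Coprime.prod_right fun q hq => ?_
      rw [hP2, mem_filter, mem_Ioc] at hq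
      exact (Nat.coprime_primes hp.2 hq.2).2 (by omega)) 0
  have hν : ∀ p ∈ P2, p ∣ ν := fun p hp =>
    (dvd_prod_of_mem (fun q => q) hp).trans ((Nat.modEq_zero_iff_dvd).1 h1)
  refine ⟨ν, fun p hp hz hD => hν p (mem_filter.2 ⟨mem_Ioc.2 ⟨hz, hD⟩, hp⟩), ?_⟩
  rw [mul_comm]
  refine le_trans ?_ h2
  have hsub : ({h ∈ A | Nat.Coprime (ν + h) (primorial D)} : Finset ℕ) ⊆
      {h ∈ ({h ∈ A | ∀ p ∈ P2, ¬ p ∣ h} : Finset ℕ) | ∀ p ∈ P1, ¬ p ∣ ν + h} := by
    intro h hh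
    rw [mem_filter] at hh
    rw [mem_filter, mem_filter]
    have key : ∀ p : ℕ, p.Prime → p ≤ D → ¬ p ∣ ν + h := by
      intro p hp hpD hdvd
      exact hp.not_dvd_one
        (hh.2 ▸ Nat.dvd_gcd hdvd ((prime_dvd_primorial hp).2 hpD))
    refine ⟨⟨hh.1, fun p hp hdvd => ?_⟩, fun p hp => ?_⟩
    · have hp' := hp
      rw [hP2, mem_filter, mem_Ioc] at hp'
      exact key p hp'.2 hp'.1.2 (dvd_add (hν p hp) hdvd)
    · rw [hP1, mem_filter, mem_Icc] at hp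
      exact key p hp.2 (by omega)
  exact_mod_cast card_le_card hsub

end Pool.MP711652.LG
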