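import Pool.Agent.H.MP_711652_nt.LG.MLA
import Pool.Agent.H.MP_711652_nt.LG.Abs
import Pool.Agent.H.MP_711652_nt.LG.Stmt

/-!
# Main Lemma, part B: the Main Lemma from the abstract lemma and the bound `S1 ≥ s₀`
-/

set_option autoImplicit false

namespace Pool.Agent.H.MP_711652_nt.LG

open Finset

/-- upper end of the range of primes -/
noncomputable def BB (x : ℝ) : ℕ := ⌊Real.exp (x / (200 * Real.log x))⌋₊

/-- the primes in `(x ^ 6, B]` -/
noncomputable def PP (x : ℝ) : Finset ℕ := by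
  classical
  exact (Finset.range (BB x + 1)).filter (fun p => p.Prime ∧ x ^ 6 < (p : ℝ))

theorem mem_PP {x : ℝ} {p : ℕ} : p ∈ PP x ↔ p ≤ BB x ∧ p.Prime ∧ x ^ 6 < (p : ℝ) := by
  classical
  simp only [PP, mem_filter, mem_range, Nat.lt_succ_iff]

/-- the one analytic input -/
def S1Bound : Prop :=
  ∃ s₀ : ℝ, 0 < s₀ ∧ ∃ x₀ : ℝ, ∀ x : ℝ, x₀ ≤ x → s₀ ≤ S1 (PP x) (BB x)

theorem mlb_h4 {x R : ℝ} (hx10 : 10000 ≤ x) (hR0 : 0 ≤ R) (hRx : R ≤ x) :
    R * (Real.exp 1 / x ^ 5 + (4 / x ^ 5) ^ 2 + 4 / x ^ 4) + 4 / x ^ 4 ≤ 1 / 2 := by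
  have hx0 : (0:ℝ) < x := by linarith
  have hx1 : (1:ℝ) ≤ x := by linarith
  have hexp1 : Real.exp 1 ≤ 3 := by
    have := Real.exp_one_lt_d9
    linarith
  have hmul : R * (Real.exp 1 / x ^ 5 + (4 / x ^ 5) ^ 2 + 4 / x ^ 4) ≤
      x * (Real.exp 1 / x ^ 5 + (4 / x ^ 5) ^ 2 + 4 / x ^ 4) :=
    mul_le_mul_of_nonneg_right hRx (by positivity)
  have heq : x * (Real.exp 1 / x ^ 5 + (4 / x ^ 5) ^ 2 + 4 / x ^ 4) =
      Real.exp 1 / x ^ 4 + 16 / x ^ 9 + 4 / x ^ 3 := by
    field_simp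
    ring
  have hb : ∀ (a : ℝ) (n : ℕ), 0 ≤ a → n ≠ 0 → a / x ^ n ≤ a / x := by
    intro a n ha hn
    exact div_le_div_of_nonneg_left ha hx0 (le_self_pow₀ hx1 hn)
  have h1 := hb (Real.exp 1) 4 (Real.exp_pos _).le (by norm_num)
  have h2 := hb 16 9 (by norm_num) (by norm_num)
  have h3 := hb 4 3 (by norm_num) (by norm_num)
  have h4 := hb 4 4 (by norm_num) (by norm_num)
  have h5 : Real.exp 1 / x ≤ 3 / x := div_le_div_of_nonneg_right hexp1 hx0.le
  have h6 : 3 / x + 16 / x + 4 / x + 4 / x = 27 / x := by ring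
  have h7 : 27 / x ≤ 1 / 2 := by
    rw [div_le_iff₀ hx0]
    linarith
  linarith

theorem mlb_h5 {x R Y : ℝ} {n : ℕ} (hx10 : 10000 ≤ x) (hR0 : 0 ≤ R) (hR100 : R ≤ x / 100)
    (hn : (n : ℝ) = R) (hY0 : 0 ≤ Y) (hYle : Y ≤ Real.exp (x / 20)) :
    8 * (R + 1) * Y ^ 4 * 4 ^ n ≤ Real.exp (x / 2) / 2 := by
  have h1 : Y ^ 4 ≤ Real.exp (x / 5) := by
    have h2 : Real.exp (x / 5) = Real.exp (x / 20) ^ 4 := by
      rw [← Real.exp_nat_mul]
      congr 1
      push_cast
      ring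
    rw [h2]
    exact pow_le_pow_left₀ hY0 hYle 4
  have h3 : (4:ℝ) ^ n ≤ Real.exp (x / 50) := by
    have h4 : (4:ℝ) ≤ Real.exp 2 := by
      have := Real.quadratic_le_exp_of_nonneg (show (0:ℝ) ≤ 2 by norm_num)
      linarith
    calc (4:ℝ) ^ n ≤ Real.exp 2 ^ n := pow_le_pow_left₀ (by norm_num) h4 _
      _ = Real.exp ((n : ℝ) * 2) := by rw [← Real.exp_nat_mul]
      _ ≤ Real.exp (x / 50) := by
          rw [hn]
          exact Real.exp_le_exp.2 (by linarith)
  have h5 : 8 * (R + 1) ≤ Real.exp (x / 10) := by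
    have h6 := Real.quadratic_le_exp_of_nonneg (show (0:ℝ) ≤ x / 10 by linarith)
    have h7 : 8 * (R + 1) ≤ 1 + x / 10 + (x / 10) ^ 2 / 2 := by nlinarith
    linarith
  have h7 : 8 * (R + 1) * Y ^ 4 * (4:ℝ) ^ n ≤
      Real.exp (x / 10) * Real.exp (x / 5) * Real.exp (x / 50) := by
    apply mul_le_mul _ h3 (by positivity) (by positivity)
    apply mul_le_mul h5 h1 (by positivity) (by positivity)
  refine h7.trans ?_
  rw [← Real.exp_add, ← Real.exp_add]
  have hexp20 : 2 ≤ Real.exp (x / 20) := by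
    have h1 := Real.add_one_le_exp (x / 20)
    linarith
  have h8 : Real.exp (x / 10 + x / 5 + x / 50) * 2 ≤
      Real.exp (x / 10 + x / 5 + x / 50) * Real.exp (x / 20) :=
    mul_le_mul_of_nonneg_left hexp20 (Real.exp_pos _).le
  rw [← Real.exp_add] at h8
  have h9 : Real.exp (x / 10 + x / 5 + x / 50 + x / 20) ≤ Real.exp (x / 2) :=
    Real.exp_le_exp.2 (by linarith)
  linarith

/-- numerical facts for large `x` -/
theorem mlb_numbers : ∃ x₁ : ℝ, ∀ x : ℝ, x₁ ≤ x → 10000 ≤ x ∧ 1 ≤ Real.log x ∧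
    1 ≤ x / (200 * Real.log x) := by
  refine ⟨10 ^ 8, fun x hx => ?_⟩
  have hx0 : (0:ℝ) < x := by linarith
  have hlog1 : 1 ≤ Real.log x := by
    rw [Real.le_log_iff_exp_le hx0]
    have := Real.exp_one_lt_d9
    linarith
  refine ⟨by linarith, hlog1, ?_⟩
  rw [le_div_iff₀ (by positivity), one_mul]
  -- log x ≤ 2 sqrt x
  have h1 : Real.log x ≤ 2 * Real.sqrt x := by
    have h2 : Real.log x = 2 * Real.log (Real.sqrt x) := by
      rw [Real.log_sqrt hx0.le]
      ring
    rw [h2]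
    have := Real.log_le_self (Real.sqrt_nonneg x)
    linarith
  have h3 : (10:ℝ) ^ 4 ≤ Real.sqrt x := by
    rw [show (10:ℝ) ^ 4 = Real.sqrt ((10 ^ 4) ^ 2) from (Real.sqrt_sq (by norm_num)).symm]
    exact Real.sqrt_le_sqrt (by linarith)
  have h4 : Real.sqrt x * Real.sqrt x = x := Real.mul_self_sqrt hx0.le
  nlinarith

theorem ml_of_S1 (hS : S1Bound) : ML := by
  obtain ⟨s₀, hs₀, x₂, hx₂⟩ := hS
  obtain ⟨x₁, hx₁⟩ := mlb_numbers
  have hev : ∃ x₃ : ℝ, ∀ x : ℝ, x₃ ≤ x → 1 / s₀ ≤ Real.log (x ^ 6) ∧ 0 < x := by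
    refine ⟨Real.exp (1 / s₀), fun x hx => ?_⟩
    have hx0 : 0 < x := (Real.exp_pos _).trans_le hx
    have h1 : 1 / s₀ ≤ Real.log x := (Real.le_log_iff_exp_le hx0).2 hx
    have h0 : 0 < 1 / s₀ := by positivity
    refine ⟨?_, hx0⟩
    rw [Real.log_pow]
    push_cast
    linarith
  obtain ⟨x₃, hx₃⟩ := hev
  refine ⟨min (1 / 100) (s₀ / 160), by positivity, max x₁ (max x₂ x₃), ?_⟩
  intro x hx J hJ hcard W hW hWp ν
  obtain ⟨hx10, hlog1, hβ⟩ := hx₁ x ((le_max_left _ _).trans hx)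
  have hS := hx₂ x ((le_max_left _ _).trans ((le_max_right _ _).trans hx))
  obtain ⟨hs6, hx0⟩ := hx₃ x ((le_max_right _ _).trans ((le_max_right _ _).trans hx))
  classical
  -- the objects
  set P := PP x with hPdef
  set B := BB x with hBdef
  set Y : ℕ := ⌊Real.exp (x / 20)⌋₊ with hYdef
  set N : ℕ := ⌊Real.exp (x / 2)⌋₊ with hNdef
  set c : ℝ := 1 / S1 P B with hcdef
  have hS1 : 0 < S1 P B := hs₀.trans_le hS
  have hc0 : 0 ≤ c := by rw [hcdef]; positivity
  have hcs : c ≤ 1 / s₀ := by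
    rw [hcdef]
    exact one_div_le_one_div_of_le hs₀ hS
  have hPprime : ∀ p ∈ P, p.Prime := fun p hp => (mem_PP.1 hp).2.1
  have hPbig : ∀ p ∈ P, x ^ 6 < (p : ℝ) := fun p hp => (mem_PP.1 hp).2.2
  have hPB : ∀ p ∈ P, p ≤ B := fun p hp => (mem_PP.1 hp).1
  have hsum : ∑ T ∈ QQ P B, gw c (∏ p ∈ T, p) = 1 := sum_gw hPprime B hS1
  -- sizes
  have hB2 : 2 ≤ B := by
    rw [hBdef, BB]
    apply Nat.le_floor
    push_cast
    have h1 := Real.add_one_le_exp (x / (200 * Real.log x))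
    linarith
  have hBle : (B : ℝ) ≤ Real.exp (x / (200 * Real.log x)) := Nat.floor_le (Real.exp_pos _).le
  have hBpos : (0:ℝ) < B := by
    have : (2:ℝ) ≤ B := by exact_mod_cast hB2
    linarith
  have hlogB0 : 0 < Real.log B := Real.log_pos (by
    have : (2:ℝ) ≤ B := by exact_mod_cast hB2
    linarith)
  have hlogB : Real.log B ≤ x / (200 * Real.log x) := by
    rw [← Real.log_exp (x / (200 * Real.log x))]
    exact Real.log_le_log hBpos hBle
  have hYle : (Y : ℝ) ≤ Real.exp (x / 20) := Nat.floor_le (Real.exp_pos _).le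
  have hexp20 : 2 ≤ Real.exp (x / 20) := by
    have h1 := Real.add_one_le_exp (x / 20)
    linarith
  have hYge : Real.exp (x / 20) / 2 ≤ Y := by
    have h1 := (Nat.sub_one_lt_floor (Real.exp (x / 20))).le
    linarith
  have hY1 : 1 ≤ Y := by
    have h1 : (1:ℝ) ≤ Y := by linarith
    exact_mod_cast h1
  have hYpos : (0:ℝ) < Y := by exact_mod_cast hY1
  have hlogY : x / 20 - 1 ≤ Real.log Y := by
    have h1 : Real.log (Real.exp (x / 20) / 2) ≤ Real.log Y :=
      Real.log_le_log (by positivity) hYge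
    rw [Real.log_div (Real.exp_pos _).ne' (by norm_num), Real.log_exp] at h1
    have h2 : Real.log 2 ≤ 1 := by
      have := Real.log_two_lt_d9
      linarith
    linarith
  have hNge : Real.exp (x / 2) / 2 ≤ N := by
    have h1 := (Nat.sub_one_lt_floor (Real.exp (x / 2))).le
    have h2 : 2 ≤ Real.exp (x / 2) := by
      have h1 := Real.add_one_le_exp (x / 2)
      linarith
    linarith
  have hNle : (N : ℝ) ≤ Real.exp (x / 2) := Nat.floor_le (Real.exp_pos _).le
  set R : ℝ := (J.card : ℝ) with hRdef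
  have hR0 : 0 ≤ R := Nat.cast_nonneg _
  have hR100 : R ≤ x / 100 := by
    have : min (1 / 100) (s₀ / 160) * x ≤ 1 / 100 * x :=
      mul_le_mul_of_nonneg_right (min_le_left _ _) hx0.le
    linarith
  have hRs : R ≤ s₀ / 160 * x := by
    have : min (1 / 100) (s₀ / 160) * x ≤ s₀ / 160 * x :=
      mul_le_mul_of_nonneg_right (min_le_right _ _) hx0.le
    linarith
  have hRc : 2 * R * c ≤ x / 80 := by
    have h1 : R * c ≤ (s₀ / 160 * x) * (1 / s₀) := mul_le_mul hRs hcs hc0 (by positivity)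
    have h2 : (s₀ / 160 * x) * (1 / s₀) = x / 160 := by field_simp
    linarith
  have hx1 : (1:ℝ) ≤ x := by linarith
  have hx2 : (10000:ℝ) ^ 2 ≤ x ^ 2 := pow_le_pow_left₀ (by norm_num) hx10 2
  have hx6big : (10000:ℝ) ≤ x ^ 6 := hx10.trans (le_self_pow₀ hx1 (by norm_num))
  have hcardι : (Fintype.card {h // h ∈ J} : ℝ) = R := by
    rw [Fintype.card_coe]
  -- the number of primes in a set with product ≤ Y
  have hcardT : ∀ T ⊆ P, (∏ p ∈ T, p) ≤ Y → (T.card : ℝ) ≤ x := by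
    intro T hT hTY
    have h1 := card_log_le (T := T) (D := x ^ 6) (Y := Real.exp (x / 20)) (by linarith)
      (fun p hp => (hPbig p (hT hp)).le) (le_trans (by exact_mod_cast hTY) hYle)
    rw [Real.log_pow, Real.log_exp] at h1
    push_cast at h1
    have h2 : (0:ℝ) ≤ T.card := Nat.cast_nonneg _
    nlinarith
  -- the conditions of the abstract lemma
  have hforms : Forms P (fun p (i : {h // h ∈ J}) m => p ∣ W * m + (ν + (i : ℕ))) := by
    refine forms_linear P W (fun i : {h // h ∈ J} => ν + (i : ℕ)) hPprime ?_ ?_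
    · intro p hp hdvd
      have h1 := hWp p (hPprime p hp) hdvd
      have h2 := hPbig p hp
      linarith
    · intro p hp i j hij hmod
      have h1 : (i : ℕ) ≡ (j : ℕ) [MOD p] := Nat.ModEq.add_left_cancel' _ hmod
      have hlt : ∀ h ∈ J, h < p := by
        intro h hh
        have h3 := hJ h hh
        have h4 := hPbig p hp
        have h5 : x ^ 5 ≤ x ^ 6 := pow_le_pow_right₀ hx1 (by norm_num)
        have h6 : (h : ℝ) < p := by linarith
        exact_mod_cast h6
      exact hij (Subtype.ext (Nat.ModEq.eq_of_lt_of_lt h1 (hlt i i.2) (hlt j j.2)))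
  have hθ : ((B : ℝ) / Y) ^ (1 / Real.log B) *
      Real.exp ((Fintype.card {h // h ∈ J} : ℝ) * (2 * (1 / Real.log B) * c)) ≤
      Real.exp 1 / x ^ 5 := by
    rw [hcardι, Real.rpow_def_of_pos (by positivity), Real.log_div hBpos.ne' hYpos.ne',
      ← Real.exp_add]
    have h1 : (Real.log B - Real.log Y) * (1 / Real.log B) + R * (2 * (1 / Real.log B) * c) =
        1 - (Real.log Y - 2 * R * c) / Real.log B := by
      field_simp
      ring
    rw [h1]
    have h2 : x / 40 ≤ Real.log Y - 2 * R * c := by linarith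
    have h3 : 5 * Real.log x ≤ (Real.log Y - 2 * R * c) / Real.log B := by
      rw [le_div_iff₀ hlogB0]
      have h4 : 5 * Real.log x * Real.log B ≤ 5 * Real.log x * (x / (200 * Real.log x)) :=
        mul_le_mul_of_nonneg_left hlogB (by positivity)
      have h5 : 5 * Real.log x * (x / (200 * Real.log x)) = x / 40 := by
        have : Real.log x ≠ 0 := by linarith
        field_simp
        norm_num
      linarith
    have h6 : Real.exp 1 / x ^ 5 = Real.exp (1 - 5 * Real.log x) := by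
      rw [Real.exp_sub]
      congr 1
      rw [show (5:ℝ) * Real.log x = ((5:ℕ):ℝ) * Real.log x by norm_num, Real.exp_nat_mul,
        Real.exp_log hx0]
    rw [h6]
    exact Real.exp_le_exp.2 (by linarith)
  have hexp1 : Real.exp 1 ≤ 3 := by
    have := Real.exp_one_lt_d9
    linarith
  have hx3 : (10000:ℝ) ≤ x ^ 3 := hx10.trans (le_self_pow₀ hx1 (by norm_num))
  obtain ⟨m, hm, hmi⟩ := abs_lemma (P := P) (ι := {h // h ∈ J}) hforms (fun _ => P)
    (fun _ => gw c) (fun _ n => gw_nonneg hc0 n) (fun _ T hT hT' => absurd hT hT') B Y N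
    (by omega) hY1 (fun _ => hsum) (1 / Real.log B) (4 / x ^ 4) (4 / x ^ 5)
    (Real.exp 1 / x ^ 5) (2 * (1 / Real.log B) * c) (by positivity) (by positivity)
    (by positivity)
    (by
      intro T hT hTY
      rw [hcardι]
      have h1 : x * (2 * R / x ^ 6) ≤ 2 / x ^ 4 := by
        rw [mul_div_assoc', div_le_div_iff₀ (by positivity) (by positivity)]
        have h2 : x * (2 * R) ≤ x * (2 * x) := by
          apply mul_le_mul_of_nonneg_left _ hx0.le
          linarith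
        calc x * (2 * R) * x ^ 4 ≤ x * (2 * x) * x ^ 4 :=
              mul_le_mul_of_nonneg_right h2 (by positivity)
          _ = 2 * x ^ 6 := by ring
      have h3 : 2 / x ^ 4 ≤ 1 := by
        rw [div_le_one (by positivity)]
        have : (10000:ℝ) ≤ x ^ 4 := hx10.trans (le_self_pow₀ hx1 (by norm_num))
        linarith
      have h4 := gram_factor_le (T := T) (D := x ^ 6) (R := R) (n := x) (by linarith) hR0
        (fun p hp => (hPbig p (hT hp)).le) (hcardT T hT hTY) (by linarith)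
      refine h4.trans ?_
      have h5 : 4 / x ^ 4 = 2 * (2 / x ^ 4) := by ring
      linarith)
    (by
      intro _ T0 hT0 hTY
      refine (sum_gw_meet hPprime B hc0 hsum (x ^ 6) (by linarith) (by linarith)
        (fun p hp => (hPbig p hp).le) T0 hT0).trans ?_
      have h1 := hcardT T0 hT0 hTY
      have h2 : 2 / (x ^ 6 - 1) ≤ 4 / x ^ 6 := by
        rw [div_le_div_iff₀ (by linarith) (by positivity)]
        linarith
      calc (T0.card : ℝ) * (2 / (x ^ 6 - 1)) ≤ x * (4 / x ^ 6) :=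
            mul_le_mul h1 h2 (div_nonneg (by norm_num) (by linarith)) hx0.le
        _ = 4 / x ^ 5 := by field_simp)
    (fun _ => by
      refine (sum_cost hPprime B hc0 hsum (1 / Real.log B) (by positivity) ?_)
      rw [one_div, inv_mul_cancel₀ hlogB0.ne'])
    hθ
    (by
      rw [hcardι]
      exact mlb_h4 hx10 hR0 (by linarith))
    (by
      rw [hcardι]
      exact (mlb_h5 hx10 hR0 hR100 hcardι hYpos.le hYle).trans hNge)
  refine ⟨m, ?_, ?_⟩
  · have h1 : (m : ℝ) < N := by exact_mod_cast hm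
    linarith
  · intro h hh
    obtain ⟨p, hp, hdvd⟩ := hmi ⟨h, hh⟩
    refine ⟨p, hPprime p hp, hPbig p hp, ?_, ?_⟩
    · have h1 : (p : ℝ) ≤ B := by exact_mod_cast hPB p hp
      exact h1.trans hBle
    · simpa [add_assoc] using hdvd

end Pool.Agent.H.MP_711652_nt.LG
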