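import Pool.Agent.H.MP_711652_nt.LG.Sums2

/-!
# The weights: normalisation, energy, one prime; asymptotic lower bound of the normalising sum
-/

set_option autoImplicit false

open Finset Filter

namespace LG

open Pool.Agent.H.MP_3e6494_nt (prm mem_prm)

theorem floor_pow_log {x : ℝ} (hx : 2 ≤ x) :
    5 * Real.log x ≤ Real.log (⌊x ^ 6⌋₊ : ℝ) ∧ Real.log (⌊x ^ 6⌋₊ : ℝ) ≤ 6 * Real.log x ∧
      2 ≤ ⌊x ^ 6⌋₊ := by
  have h0 : 0 < x := by linarith
  have h1 : (⌊x ^ 6⌋₊ : ℝ) ≤ x ^ 6 := Nat.floor_le (by positivity)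
  have h2 : x ^ 6 < (⌊x ^ 6⌋₊ : ℝ) + 1 := Nat.lt_floor_add_one _
  have h3 : (1 : ℝ) ≤ x ^ 5 := one_le_pow₀ (by linarith)
  have h4 : x ^ 5 + 1 ≤ x ^ 6 := by
    have : x ^ 6 = x ^ 5 * x := by ring
    nlinarith
  have h5 : x ^ 5 ≤ (⌊x ^ 6⌋₊ : ℝ) := by linarith
  have h6 : (0 : ℝ) < (⌊x ^ 6⌋₊ : ℝ) := by
    have : 0 < x ^ 5 := by positivity
    linarith
  refine ⟨?_, ?_, ?_⟩
  · have := Real.log_le_log (by positivity) h5
    rw [Real.log_pow] at this
    push_cast at this
    exact this
  · have := Real.log_le_log h6 h1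
    rw [Real.log_pow] at this
    push_cast at this
    exact this
  · apply Nat.le_floor
    push_cast
    have : (2 : ℝ) ^ 6 ≤ x ^ 6 := pow_le_pow_left₀ (by norm_num) hx 6
    norm_num at this
    linarith

/-- (F) -/
theorem S1_ge_eventually : ∀ᶠ x : ℝ in atTop,
    Real.exp (-21) / 96 ≤ S1 ⌊x ^ 6⌋₊ ⌊Real.exp (x / (200 * Real.log x))⌋₊ := by
  have e1 : ∀ᶠ x : ℝ in atTop, 1200 * Real.log x ^ 2 ≤ √x := by
    have h := (Real.isLittleO_pow_log_id_atTop (n := 2)).bound (show (0 : ℝ) < 1 / 4800 by norm_num)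
    have h1 := (Real.tendsto_sqrt_atTop).eventually h
    filter_upwards [h1, eventually_ge_atTop 1] with x hx hx1
    have hx0 : 0 ≤ x := by linarith
    rw [id, Real.norm_eq_abs, Real.norm_eq_abs, abs_of_nonneg (sq_nonneg _),
      abs_of_nonneg (Real.sqrt_nonneg _), Real.log_sqrt hx0] at hx
    nlinarith [hx]
  have e2 : ∀ᶠ x : ℝ in atTop, 96 * Real.exp 21 ≤ Real.log x :=
    Real.tendsto_log_atTop.eventually_ge_atTop _
  filter_upwards [e1, e2, eventually_ge_atTop 2] with x h1 h2 h3
  obtain ⟨hD1, hD2, hD3⟩ := floor_pow_log h3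
  have hx0 : 0 < x := by linarith
  have hlx : 0 < Real.log x := Real.log_pos (by linarith)
  have hl2 : 0 < Real.log 2 := Real.log_pos (by norm_num)
  have hl2a := Real.log_two_gt_d9
  have hl2b := Real.log_two_lt_d9
  obtain ⟨n, hn⟩ : ∃ n : ℕ, n = ⌊Real.log x / (2 * Real.log 2)⌋₊ := ⟨_, rfl⟩
  have hq0 : 0 ≤ Real.log x / (2 * Real.log 2) := by positivity
  have hn1 : (n : ℝ) ≤ Real.log x / (2 * Real.log 2) := by
    rw [hn]
    exact Nat.floor_le hq0
  have hn2 : Real.log x / (2 * Real.log 2) < (n : ℝ) + 1 := by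
    rw [hn]
    exact Nat.lt_floor_add_one _
  have hpow : (2 : ℝ) ^ n ≤ √x := by
    have h4 : (n : ℝ) * Real.log 2 ≤ Real.log x / 2 := by
      rw [le_div_iff₀ (by positivity)] at hn1
      linarith
    have h5 : Real.log ((2 : ℝ) ^ n) ≤ Real.log (√x) := by
      rw [Real.log_pow, Real.log_sqrt hx0.le]
      exact h4
    exact (Real.log_le_log_iff (by positivity) (Real.sqrt_pos.2 hx0)).1 h5
  have hB : ⌊x ^ 6⌋₊ ^ (2 ^ n) ≤ ⌊Real.exp (x / (200 * Real.log x))⌋₊ := by
    apply Nat.le_floor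
    push_cast
    have hDpos : (0 : ℝ) < (⌊x ^ 6⌋₊ : ℝ) := by
      have : 0 < ⌊x ^ 6⌋₊ := by omega
      exact_mod_cast this
    have h6 : ((⌊x ^ 6⌋₊ : ℝ)) ^ (2 ^ n) =
        Real.exp ((2 : ℝ) ^ n * Real.log (⌊x ^ 6⌋₊ : ℝ)) := by
      rw [← Real.exp_log (pow_pos hDpos (2 ^ n)), Real.log_pow]
      push_cast
      rfl
    rw [h6]
    apply Real.exp_le_exp.2
    rw [le_div_iff₀ (by positivity)]
    have hs : √x * √x = x := Real.mul_self_sqrt hx0.le
    calc (2 : ℝ) ^ n * Real.log (⌊x ^ 6⌋₊ : ℝ) * (200 * Real.log x)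
        ≤ √x * (6 * Real.log x) * (200 * Real.log x) := by
          refine mul_le_mul_of_nonneg_right ?_ (by positivity)
          exact mul_le_mul hpow hD2 (by linarith) (Real.sqrt_nonneg _)
      _ = √x * (1200 * Real.log x ^ 2) := by ring
      _ ≤ √x * √x := mul_le_mul_of_nonneg_left h1 (Real.sqrt_nonneg _)
      _ = x := hs
  refine le_trans ?_ (S1_ge_gen hD3 hB)
  have hV := VV_ge hD3
  have hDl : 0 < Real.log (⌊x ^ 6⌋₊ : ℝ) := by linarith
  have hV2 : Real.exp (-21) / (6 * Real.log x) ≤ VV ⌊x ^ 6⌋₊ := by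
    refine le_trans ?_ hV
    exact div_le_div_of_nonneg_left (Real.exp_pos _).le hDl hD2
  have h7 : Real.log x / 2 ≤ n := by
    have h8 : Real.log x / (2 * Real.log 2) ≥ Real.log x / (2 * 0.7) :=
      div_le_div_of_nonneg_left hlx.le (by positivity) (by linarith)
    have h9 : (96 : ℝ) ≤ Real.log x := by
      have : (1 : ℝ) ≤ Real.exp 21 := Real.one_le_exp (by norm_num)
      linarith
    have h10 : Real.log x / (2 * 0.7) = Real.log x * (5 / 7) := by ring
    rw [h10] at h8
    linarith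
  have h11 : 1 / Real.log (⌊x ^ 6⌋₊ : ℝ) ≤ Real.exp (-21) / 96 := by
    rw [Real.exp_neg, div_le_div_iff₀ hDl (by norm_num)]
    have h12 : Real.exp 21 * (Real.exp 21)⁻¹ = 1 := mul_inv_cancel₀ (Real.exp_pos 21).ne'
    have h13 : (0 : ℝ) < (Real.exp 21)⁻¹ := by positivity
    have h14 : 96 * Real.exp 21 ≤ Real.log (⌊x ^ 6⌋₊ : ℝ) := by linarith
    calc (1 : ℝ) * 96 = (Real.exp 21)⁻¹ * (96 * Real.exp 21) := by
          rw [mul_comm (96 : ℝ), ← mul_assoc, mul_comm ((Real.exp 21)⁻¹), h12]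
      _ ≤ _ := mul_le_mul_of_nonneg_left h14 h13.le
  have h15 : Real.exp (-21) / 48 ≤ (n : ℝ) * VV ⌊x ^ 6⌋₊ / 4 := by
    have h16 : Real.log x / 2 * (Real.exp (-21) / (6 * Real.log x)) ≤
        (n : ℝ) * VV ⌊x ^ 6⌋₊ :=
      mul_le_mul h7 hV2 (by positivity) (Nat.cast_nonneg _)
    have h17 : Real.log x / 2 * (Real.exp (-21) / (6 * Real.log x)) = Real.exp (-21) / 12 := by
      field_simp
      norm_num
    rw [h17] at h16
    linarith
  linarith

/-! ### the weights -/

theorem S1_nonneg {D B : ℕ} (hD : 1 ≤ D) : 0 ≤ S1 D B :=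
  sum_nonneg fun _ hS => (one_div_pos.2 (mul_pos (ph_pos (QQ_prime hS)) (log_pr_pos hD hS))).le

theorem gg_nonneg {D B : ℕ} (hD : 1 ≤ D) (S : Finset ℕ) : 0 ≤ gg D B S := by
  unfold gg
  split_ifs with h
  · exact div_nonneg zero_le_one (mul_nonneg (S1_nonneg hD)
      (mul_pos (ph_pos (QQ_prime h)) (log_pr_pos hD h)).le)
  · exact le_rfl

theorem gg_of_mem {D B : ℕ} {S : Finset ℕ} (h : S ∈ QQ D B) :
    gg D B S = 1 / S1 D B * (1 / (ph S * Real.log (pr S))) := by
  unfold gg
  rw [if_pos h, one_div_mul_one_div]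

theorem sum_gg {D B : ℕ} (h : 0 < S1 D B) : ∑ S ∈ QQ D B, gg D B S = 1 := by
  rw [sum_congr rfl fun S hS => gg_of_mem hS, ← mul_sum]
  change 1 / S1 D B * S1 D B = 1
  rw [one_div, inv_mul_cancel₀ h.ne']

/-- one prime -/
theorem gg_sum_mem {D B : ℕ} (hD : 2 ≤ D) (h : 0 < S1 D B) {p : ℕ} (hp : p ∈ prs D B) :
    ∑ S ∈ (QQ D B).filter (fun S => p ∈ S), gg D B S ≤
      (1 + 1 / S1 D B / Real.log D) / ((p : ℝ) - 1) := by
  classical
  have hD1 : (1 : ℝ) < D := by exact_mod_cast hD
  have hL : 0 < Real.log D := Real.log_pos hD1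
  obtain ⟨hp1, hp2, hp3⟩ := mem_prs.1 hp
  have hpD : (D : ℝ) < p := by exact_mod_cast hp1
  have hp0 : (0 : ℝ) < (p : ℝ) - 1 := by linarith
  have hsub : (QQ D B).filter (fun S => p ∈ S) ⊆
      insert {p} (((QQ D B).filter fun S => p ∉ S).image fun S => insert p S) := by
    intro S hS
    rw [mem_filter] at hS
    rw [mem_insert]
    by_cases h1 : (S.erase p).Nonempty
    · right
      rw [mem_image]
      refine ⟨S.erase p, ?_, insert_erase hS.2⟩
      rw [mem_filter, mem_QQ]
      obtain ⟨h2, h3, h4⟩ := mem_QQ.1 hS.1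
      refine ⟨⟨(erase_subset _ _).trans h2, h1, ?_⟩, notMem_erase _ _⟩
      exact (pr_mono (QQ_prime hS.1) (erase_subset _ _)).trans h4
    · left
      rw [not_nonempty_iff_eq_empty] at h1
      rw [← insert_erase hS.2, h1]
      rfl
  have hg0 : ∀ S : Finset ℕ, 0 ≤ gg D B S := gg_nonneg (by omega)
  have hc : 0 < 1 / S1 D B := one_div_pos.2 h
  have hsing : gg D B {p} ≤ 1 / S1 D B / Real.log D / ((p : ℝ) - 1) := by
    unfold gg
    split_ifs with h1
    · have hlp : Real.log D ≤ Real.log p := Real.log_le_log (by linarith) hpD.le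
      have e : ph {p} = (p : ℝ) - 1 := by simp [ph]
      have e2 : pr {p} = (p : ℝ) := by simp [pr]
      rw [e, e2, div_div, div_div]
      apply one_div_le_one_div_of_le (by positivity)
      calc S1 D B * (Real.log D * ((p : ℝ) - 1)) = S1 D B * (((p : ℝ) - 1) * Real.log D) := by ring
        _ ≤ _ := mul_le_mul_of_nonneg_left (mul_le_mul_of_nonneg_left hlp hp0.le) h.le
    · positivity
  calc ∑ S ∈ (QQ D B).filter (fun S => p ∈ S), gg D B S
      ≤ ∑ S ∈ insert {p} (((QQ D B).filter fun S => p ∉ S).image fun S => insert p S),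
          gg D B S := sum_le_sum_of_subset_of_nonneg hsub fun S _ _ => hg0 S
    _ ≤ gg D B {p} + ∑ S ∈ ((QQ D B).filter fun S => p ∉ S).image fun S => insert p S,
          gg D B S := by
        by_cases h1 : {p} ∈ (((QQ D B).filter fun S => p ∉ S).image fun S => insert p S)
        · rw [insert_eq_of_mem h1]
          have := hg0 {p}
          linarith
        · rw [sum_insert h1]
    _ ≤ 1 / S1 D B / Real.log D / ((p : ℝ) - 1) + 1 / ((p : ℝ) - 1) := by
        refine add_le_add hsing ?_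
        have hinj : Set.InjOn (fun S => insert p S)
            (((QQ D B).filter fun S => p ∉ S : Finset (Finset ℕ)) : Set (Finset ℕ)) := by
          intro S hS T hT hST
          rw [mem_coe, mem_filter] at hS hT
          have h1 := congrArg (fun U : Finset ℕ => U.erase p) hST
          simp only [erase_insert hS.2, erase_insert hT.2] at h1
          exact h1
        rw [sum_image hinj]
        calc ∑ S ∈ (QQ D B).filter (fun S => p ∉ S), gg D B (insert p S)
            ≤ ∑ S ∈ (QQ D B).filter (fun S => p ∉ S), 1 / ((p : ℝ) - 1) * gg D B S := by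
              refine sum_le_sum fun S hS => ?_
              rw [mem_filter] at hS
              rw [gg_of_mem hS.1]
              unfold gg
              have hlog := log_pr_pos (show 1 ≤ D by omega) hS.1
              have hph := ph_pos (QQ_prime hS.1)
              have hpr := pr_pos (QQ_prime hS.1)
              split_ifs with h2
              · have e1 : ph (insert p S) = ((p : ℝ) - 1) * ph S := by
                  unfold ph
                  rw [prod_insert hS.2]
                have e2 : pr (insert p S) = (p : ℝ) * pr S := by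
                  unfold pr
                  rw [prod_insert hS.2]
                have e3 : Real.log (pr S) ≤ Real.log (pr (insert p S)) := by
                  rw [e2]
                  apply Real.log_le_log hpr
                  exact le_mul_of_one_le_left hpr.le (by linarith)
                rw [one_div_mul_one_div, one_div_mul_one_div, e1]
                apply one_div_le_one_div_of_le (by positivity)
                calc ((p : ℝ) - 1) * (S1 D B * (ph S * Real.log (pr S)))
                    = S1 D B * (((p : ℝ) - 1) * ph S * Real.log (pr S)) := by ring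
                  _ ≤ _ := mul_le_mul_of_nonneg_left
                    (mul_le_mul_of_nonneg_left e3 (by positivity)) h.le
              · positivity
          _ = 1 / ((p : ℝ) - 1) * ∑ S ∈ (QQ D B).filter (fun S => p ∉ S), gg D B S := by
              rw [mul_sum]
          _ ≤ 1 / ((p : ℝ) - 1) * 1 := by
              refine mul_le_mul_of_nonneg_left ?_ (by positivity)
              rw [← sum_gg h]
              exact sum_le_sum_of_subset_of_nonneg (filter_subset _ _) fun S _ _ => hg0 S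
          _ = 1 / ((p : ℝ) - 1) := mul_one _
    _ = (1 + 1 / S1 D B / Real.log D) / ((p : ℝ) - 1) := by ring

theorem exp_sub_one_le {t : ℝ} (h0 : 0 ≤ t) (h1 : t ≤ 1) :
    Real.exp t - 1 ≤ (Real.exp 1 - 1) * t := by
  have h := convexOn_exp.2 (Set.mem_univ (0 : ℝ)) (Set.mem_univ (1 : ℝ))
    (show 0 ≤ 1 - t by linarith) h0 (by ring)
  simp only [smul_eq_mul, mul_zero, mul_one, zero_add, Real.exp_zero] at h
  linarith

/-- the energy -/
theorem gg_energy {D B : ℕ} (hD : 2 ≤ D) (h : 0 < S1 D B) {T : Finset (Finset ℕ)}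
    (hT : T ⊆ QQ D B) :
    ∑ S ∈ T, gg D B S ^ 2 * ph S * (Real.exp (Real.log (pr S) / Real.log B) - 1) ≤
      (Real.exp 1 - 1) * (1 / S1 D B) / Real.log B := by
  have hc : 0 < 1 / S1 D B := one_div_pos.2 h
  have he : 0 < Real.exp 1 - 1 := by
    have := Real.add_one_lt_exp (show (1 : ℝ) ≠ 0 by norm_num)
    linarith
  rcases (QQ D B).eq_empty_or_nonempty with h0 | ⟨S0, hS0⟩
  · exfalso
    unfold S1 at h
    rw [h0, sum_empty] at h
    exact lt_irrefl _ h
  have hB1 : 1 < (B : ℝ) := by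
    have h1 := lt_pr_of_QQ hS0
    have h2 := (mem_QQ.1 hS0).2.2
    have h3 : (2 : ℝ) ≤ D := by exact_mod_cast hD
    linarith
  have hLB : 0 < Real.log B := Real.log_pos hB1
  have hterm : ∀ S ∈ QQ D B,
      gg D B S ^ 2 * ph S * (Real.exp (Real.log (pr S) / Real.log B) - 1) ≤
      (1 / S1 D B) ^ 2 * (Real.exp 1 - 1) / Real.log B * (1 / (ph S * Real.log (pr S))) := by
    intro S hS
    have hlog := log_pr_pos (show 1 ≤ D by omega) hS
    have hph := ph_pos (QQ_prime hS)
    have hpr := pr_pos (QQ_prime hS)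
    have h1 : Real.log (pr S) / Real.log B ≤ 1 := by
      rw [div_le_one hLB]
      exact Real.log_le_log hpr (mem_QQ.1 hS).2.2
    have h2 := exp_sub_one_le (by positivity) h1
    rw [gg_of_mem hS]
    calc (1 / S1 D B * (1 / (ph S * Real.log (pr S)))) ^ 2 * ph S *
          (Real.exp (Real.log (pr S) / Real.log B) - 1)
        ≤ (1 / S1 D B * (1 / (ph S * Real.log (pr S)))) ^ 2 * ph S *
          ((Real.exp 1 - 1) * (Real.log (pr S) / Real.log B)) :=
          mul_le_mul_of_nonneg_left h2 (by positivity)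
      _ = _ := by
          field_simp
  calc ∑ S ∈ T, gg D B S ^ 2 * ph S * (Real.exp (Real.log (pr S) / Real.log B) - 1)
      ≤ ∑ S ∈ T, (1 / S1 D B) ^ 2 * (Real.exp 1 - 1) / Real.log B *
          (1 / (ph S * Real.log (pr S))) := sum_le_sum fun S hS => hterm S (hT hS)
    _ ≤ ∑ S ∈ QQ D B, (1 / S1 D B) ^ 2 * (Real.exp 1 - 1) / Real.log B *
          (1 / (ph S * Real.log (pr S))) := by
        refine sum_le_sum_of_subset_of_nonneg hT fun S hS _ => ?_
        have hlog := log_pr_pos (show 1 ≤ D by omega) hS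
        have hph := ph_pos (QQ_prime hS)
        positivity
    _ = (1 / S1 D B) ^ 2 * (Real.exp 1 - 1) / Real.log B * S1 D B := by
        rw [← mul_sum]
        rfl
    _ = (Real.exp 1 - 1) * (1 / S1 D B) / Real.log B := by
        field_simp

end LG
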