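import Pool.Agent.H.MP_711652_nt.LG.MLB
import Pool.Agent.H.MP_711652_nt.LG.Sums3

/-!
# Main Lemma, part C: the input `S1 ≥ s₀` and the Main Lemma
-/

set_option autoImplicit false

namespace Pool.Agent.H.MP_711652_nt.LG

open Finset

theorem mlc_prs (x : ℝ) (hx : 0 ≤ x) :
    _root_.LG.prs ⌊x ^ 6⌋₊ (BB x) = PP x := by
  ext p
  rw [_root_.LG.mem_prs, mem_PP, Nat.floor_lt (by positivity)]
  tauto

theorem mlc_pr (S : Finset ℕ) : _root_.LG.pr S = ((∏ p ∈ S, p : ℕ) : ℝ) := by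
  rw [_root_.LG.pr]
  push_cast
  rfl

theorem mlc_ph {S : Finset ℕ} (hS : ∀ p ∈ S, p.Prime) :
    _root_.LG.ph S = (Nat.totient (∏ p ∈ S, p) : ℝ) := by
  rw [_root_.LG.ph]
  induction S using Finset.induction_on with
  | empty => simp
  | insert a S ha ih =>
    have hap : a.Prime := hS a (mem_insert_self a S)
    have hcop : a.Coprime (∏ p ∈ S, p) := by
      refine Nat.Coprime.prod_right fun p hp => ?_
      refine (Nat.coprime_primes hap (hS p (mem_insert_of_mem hp))).2 ?_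
      rintro rfl
      exact ha hp
    rw [Finset.prod_insert ha, Finset.prod_insert ha, Nat.totient_mul hcop,
      Nat.totient_prime hap, ih fun p hp => hS p (mem_insert_of_mem hp), Nat.cast_mul,
      Nat.cast_sub hap.one_le, Nat.cast_one]

theorem mlc_QQ (x : ℝ) (hx : 0 ≤ x) :
    _root_.LG.QQ ⌊x ^ 6⌋₊ (BB x) = QQ (PP x) (BB x) := by
  ext S
  rw [_root_.LG.mem_QQ, mem_QQ, mlc_prs x hx, mlc_pr, Nat.cast_le,
    Finset.nonempty_iff_ne_empty]
  tauto

theorem s1Bound : S1Bound := by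
  have h := _root_.LG.S1_ge_eventually
  obtain ⟨x₀, hx₀⟩ := Filter.eventually_atTop.1 h
  refine ⟨Real.exp (-21) / 96, by positivity, max x₀ 0, fun x hx => ?_⟩
  have hx0 : 0 ≤ x := (le_max_right _ _).trans hx
  have h1 := hx₀ x ((le_max_left _ _).trans hx)
  refine h1.trans (le_of_eq ?_)
  change _root_.LG.S1 ⌊x ^ 6⌋₊ (BB x) = S1 (PP x) (BB x)
  rw [_root_.LG.S1, S1, mlc_QQ x hx0]
  refine Finset.sum_congr rfl fun S hS => ?_
  rw [mem_QQ] at hS
  rw [mlc_ph fun p hp => (mem_PP.1 (hS.2.1 hp)).2.1, mlc_pr]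

/-- **The Main Lemma.** -/
theorem ml : ML := ml_of_S1 s1Bound

end Pool.Agent.H.MP_711652_nt.LG
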