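import Mathlib
import Pool.Agent.H.MP_711652_nt.SH.Mert

/-!
# MP_711652, LG/RankinA: the bound of Rankin for the number of smooth numbers

`smo z L` is the set of the `h` in `[1, L]` all prime factors of which are at most `z`.
-/

set_option autoImplicit false

namespace Pool.Agent.H.MP_711652_nt.LG

open Finset Pool.Agent.H.MP_711652_nt.SH

open Classical in
/-- The `h` in `[1, L]` all prime factors of which are at most `z`. -/
noncomputable def smo (z : ℕ) (L : ℝ) : Finset ℕ :=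
  (Icc 1 ⌊L⌋₊).filter fun h => ∀ p : ℕ, p.Prime → p ∣ h → p ≤ z

open Classical in
theorem mem_smo {z : ℕ} {L : ℝ} {h : ℕ} :
    h ∈ smo z L ↔ (1 ≤ h ∧ h ≤ ⌊L⌋₊) ∧ ∀ p : ℕ, p.Prime → p ∣ h → p ≤ z := by
  unfold smo
  rw [mem_filter, mem_Icc]

/-- `n ↦ n ^ (-s)` as a multiplicative map. -/
noncomputable def powHom (s : ℝ) (_hs : 0 < s) : ℕ →* ℝ where
  toFun n := (n : ℝ) ^ (-s)
  map_one' := by simp
  map_mul' m n := by
    rw [Nat.cast_mul, Real.mul_rpow (Nat.cast_nonneg m) (Nat.cast_nonneg n)]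

theorem powHom_apply (s : ℝ) (hs : 0 < s) (n : ℕ) : powHom s hs n = (n : ℝ) ^ (-s) := rfl

/-- Rankin's inequality. -/
theorem rankin (z : ℕ) (L : ℝ) (hL : 0 ≤ L) (s : ℝ) (hs : 0 < s) :
    ((smo z L).card : ℝ) ≤ L ^ s * ∏ p ∈ pr z, (1 - (p : ℝ) ^ (-s))⁻¹ := by
  have h1 := (EulerProduct.summable_and_hasSum_smoothNumbers_prod_primesBelow_geometric
    (f := powHom s hs) (fun {p} hp => by
      rw [powHom_apply, Real.norm_of_nonneg (Real.rpow_nonneg (Nat.cast_nonneg p) _)]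
      exact Real.rpow_lt_one_of_one_lt_of_neg (by exact_mod_cast hp.one_lt) (by linarith))
    (z + 1)).2
  have h2 : HasSum ((Nat.smoothNumbers (z + 1)).indicator fun m => powHom s hs m)
      (∏ p ∈ (z + 1).primesBelow, (1 - powHom s hs p)⁻¹) := hasSum_subtype_iff_indicator.1 h1
  have h3 : ∑ h ∈ smo z L, (h : ℝ) ^ (-s) ≤ ∏ p ∈ pr z, (1 - (p : ℝ) ^ (-s))⁻¹ := by
    have h4 : ∑ h ∈ smo z L, (h : ℝ) ^ (-s) =
        ∑ h ∈ smo z L, (Nat.smoothNumbers (z + 1)).indicator (fun m => powHom s hs m) h := by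
      refine sum_congr rfl fun h hh => ?_
      rw [mem_smo] at hh
      rw [Set.indicator_of_mem, powHom_apply]
      rw [Nat.mem_smoothNumbers']
      intro p hp hd
      have := hh.2 p hp hd
      omega
    rw [h4]
    exact sum_le_hasSum _ (fun i _ => Set.indicator_nonneg (fun n _ => by
      rw [powHom_apply]; exact Real.rpow_nonneg (Nat.cast_nonneg n) _) i) h2
  have h5 : ((smo z L).card : ℝ) ≤ ∑ h ∈ smo z L, L ^ s * (h : ℝ) ^ (-s) := by
    rw [card_eq_sum_ones, Nat.cast_sum]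
    refine sum_le_sum fun h hh => ?_
    rw [mem_smo] at hh
    have hh0 : (0 : ℝ) < h := by exact_mod_cast hh.1.1
    have hhL : (h : ℝ) ≤ L := (Nat.le_floor_iff hL).1 hh.1.2
    rw [Real.rpow_neg hh0.le, Nat.cast_one, ← div_eq_mul_inv,
      one_le_div (Real.rpow_pos_of_pos hh0 s)]
    exact Real.rpow_le_rpow hh0.le hhL hs.le
  rw [← mul_sum] at h5
  exact h5.trans (mul_le_mul_of_nonneg_left h3 (Real.rpow_nonneg hL _))

/-- `(1 - u)⁻¹ ≤ exp (u + 2 u ^ 2)`. -/
theorem inv_le_exp {u : ℝ} (h0 : 0 ≤ u) (h1 : u ≤ 3 / 4) :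
    (1 - u)⁻¹ ≤ Real.exp (u + 2 * u ^ 2) := by
  have h2 : 0 < 1 - u := by linarith
  rw [inv_le_comm₀ h2 (Real.exp_pos _), ← Real.exp_neg]
  have h3 : Real.exp (-(u + 2 * u ^ 2)) = (Real.exp (u + 2 * u ^ 2))⁻¹ := Real.exp_neg _
  rw [h3, inv_le_comm₀ (Real.exp_pos _) h2]
  have h4 : 1 + (u + 2 * u ^ 2) + (u + 2 * u ^ 2) ^ 2 / 2 ≤ Real.exp (u + 2 * u ^ 2) :=
    Real.quadratic_le_exp_of_nonneg (by positivity)
  refine le_trans ?_ h4
  rw [inv_le_iff_one_le_mul₀ h2]
  have h5 : u ^ 3 ≤ 9 / 16 * u := by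
    have : u ^ 2 ≤ 9 / 16 := by nlinarith
    nlinarith
  have h6 : 0 ≤ u ^ 2 := sq_nonneg u
  nlinarith [mul_nonneg h6 h0, mul_nonneg h6 h6, mul_nonneg h6 (sub_nonneg.2 h1)]

/-- The sum of `n ^ (-3/2)`. -/
theorem sum_three_half : ∃ C : ℝ, 0 ≤ C ∧ ∀ z : ℕ, ∑ p ∈ pr z, (p : ℝ) ^ (-(3 / 2 : ℝ)) ≤ C := by
  have hs : Summable fun n : ℕ => (n : ℝ) ^ (-(3 / 2 : ℝ)) :=
    Real.summable_nat_rpow.2 (by norm_num)
  have h0 : ∀ n : ℕ, 0 ≤ (n : ℝ) ^ (-(3 / 2 : ℝ)) := fun n =>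
    Real.rpow_nonneg (Nat.cast_nonneg n) _
  exact ⟨_, tsum_nonneg h0, fun z => hs.sum_le_tsum _ fun n _ => h0 n⟩

/-- `∑ p ^ (-s) ≤ log log z + C + (1 - s) z ^ (1 - s) (log z + 2)`. -/
theorem sum_pow : ∃ C : ℝ, 0 ≤ C ∧ ∀ z : ℕ, 2 ≤ z → ∀ η : ℝ, 0 ≤ η →
    ∑ p ∈ pr z, (p : ℝ) ^ (-(1 - η)) ≤
      Real.log (Real.log z) + C + η * (z : ℝ) ^ η * (Real.log z + 2) := by
  obtain ⟨C, hC⟩ := sum_inv
  have hC0 : 0 ≤ C := (abs_nonneg _).trans (hC 2 le_rfl)
  refine ⟨C, hC0, fun z hz η hη => ?_⟩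
  have h1 : ∀ p ∈ pr z, (p : ℝ) ^ (-(1 - η)) ≤
      1 / (p : ℝ) + η * (z : ℝ) ^ η * (Real.log p / p) := by
    intro p hp
    rw [mem_pr] at hp
    have hp0 : (0 : ℝ) < p := by exact_mod_cast hp.1.pos
    have hp1 : (1 : ℝ) ≤ p := by exact_mod_cast hp.1.one_lt.le
    have hlp : 0 ≤ Real.log p := Real.log_nonneg hp1
    have h2 : (p : ℝ) ^ (-(1 - η)) = (p : ℝ) ^ η / p := by
      rw [show -(1 - η) = η - 1 by ring, Real.rpow_sub_one hp0.ne']
    have h3 : (p : ℝ) ^ η ≤ 1 + η * Real.log p * (p : ℝ) ^ η := by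
      have h4 : (p : ℝ) ^ η = Real.exp (η * Real.log p) := by
        rw [Real.rpow_def_of_pos hp0, mul_comm]
      have h5 := Real.add_one_le_exp (-(η * Real.log p))
      rw [Real.exp_neg] at h5
      rw [h4]
      have h6 := Real.exp_pos (η * Real.log p)
      have h7 : (-(η * Real.log p) + 1) * Real.exp (η * Real.log p) ≤ 1 := by
        calc (-(η * Real.log p) + 1) * Real.exp (η * Real.log p) ≤
            (Real.exp (η * Real.log p))⁻¹ * Real.exp (η * Real.log p) :=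
              mul_le_mul_of_nonneg_right h5 h6.le
          _ = 1 := inv_mul_cancel₀ h6.ne'
      linarith
    have h4 : (p : ℝ) ^ η ≤ (z : ℝ) ^ η :=
      Real.rpow_le_rpow hp0.le (by exact_mod_cast hp.2) hη
    have h5 : η * Real.log p * (p : ℝ) ^ η ≤ η * Real.log p * (z : ℝ) ^ η :=
      mul_le_mul_of_nonneg_left h4 (mul_nonneg hη hlp)
    rw [h2, div_le_iff₀ hp0]
    have h6 : (1 / (p : ℝ) + η * (z : ℝ) ^ η * (Real.log p / p)) * p =
        1 + η * Real.log p * (z : ℝ) ^ η := by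
      field_simp
    rw [h6]
    linarith
  refine (sum_le_sum h1).trans ?_
  rw [sum_add_distrib, ← mul_sum]
  have h2 := (abs_le.1 (hC z hz)).2
  have h3 := sum_log_div z (by omega)
  have h4 : 0 ≤ η * (z : ℝ) ^ η := mul_nonneg hη (Real.rpow_nonneg (Nat.cast_nonneg z) _)
  have h5 := mul_le_mul_of_nonneg_left h3 h4
  linarith

/-- Rankin's bound with the product estimated. -/
theorem rankin_exp : ∃ C : ℝ, 0 ≤ C ∧ ∀ z : ℕ, 2 ≤ z → ∀ L : ℝ, 1 ≤ L → ∀ η : ℝ, 0 ≤ η → η ≤ 1 / 4 →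
    ((smo z L).card : ℝ) ≤ L * Real.exp (- η * Real.log L + Real.log (Real.log z) + C +
      η * Real.exp (η * Real.log z) * (Real.log z + 2)) := by
  obtain ⟨C1, hC10, hC1⟩ := sum_three_half
  obtain ⟨C2, hC20, hC2⟩ := sum_pow
  refine ⟨C2 + 2 * C1, by positivity, fun z hz L hL η h0 h1 => ?_⟩
  have hs : 0 < 1 - η := by linarith
  have hz0 : (0 : ℝ) < z := by exact_mod_cast (by omega : 0 < z)
  have hL0 : (0 : ℝ) < L := by linarith
  refine (rankin z L hL0.le (1 - η) hs).trans ?_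
  have h2 : ∏ p ∈ pr z, (1 - (p : ℝ) ^ (-(1 - η)))⁻¹ ≤
      ∏ p ∈ pr z, Real.exp ((p : ℝ) ^ (-(1 - η)) + 2 * (p : ℝ) ^ (-(3 / 2 : ℝ))) := by
    refine prod_le_prod (fun p hp => ?_) fun p hp => ?_
    · have hp1 : (1 : ℝ) < p := by exact_mod_cast (pr_prime hp).one_lt
      have := Real.rpow_lt_one_of_one_lt_of_neg hp1 (show -(1 - η) < 0 by linarith)
      exact inv_nonneg.2 (by linarith)
    · have hp2 : (2 : ℝ) ≤ p := by exact_mod_cast (pr_prime hp).two_le
      have hp0 : (0 : ℝ) < p := by linarith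
      have hu0 : 0 ≤ (p : ℝ) ^ (-(1 - η)) := Real.rpow_nonneg hp0.le _
      have hu1 : (p : ℝ) ^ (-(1 - η)) ≤ 3 / 4 := by
        have h3 : (p : ℝ) ^ (-(1 - η)) ≤ (p : ℝ) ^ (-(1 / 2 : ℝ)) :=
          Real.rpow_le_rpow_of_exponent_le (by linarith) (by linarith)
        have h4 : (p : ℝ) ^ (-(1 / 2 : ℝ)) ≤ (2 : ℝ) ^ (-(1 / 2 : ℝ)) :=
          Real.rpow_le_rpow_of_nonpos (by norm_num) hp2 (by norm_num)
        have h5 : (2 : ℝ) ^ (-(1 / 2 : ℝ)) ≤ 3 / 4 := by
          rw [Real.rpow_neg (by norm_num), ← Real.sqrt_eq_rpow, inv_le_comm₀ (by positivity)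
            (by norm_num)]
          apply Real.le_sqrt_of_sq_le
          norm_num
        linarith
      refine (inv_le_exp hu0 hu1).trans (Real.exp_le_exp.2 ?_)
      have h3 : ((p : ℝ) ^ (-(1 - η))) ^ 2 ≤ (p : ℝ) ^ (-(3 / 2 : ℝ)) := by
        rw [← Real.rpow_natCast, ← Real.rpow_mul hp0.le]
        refine Real.rpow_le_rpow_of_exponent_le (by linarith) ?_
        push_cast
        linarith
      linarith
  have h3 : ∏ p ∈ pr z, Real.exp ((p : ℝ) ^ (-(1 - η)) + 2 * (p : ℝ) ^ (-(3 / 2 : ℝ))) ≤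
      Real.exp (Real.log (Real.log z) + C2 + η * (z : ℝ) ^ η * (Real.log z + 2) + 2 * C1) := by
    rw [← Real.exp_sum, sum_add_distrib, ← mul_sum]
    apply Real.exp_le_exp.2
    have h4 := hC2 z hz η h0
    have h5 := hC1 z
    linarith
  have h4 : L ^ (1 - η) = L * Real.exp (- η * Real.log L) := by
    rw [Real.rpow_sub hL0, Real.rpow_one, Real.rpow_def_of_pos hL0,
      show - η * Real.log L = -(Real.log L * η) by ring, Real.exp_neg, div_eq_mul_inv]
  have h5 : (z : ℝ) ^ η = Real.exp (η * Real.log z) := by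
    rw [Real.rpow_def_of_pos hz0, mul_comm]
  calc L ^ (1 - η) * ∏ p ∈ pr z, (1 - (p : ℝ) ^ (-(1 - η)))⁻¹ ≤
      (L * Real.exp (- η * Real.log L)) *
        Real.exp (Real.log (Real.log z) + C2 + η * (z : ℝ) ^ η * (Real.log z + 2) + 2 * C1) := by
        rw [h4]
        exact mul_le_mul_of_nonneg_left (h2.trans h3) (by positivity)
    _ = _ := by
        rw [mul_assoc, ← Real.exp_add, h5]
        congr 2
        ring

/-- Rankin's bound, in the form of helper65. -/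
theorem rankin_gen : ∃ C : ℝ, 0 < C ∧ ∀ d : ℝ, 0 < d → d ≤ 1 / 4 → ∀ z : ℕ, 2 ≤ z → ∀ L : ℝ, 1 ≤ L →
    ((smo z L).card : ℝ) ≤
      C * L ^ (1 - d) * Real.log z * Real.exp (C * d * (z : ℝ) ^ d * Real.log z) := by
  obtain ⟨C, hC0, hC⟩ := rankin_exp
  refine ⟨max 4 (Real.exp C), lt_max_of_lt_left (by norm_num), fun d hd0 hd1 z hz L hL => ?_⟩
  refine (hC z hz L hL d hd0.le hd1).trans ?_
  have hL0 : (0 : ℝ) < L := by linarith
  have hz2 : (2 : ℝ) ≤ z := by exact_mod_cast hz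
  have hz0 : (0 : ℝ) < z := by linarith
  have hl2 : 1 / 2 ≤ Real.log z := by
    have h1 := Real.log_two_gt_d9
    have h2 : Real.log 2 ≤ Real.log z := Real.log_le_log (by norm_num) hz2
    linarith
  have hlz : 0 < Real.log z := by linarith
  have h1 : L ^ (1 - d) = L * Real.exp (- d * Real.log L) := by
    rw [Real.rpow_sub hL0, Real.rpow_one, Real.rpow_def_of_pos hL0,
      show - d * Real.log L = -(Real.log L * d) by ring, Real.exp_neg, div_eq_mul_inv]
  have h2 : (z : ℝ) ^ d = Real.exp (d * Real.log z) := by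
    rw [Real.rpow_def_of_pos hz0, mul_comm]
  have h3 : Real.exp (- d * Real.log L + Real.log (Real.log z) + C +
      d * Real.exp (d * Real.log z) * (Real.log z + 2)) = Real.exp (- d * Real.log L) *
      (Real.log z * (Real.exp C * Real.exp (d * (z : ℝ) ^ d * (Real.log z + 2)))) := by
    rw [Real.exp_add, Real.exp_add, Real.exp_add, Real.exp_log hlz, h2]
    ring
  rw [h3, h1]
  have h4 : Real.exp (d * (z : ℝ) ^ d * (Real.log z + 2)) ≤
      Real.exp (max 4 (Real.exp C) * d * (z : ℝ) ^ d * Real.log z) := by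
    apply Real.exp_le_exp.2
    have h5 : 0 ≤ d * (z : ℝ) ^ d := mul_nonneg hd0.le (Real.rpow_nonneg hz0.le _)
    have h6 : Real.log z + 2 ≤ max 4 (Real.exp C) * Real.log z := by
      have h7 : 5 * Real.log z ≤ 5 * Real.log z := le_rfl
      have h8 := mul_le_mul_of_nonneg_right (le_max_left 4 (Real.exp C)) hlz.le
      have h9 := Real.log_two_gt_d9
      have h10 : Real.log 2 ≤ Real.log z := Real.log_le_log (by norm_num) hz2
      nlinarith
    calc d * (z : ℝ) ^ d * (Real.log z + 2) ≤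
        d * (z : ℝ) ^ d * (max 4 (Real.exp C) * Real.log z) := mul_le_mul_of_nonneg_left h6 h5
      _ = _ := by ring
  have h5 : Real.exp C ≤ max 4 (Real.exp C) := le_max_right _ _
  calc L * (Real.exp (- d * Real.log L) *
      (Real.log z * (Real.exp C * Real.exp (d * (z : ℝ) ^ d * (Real.log z + 2))))) =
      L * Real.exp (- d * Real.log L) * Real.log z *
        (Real.exp C * Real.exp (d * (z : ℝ) ^ d * (Real.log z + 2))) := by ring
    _ ≤ L * Real.exp (- d * Real.log L) * Real.log z *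
        (max 4 (Real.exp C) * Real.exp (max 4 (Real.exp C) * d * (z : ℝ) ^ d * Real.log z)) := by
        refine mul_le_mul_of_nonneg_left ?_ (by positivity)
        exact mul_le_mul h5 h4 (Real.exp_pos _).le (by positivity)
    _ = _ := by ring

/-- **Smooth numbers in the range of Erdos and Rankin.** For every `A` there is `x0` such that for
`x ≥ x0`, `log z ≤ log x log_3 x / (2 (A + 2) log_2 x)` and `L ≥ x` at most `L / (log x) ^ A` of the
`h ≤ L` have all their prime factors at most `z`. -/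
theorem psi_le (A : ℝ) (hA : 0 ≤ A) : ∃ x0 : ℝ, 3 ≤ x0 ∧ ∀ x : ℝ, x0 ≤ x → ∀ z : ℕ, 2 ≤ z →
    Real.log z ≤ Real.log x * Real.log (Real.log (Real.log x)) /
      (2 * (A + 2) * Real.log (Real.log x)) → ∀ L : ℝ, x ≤ L →
    ((smo z L).card : ℝ) ≤ L / (Real.log x) ^ A := by
  obtain ⟨C, hC0, hC⟩ := rankin_exp
  -- conditions on `l2 = log log x`
  have e1 : ∀ᶠ t : ℝ in Filter.atTop, (A + 2) * Real.log t ≤ t / 4 := by
    have := (Real.isLittleO_log_id_atTop).def (show (0 : ℝ) < 1 / (4 * (A + 2)) by positivity)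
    filter_upwards [this, Filter.eventually_ge_atTop 1] with t h1 h2
    rw [Real.norm_of_nonneg (Real.log_nonneg h2), id, Real.norm_of_nonneg (by linarith)] at h1
    calc (A + 2) * Real.log t ≤ (A + 2) * (1 / (4 * (A + 2)) * t) :=
          mul_le_mul_of_nonneg_left h1 (by linarith)
      _ = t / 4 := by
          have : A + 2 ≠ 0 := by linarith
          field_simp
  have e2 : ∀ᶠ t : ℝ in Filter.atTop,
      Real.sqrt t * (Real.log t / 2 + 1 / 2) + C ≤ t := by
    have h1 : (fun t : ℝ => Real.log t) =o[Filter.atTop] fun t : ℝ => t ^ (1 / 4 : ℝ) :=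
      isLittleO_log_rpow_atTop (by norm_num)
    have h2 := h1.def (show (0 : ℝ) < 1 by norm_num)
    filter_upwards [h2, Filter.eventually_ge_atTop (max 1 ((2 + C) ^ 8))] with t h3 h4
    have h5 : 1 ≤ t := (le_max_left _ _).trans h4
    have h6 : (2 + C) ^ 8 ≤ t := (le_max_right _ _).trans h4
    have h7 : 0 ≤ Real.log t := Real.log_nonneg h5
    rw [Real.norm_of_nonneg h7, one_mul, Real.norm_of_nonneg (by positivity)] at h3
    set v := t ^ (1 / 4 : ℝ) with hv
    have hv1 : 1 ≤ v := Real.one_le_rpow h5 (by norm_num)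
    have hv4 : v ^ 4 = t := by
      rw [hv, ← Real.rpow_natCast, ← Real.rpow_mul (by linarith)]
      norm_num
    have hs : Real.sqrt t = v ^ 2 := by
      rw [← hv4, show v ^ 4 = (v ^ 2) ^ 2 by ring, Real.sqrt_sq (by positivity)]
    have hv2 : (2 + C) ^ 2 ≤ v := by
      by_contra hcon
      push Not at hcon
      have h8 : v ^ 4 < ((2 + C) ^ 2) ^ 4 := pow_lt_pow_left₀ hcon (by linarith) (by norm_num)
      rw [hv4, ← pow_mul] at h8
      norm_num at h8
      linarith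
    rw [hs]
    have h9 : v ^ 2 * (Real.log t / 2 + 1 / 2) ≤ v ^ 2 * v :=
      mul_le_mul_of_nonneg_left (by linarith) (by positivity)
    have h10 : 2 + C ≤ v := by nlinarith
    have h11 : v ^ 2 * v + C ≤ v ^ 4 := by
      have : 1 ≤ v ^ 3 := one_le_pow₀ hv1
      nlinarith
    rw [← hv4] at *
    linarith
  obtain ⟨t1, ht1⟩ := Filter.eventually_atTop.1 e1
  obtain ⟨t2, ht2⟩ := Filter.eventually_atTop.1 e2
  refine ⟨max (max 3 (Real.exp (Real.exp (Real.exp 1)))) (max (Real.exp t1)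
    (Real.exp (Real.exp t2))), le_max_of_le_left (le_max_left _ _), ?_⟩
  intro x hx z hz hlz L hxL
  have hx3 : (3 : ℝ) ≤ x := ((le_max_left _ _).trans (le_max_left _ _)).trans hx
  have hxe : Real.exp (Real.exp (Real.exp 1)) ≤ x :=
    ((le_max_right _ _).trans (le_max_left _ _)).trans hx
  have hxt1 : Real.exp t1 ≤ x := ((le_max_left _ _).trans (le_max_right _ _)).trans hx
  have hxt2 : Real.exp (Real.exp t2) ≤ x := ((le_max_right _ _).trans (le_max_right _ _)).trans hx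
  have hx0 : 0 < x := by linarith
  set l1 := Real.log x with hl1
  set l2 := Real.log l1 with hl2
  set l3 := Real.log l2 with hl3
  have a1 : Real.exp (Real.exp 1) ≤ l1 := (Real.le_log_iff_exp_le hx0).2 hxe
  have l1p : 0 < l1 := (Real.exp_pos _).trans_le a1
  have a2 : Real.exp 1 ≤ l2 := (Real.le_log_iff_exp_le l1p).2 a1
  have l2p : 0 < l2 := (Real.exp_pos _).trans_le a2
  have a3 : 1 ≤ l3 := (Real.le_log_iff_exp_le l2p).2 a2
  have b1 : t1 ≤ l1 := (Real.le_log_iff_exp_le hx0).2 hxt1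
  have b2 : t2 ≤ l2 := (Real.le_log_iff_exp_le l1p).2 ((Real.le_log_iff_exp_le hx0).2 hxt2)
  have c1 := ht1 l1 b1
  have c2 := ht2 l2 b2
  rw [← hl2] at c1
  rw [← hl3] at c2
  have hA2 : 0 < A + 2 := by linarith
  set η := (A + 2) * l2 / l1 with hη
  have hη0 : 0 ≤ η := by positivity
  have hη1 : η ≤ 1 / 4 := by
    rw [hη, div_le_iff₀ l1p]
    linarith
  have hηl : η * l1 = (A + 2) * l2 := by
    rw [hη]
    field_simp
  have hz1 : (1 : ℝ) < z := by exact_mod_cast (by omega : 1 < z)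
  have hlz0 : 0 < Real.log z := Real.log_pos hz1
  have hηz : η * Real.log z ≤ l3 / 2 := by
    calc η * Real.log z ≤ η * (l1 * l3 / (2 * (A + 2) * l2)) :=
          mul_le_mul_of_nonneg_left hlz hη0
      _ = l3 / 2 := by
          rw [hη]
          field_simp
  have hexp : Real.exp (η * Real.log z) ≤ Real.sqrt l2 := by
    have h1 : Real.sqrt l2 = Real.exp (l3 / 2) := by
      rw [hl3, Real.exp_half, Real.exp_log l2p]
    rw [h1]
    exact Real.exp_le_exp.2 hηz
  have hlzl : Real.log z ≤ l1 := by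
    refine hlz.trans ?_
    rw [div_le_iff₀ (by positivity)]
    have h1 : l3 ≤ l2 := by
      have := Real.log_le_sub_one_of_pos l2p
      linarith
    have h2 : l1 * l3 ≤ l1 * l2 := mul_le_mul_of_nonneg_left h1 l1p.le
    have h3 : l1 * l2 ≤ l1 * (2 * (A + 2) * l2) := by
      refine mul_le_mul_of_nonneg_left ?_ l1p.le
      nlinarith
    linarith
  have hllz : Real.log (Real.log z) ≤ l2 := Real.log_le_log hlz0 hlzl
  have hL0 : (0 : ℝ) < L := by linarith
  have hL1 : 1 ≤ L := by linarith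
  have hlL : l1 ≤ Real.log L := Real.log_le_log hx0 hxL
  have h1 := hC z hz L hL1 η hη0 hη1
  refine h1.trans ?_
  have h2 : η * Real.exp (η * Real.log z) * (Real.log z + 2) ≤
      Real.sqrt l2 * (l3 / 2 + 1 / 2) := by
    have h3 : η * Real.exp (η * Real.log z) * (Real.log z + 2) =
        Real.exp (η * Real.log z) * (η * Real.log z + 2 * η) := by ring
    rw [h3]
    exact mul_le_mul hexp (by linarith) (by positivity) (Real.sqrt_nonneg _)
  have h3 : - η * Real.log L + Real.log (Real.log z) + C +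
      η * Real.exp (η * Real.log z) * (Real.log z + 2) ≤ -(A * l2) := by
    have h4 : η * l1 ≤ η * Real.log L := mul_le_mul_of_nonneg_left hlL hη0
    nlinarith
  have h4 : (Real.log x) ^ A = Real.exp (A * l2) := by
    rw [← hl1, Real.rpow_def_of_pos l1p, ← hl2, mul_comm]
  rw [h4, div_eq_mul_inv, ← Real.exp_neg]
  exact mul_le_mul_of_nonneg_left (Real.exp_le_exp.2 h3) hL0.le

/-- The case `A = 1`. -/
theorem psi_one : ∃ x0 : ℝ, 3 ≤ x0 ∧ ∀ x : ℝ, x0 ≤ x → ∀ z : ℕ, 2 ≤ z →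
    Real.log z ≤ Real.log x * Real.log (Real.log (Real.log x)) /
      (6 * Real.log (Real.log x)) → ∀ L : ℝ, x ≤ L →
    ((smo z L).card : ℝ) ≤ L / Real.log x := by
  obtain ⟨x0, h0, h⟩ := psi_le 1 (by norm_num)
  refine ⟨x0, h0, fun x hx z hz hlz L hxL => ?_⟩
  have := h x hx z hz (by convert hlz using 2; ring) L hxL
  rwa [Real.rpow_one] at this

end Pool.Agent.H.MP_711652_nt.LG
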