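import Pool.Agent.H.MP_711652_nt.LG.RankinA

/-!
# MP_711652, LG/RankinB: the parameter `z` of Erdos and Rankin
-/

set_option autoImplicit false

namespace Pool.Agent.H.MP_711652_nt.LG

open Finset

/-- `z = floor (exp (log x log_3 x / (8 log_2 x)))`. -/
noncomputable def zz (x : ℝ) : ℕ :=
  ⌊Real.exp (Real.log x * Real.log (Real.log (Real.log x)) / (8 * Real.log (Real.log x)))⌋₊

theorem psi_small : ∃ x0 : ℝ, 3 ≤ x0 ∧ ∀ x : ℝ, x0 ≤ x → 3 ≤ zz x ∧
    Real.log x * Real.log (Real.log (Real.log x)) / (9 * Real.log (Real.log x)) ≤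
      Real.log (zz x) ∧
    Real.log (zz x) ≤
      Real.log x * Real.log (Real.log (Real.log x)) / (8 * Real.log (Real.log x)) ∧
    ∀ L : ℝ, x ≤ L → ((smo (zz x) L).card : ℝ) ≤ L / Real.log x := by
  obtain ⟨x1, h1, hx1⟩ := psi_one
  have e1 : ∀ᶠ t : ℝ in Filter.atTop, 64 * Real.log t ≤ t := by
    have := (Real.isLittleO_log_id_atTop).def (show (0 : ℝ) < 1 / 64 by norm_num)
    filter_upwards [this, Filter.eventually_ge_atTop 1] with t h1 h2
    rw [Real.norm_of_nonneg (Real.log_nonneg h2), id, Real.norm_of_nonneg (by linarith)] at h1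
    linarith
  obtain ⟨t1, ht1⟩ := Filter.eventually_atTop.1 e1
  refine ⟨max (max x1 (Real.exp (Real.exp (Real.exp 1)))) (Real.exp t1),
    le_max_of_le_left (le_max_of_le_left h1), fun x hx => ?_⟩
  have hxx1 : x1 ≤ x := ((le_max_left _ _).trans (le_max_left _ _)).trans hx
  have hxe : Real.exp (Real.exp (Real.exp 1)) ≤ x :=
    ((le_max_right _ _).trans (le_max_left _ _)).trans hx
  have hxt1 : Real.exp t1 ≤ x := (le_max_right _ _).trans hx
  have hx0 : 0 < x := by linarith
  have a1 : Real.exp (Real.exp 1) ≤ Real.log x := (Real.le_log_iff_exp_le hx0).2 hxe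
  have l1p : 0 < Real.log x := (Real.exp_pos _).trans_le a1
  have a2 : Real.exp 1 ≤ Real.log (Real.log x) := (Real.le_log_iff_exp_le l1p).2 a1
  have l2p : 0 < Real.log (Real.log x) := (Real.exp_pos _).trans_le a2
  have a3 : 1 ≤ Real.log (Real.log (Real.log x)) := (Real.le_log_iff_exp_le l2p).2 a2
  have b1 := ht1 _ ((Real.le_log_iff_exp_le hx0).2 hxt1)
  set E := Real.log x * Real.log (Real.log (Real.log x)) / (8 * Real.log (Real.log x)) with hE
  have hE8 : 8 ≤ E := by
    rw [hE, le_div_iff₀ (by positivity)]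
    nlinarith
  have hzE : (zz x : ℝ) ≤ Real.exp E := Nat.floor_le (Real.exp_pos _).le
  have hexp : 9 ≤ Real.exp E := by
    have := Real.add_one_le_exp E
    linarith
  have hzE' : Real.exp E - 1 < zz x := by
    have := Nat.lt_floor_add_one (Real.exp E)
    have h2 : (zz x : ℝ) = (⌊Real.exp E⌋₊ : ℝ) := rfl
    rw [h2]
    linarith
  have hz3 : 3 ≤ zz x := by
    have : (3 : ℝ) ≤ zz x := by linarith
    exact_mod_cast this
  have hz0 : (0 : ℝ) < zz x := by linarith
  have hup : Real.log (zz x) ≤ E := (Real.log_le_iff_le_exp hz0).2 hzE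
  refine ⟨hz3, ?_, hup, fun L hL => ?_⟩
  · have h2 : Real.log x * Real.log (Real.log (Real.log x)) / (9 * Real.log (Real.log x)) =
        8 / 9 * E := by
      rw [hE]
      field_simp
    rw [h2, Real.le_log_iff_exp_le hz0]
    have h3 : Real.exp (8 / 9 * E) ≤ Real.exp E / 2 := by
      rw [show Real.exp E = Real.exp (8 / 9 * E) * Real.exp (1 / 9 * E) by
        rw [← Real.exp_add]; ring_nf]
      have h4 : 2 ≤ Real.exp (1 / 9 * E) := by
        rw [← Real.log_le_iff_le_exp (by norm_num)]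
        have := Real.log_two_lt_d9
        linarith
      have h5 := Real.exp_pos (8 / 9 * E)
      nlinarith
    linarith
  · refine hx1 x hxx1 (zz x) (by omega) (hup.trans ?_) L hL
    rw [hE]
    have hn : 0 ≤ Real.log x * Real.log (Real.log (Real.log x)) := by positivity
    exact div_le_div_of_nonneg_left hn (by positivity) (by linarith)

open Classical in
/-- The bound for the number of `zz x`-smooth numbers with the filter written out. -/
theorem psi_small' : ∃ x0 : ℝ, 3 ≤ x0 ∧ ∀ x : ℝ, x0 ≤ x → ∀ L : ℝ, x ≤ L →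
    (((Icc 1 ⌊L⌋₊).filter fun h => ∀ p : ℕ, p.Prime → p ∣ h → p ≤ zz x).card : ℝ) ≤
      L / Real.log x := by
  obtain ⟨x0, h0, h⟩ := psi_small
  exact ⟨x0, h0, fun x hx L hL => (h x hx).2.2.2 L hL⟩

end Pool.Agent.H.MP_711652_nt.LG
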