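import Pool.Agent.H.MP_42e49e_nt.Mer

/-!
# Rankin's bound for the number of smooth integers
-/

set_option autoImplicit false

open Finset

namespace Pool.MP711652.LG

open Pool.Agent.H.MP_3e6494_nt (prm mem_prm mert mert_lower mert_upper sum_three_half)
open Pool.MP42e49e (FF FF_le window mert_upper')

/-- the completely multiplicative function `n ↦ n ^ (-σ)` -/
noncomputable def pw (σ : ℝ) : ℕ →* ℝ where
  toFun n := (n : ℝ) ^ (-σ)
  map_one' := by simp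
  map_mul' m n := by
    push_cast
    exact Real.mul_rpow (Nat.cast_nonneg m) (Nat.cast_nonneg n)

open Classical in
/-- the integers in `[1, L]` all of whose prime factors are at most `z` -/
noncomputable def smo (L z : ℕ) : Finset ℕ :=
  (Icc 1 L).filter (fun n => ∀ p : ℕ, p.Prime → p ∣ n → p ≤ z)

theorem mem_smo {L z n : ℕ} :
    n ∈ smo L z ↔ (1 ≤ n ∧ n ≤ L) ∧ ∀ p : ℕ, p.Prime → p ∣ n → p ≤ z := by
  simp only [smo, mem_filter, mem_Icc]

theorem prm_eq_primesBelow (z : ℕ) : prm z = Nat.primesBelow (z + 1) := by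
  ext p
  rw [mem_prm, Nat.mem_primesBelow]
  exact ⟨fun h => ⟨by have := h.2; omega, h.1⟩, fun h => ⟨h.2, by have := h.1; omega⟩⟩

theorem rankin (L z : ℕ) {σ : ℝ} (hσ : 0 < σ) :
    ((#(smo L z) : ℕ) : ℝ) ≤ (L : ℝ) ^ σ * ∏ p ∈ prm z, (1 - (p : ℝ) ^ (-σ))⁻¹ := by
  classical
  have hf : ∀ {p : ℕ}, p.Prime → ‖pw σ p‖ < 1 := by
    intro p hp
    have hp1 : (1 : ℝ) < p := by exact_mod_cast hp.one_lt
    change ‖(p : ℝ) ^ (-σ)‖ < 1
    rw [Real.norm_of_nonneg (Real.rpow_nonneg (by linarith) _)]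
    exact Real.rpow_lt_one_of_one_lt_of_neg hp1 (by linarith)
  have h := (EulerProduct.summable_and_hasSum_smoothNumbers_prod_primesBelow_geometric hf (z + 1)).2
  have hL : 0 ≤ (L : ℝ) ^ σ := Real.rpow_nonneg (Nat.cast_nonneg _) _
  -- finite sum
  have h1 : ∑ n ∈ smo L z, (n : ℝ) ^ (-σ) ≤ ∏ p ∈ prm z, (1 - (p : ℝ) ^ (-σ))⁻¹ := by
    have hmem : ∀ n ∈ smo L z, n ∈ Nat.smoothNumbers (z + 1) := by
      intro n hn
      rw [mem_smo] at hn
      rw [Nat.mem_smoothNumbers']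
      intro p hp hpn
      have := hn.2 p hp hpn
      omega
    have h2 : ∑ n ∈ smo L z, (n : ℝ) ^ (-σ) =
        ∑ n ∈ (smo L z).attach.image (fun n => (⟨n.1, hmem n.1 n.2⟩ : Nat.smoothNumbers (z + 1))),
          (pw σ (n : ℕ)) := by
      rw [sum_image]
      · rw [← sum_attach]
        rfl
      · intro a _ b _ hab
        exact Subtype.ext (congrArg (fun x : Nat.smoothNumbers (z + 1) => (x : ℕ)) hab)
    rw [h2, prm_eq_primesBelow]
    refine sum_le_hasSum _ (fun n _ => ?_) h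
    change 0 ≤ ((n : ℕ) : ℝ) ^ (-σ)
    exact Real.rpow_nonneg (Nat.cast_nonneg _) _
  calc ((#(smo L z) : ℕ) : ℝ) = ∑ n ∈ smo L z, (1 : ℝ) := by simp
    _ ≤ ∑ n ∈ smo L z, (L : ℝ) ^ σ * (n : ℝ) ^ (-σ) := by
        refine sum_le_sum fun n hn => ?_
        rw [mem_smo] at hn
        have hn1 : (0 : ℝ) < n := by exact_mod_cast hn.1.1
        have hnL : (n : ℝ) ≤ L := by exact_mod_cast hn.1.2
        rw [Real.rpow_neg hn1.le, ← div_eq_mul_inv, le_div_iff₀ (Real.rpow_pos_of_pos hn1 _), one_mul]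
        exact Real.rpow_le_rpow hn1.le hnL hσ.le
    _ = (L : ℝ) ^ σ * ∑ n ∈ smo L z, (n : ℝ) ^ (-σ) := by rw [mul_sum]
    _ ≤ _ := mul_le_mul_of_nonneg_left h1 hL

theorem inv_one_sub_le {t : ℝ} (h1 : t ≤ 2 / 3) :
    (1 - t)⁻¹ ≤ Real.exp (t + 3 * t ^ 2) := by
  rw [inv_le_comm₀ (by linarith) (Real.exp_pos _), ← Real.exp_neg]
  have h2 := Real.add_one_le_exp (t + 3 * t ^ 2)
  have h3 : Real.exp (-(t + 3 * t ^ 2)) * Real.exp (t + 3 * t ^ 2) = 1 := by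
    rw [← Real.exp_add]; simp
  have h4 : 1 ≤ (1 - t) * (t + 3 * t ^ 2 + 1) := by
    nlinarith [mul_nonneg (sq_nonneg t) (by linarith : 0 ≤ 2 - 3 * t)]
  have h5 : (1 - t) * (t + 3 * t ^ 2 + 1) ≤ (1 - t) * Real.exp (t + 3 * t ^ 2) :=
    mul_le_mul_of_nonneg_left h2 (by linarith)
  have h6 : 0 < Real.exp (t + 3 * t ^ 2) := Real.exp_pos _
  by_contra hcon
  push Not at hcon
  have : (1 - t) * Real.exp (t + 3 * t ^ 2) < Real.exp (-(t + 3 * t ^ 2)) * Real.exp (t + 3 * t ^ 2) :=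
    mul_lt_mul_of_pos_right hcon h6
  linarith

/-- convexity of the exponential -/
theorem rpow_sub_one_le {p z : ℕ} (hp : 2 ≤ p) (hpz : p ≤ z) {η : ℝ} :
    (p : ℝ) ^ η - 1 ≤ Real.log p / Real.log z * ((z : ℝ) ^ η - 1) := by
  have hp1 : (1 : ℝ) < p := by exact_mod_cast hp
  have hz1 : (1 : ℝ) < z := by exact_mod_cast (by omega : 1 < z)
  have hlp : 0 < Real.log p := Real.log_pos hp1
  have hlz : 0 < Real.log z := Real.log_pos hz1
  have hle : Real.log p ≤ Real.log z := Real.log_le_log (by linarith) (by exact_mod_cast hpz)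
  rw [Real.rpow_def_of_pos (by linarith), Real.rpow_def_of_pos (by linarith)]
  set θ := Real.log p / Real.log z with hθ
  have h0 : 0 ≤ θ := by positivity
  have h1 : θ ≤ 1 := by rw [hθ, div_le_one hlz]; exact hle
  have h2 : Real.log p * η = θ * (Real.log z * η) + (1 - θ) * 0 := by
    rw [hθ]; field_simp; ring
  have h3 := convexOn_exp.2 (Set.mem_univ (Real.log z * η)) (Set.mem_univ (0 : ℝ)) h0
    (by linarith : 0 ≤ 1 - θ) (by ring)
  simp only [smul_eq_mul] at h3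
  rw [← h2, Real.exp_zero] at h3
  linarith

theorem sum_rpow_le {z : ℕ} (hz : 3 ≤ z) {η : ℝ} (hη : 0 ≤ η) :
    ∑ p ∈ prm z, (p : ℝ) ^ (-(1 - η)) ≤
      Real.log (Real.log z) + 20 + 3 * ((z : ℝ) ^ η) := by
  have hz1 : (3 : ℝ) ≤ z := by exact_mod_cast hz
  have hlz1 : 1 ≤ Real.log z := by
    rw [Real.le_log_iff_exp_le (by linarith)]
    have := Real.exp_one_lt_d9
    linarith
  have hzη : 1 ≤ (z : ℝ) ^ η := Real.one_le_rpow (by linarith) hη
  have h1 : ∀ p ∈ prm z, (p : ℝ) ^ (-(1 - η)) ≤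
      1 / (p : ℝ) + ((z : ℝ) ^ η - 1) / Real.log z * (Real.log p / p) := by
    intro p hp
    rw [mem_prm] at hp
    have hp0 : (0 : ℝ) < p := by exact_mod_cast hp.1.pos
    have h2 := rpow_sub_one_le hp.1.two_le hp.2 (η := η)
    have h3 : (p : ℝ) ^ (-(1 - η)) = (p : ℝ) ^ η / p := by
      rw [show -(1 - η) = η - 1 by ring, Real.rpow_sub_one hp0.ne']
    rw [h3]
    have h4 : 1 / (p : ℝ) + ((z : ℝ) ^ η - 1) / Real.log z * (Real.log p / p) =
        (1 + Real.log p / Real.log z * ((z : ℝ) ^ η - 1)) / p := by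
      field_simp
    rw [h4]
    exact div_le_div_of_nonneg_right (by linarith) hp0.le
  refine (sum_le_sum h1).trans ?_
  rw [sum_add_distrib, ← mul_sum]
  have h5 : ∑ p ∈ prm z, 1 / (p : ℝ) ≤ Real.log (Real.log z) + 20 := FF_le (by omega)
  have h6 : ∑ p ∈ prm z, Real.log p / p ≤ Real.log z + 2 := mert_upper' (by omega)
  have h7 : ((z : ℝ) ^ η - 1) / Real.log z * ∑ p ∈ prm z, Real.log p / p ≤
      ((z : ℝ) ^ η - 1) / Real.log z * (3 * Real.log z) := by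
    apply mul_le_mul_of_nonneg_left _ (div_nonneg (by linarith) (by linarith))
    linarith
  have h8 : ((z : ℝ) ^ η - 1) / Real.log z * (3 * Real.log z) = 3 * ((z : ℝ) ^ η - 1) := by
    field_simp
  linarith

theorem prod_le {z : ℕ} (hz : 3 ≤ z) {η : ℝ} (hη : 0 ≤ η) (hη1 : η ≤ 1 / 4) :
    ∏ p ∈ prm z, (1 - (p : ℝ) ^ (-(1 - η)))⁻¹ ≤
      Real.exp (Real.log (Real.log z) + 26 + 3 * ((z : ℝ) ^ η)) := by
  have ht : ∀ p ∈ prm z, (p : ℝ) ^ (-(1 - η)) ≤ 2 / 3 ∧ 0 ≤ (p : ℝ) ^ (-(1 - η)) ∧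
      ((p : ℝ) ^ (-(1 - η))) ^ 2 ≤ 1 / (p * √p) := by
    intro p hp
    rw [mem_prm] at hp
    have hp2 : (2 : ℝ) ≤ p := by exact_mod_cast hp.1.two_le
    have hp0 : (0 : ℝ) < p := by linarith
    have hle : (p : ℝ) ^ (-(1 - η)) ≤ (p : ℝ) ^ (-(3 / 4) : ℝ) :=
      Real.rpow_le_rpow_of_exponent_le (by linarith) (by linarith)
    have h0 : 0 ≤ (p : ℝ) ^ (-(1 - η)) := Real.rpow_nonneg hp0.le _
    refine ⟨?_, h0, ?_⟩
    · refine hle.trans ?_
      have h2 : (p : ℝ) ^ (-(3 / 4) : ℝ) ≤ (2 : ℝ) ^ (-(3 / 4) : ℝ) :=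
        Real.rpow_le_rpow_of_nonpos (by norm_num) hp2 (by norm_num)
      refine h2.trans ?_
      have h3 : ((2 : ℝ) ^ (-(3 / 4) : ℝ)) ^ 4 = 1 / 8 := by
        rw [← Real.rpow_natCast, ← Real.rpow_mul (by norm_num)]
        norm_num
      have h4 : 0 ≤ (2 : ℝ) ^ (-(3 / 4) : ℝ) := Real.rpow_nonneg (by norm_num) _
      by_contra hcon
      push Not at hcon
      have : ((2 : ℝ) / 3) ^ 4 < ((2 : ℝ) ^ (-(3 / 4) : ℝ)) ^ 4 :=
        pow_lt_pow_left₀ hcon (by norm_num) (by norm_num)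
      rw [h3] at this
      norm_num at this
    · calc ((p : ℝ) ^ (-(1 - η))) ^ 2 ≤ ((p : ℝ) ^ (-(3 / 4) : ℝ)) ^ 2 :=
            pow_le_pow_left₀ h0 hle 2
        _ = 1 / (p * √p) := by
            rw [← Real.rpow_natCast, ← Real.rpow_mul hp0.le, Real.sqrt_eq_rpow]
            have : (p : ℝ) * (p : ℝ) ^ (1 / 2 : ℝ) = (p : ℝ) ^ (3 / 2 : ℝ) := by
              nth_rewrite 1 [← Real.rpow_one (p : ℝ)]
              rw [← Real.rpow_add hp0]
              congr 1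
              norm_num
            rw [this, one_div, ← Real.rpow_neg hp0.le]
            norm_num
  have h1 : ∏ p ∈ prm z, (1 - (p : ℝ) ^ (-(1 - η)))⁻¹ ≤
      ∏ p ∈ prm z, Real.exp ((p : ℝ) ^ (-(1 - η)) + 3 * ((p : ℝ) ^ (-(1 - η))) ^ 2) := by
    refine prod_le_prod (fun p hp => ?_) (fun p hp => ?_)
    · have := ht p hp
      exact inv_nonneg.2 (by linarith [this.1])
    · exact inv_one_sub_le (ht p hp).1
  refine h1.trans ?_
  rw [← Real.exp_sum, Real.exp_le_exp, sum_add_distrib, ← mul_sum]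
  have h2 := sum_rpow_le hz hη
  have h3 : ∑ p ∈ prm z, ((p : ℝ) ^ (-(1 - η))) ^ 2 ≤ 2 := by
    calc ∑ p ∈ prm z, ((p : ℝ) ^ (-(1 - η))) ^ 2 ≤ ∑ p ∈ prm z, 1 / ((p : ℝ) * √p) :=
          sum_le_sum fun p hp => (ht p hp).2.2
      _ ≤ ∑ n ∈ Icc 2 (z + 1), (1 : ℝ) / (n * √n) := by
          refine sum_le_sum_of_subset_of_nonneg ?_ (fun n _ _ => by positivity)
          intro p hp
          rw [mem_prm] at hp
          rw [mem_Icc]
          exact ⟨hp.1.two_le, by omega⟩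
      _ ≤ 2 - 2 / √((z : ℝ) + 1) := sum_three_half z
      _ ≤ 2 := by
          have : 0 ≤ 2 / √((z : ℝ) + 1) := by positivity
          linarith
  linarith

/-- Rankin's bound -/
theorem smo_card_le {L z : ℕ} (hz : 3 ≤ z) {η : ℝ} (hη : 0 ≤ η) (hη1 : η ≤ 1 / 4) :
    ((#(smo L z) : ℕ) : ℝ) ≤
      (L : ℝ) ^ (1 - η) * Real.exp (Real.log (Real.log z) + 26 + 3 * ((z : ℝ) ^ η)) := by
  refine (rankin L z (σ := 1 - η) (by linarith)).trans ?_
  exact mul_le_mul_of_nonneg_left (prod_le hz hη hη1) (Real.rpow_nonneg (Nat.cast_nonneg _) _)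

end Pool.MP711652.LG
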