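import Pool.Agent.H.MP_711652_nt.LG.Stmt
import Pool.Agent.H.MP_711652_nt.LG.Greedy
import Pool.Agent.H.MP_711652_nt.LG.RankinB
import Pool.Agent.H.MP_711652_nt.LG.PrimeSum

/-!
# MP_711652, LG/Stage1: the choice of the residues of the small primes (Erdos-Rankin)

At most `c₀ x` of the numbers `ν + 1, ..., ν + L`, `L = c x (log x)^2 log_3 x / (log_2 x)^2`, are
coprime to the primes up to `x / 10`.
-/

set_option autoImplicit false

namespace Pool.Agent.H.MP_711652_nt.LG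

open Finset

/-- The numbers up to `n` without a prime factor in `(z, D]` are `z`-smooth or multiples of a prime
in `(D, n]`. -/
theorem stage1_card (L : ℝ) (hL : 0 ≤ L) (z D : ℕ) :
    (((Icc 1 ⌊L⌋₊).filter fun h => ∀ p ∈ (Ioc z D).filter Nat.Prime, ¬ p ∣ h).card : ℝ) ≤
      ((smo z L).card : ℝ) + L * ∑ p ∈ (Ioc D ⌊L⌋₊).filter Nat.Prime, 1 / (p : ℝ) := by
  classical
  have hsub : ((Icc 1 ⌊L⌋₊).filter fun h => ∀ p ∈ (Ioc z D).filter Nat.Prime, ¬ p ∣ h) ⊆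
      smo z L ∪ ((Ioc D ⌊L⌋₊).filter Nat.Prime).biUnion fun p =>
        (Icc 1 ⌊L⌋₊).filter fun h => p ∣ h := by
    intro h hh
    rw [mem_filter, mem_Icc] at hh
    obtain ⟨⟨h1, h2⟩, h3⟩ := hh
    rw [mem_union, mem_smo, mem_biUnion]
    by_cases hs : ∀ p : ℕ, p.Prime → p ∣ h → p ≤ z
    · exact Or.inl ⟨⟨h1, h2⟩, hs⟩
    · right
      push Not at hs
      obtain ⟨p, hp, hph, hpz⟩ := hs
      have hple : p ≤ ⌊L⌋₊ := (Nat.le_of_dvd (by omega) hph).trans h2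
      have hpD : D < p := by
        by_contra hc
        exact h3 p (mem_filter.2 ⟨mem_Ioc.2 ⟨hpz, by omega⟩, hp⟩) hph
      exact ⟨p, mem_filter.2 ⟨mem_Ioc.2 ⟨hpD, hple⟩, hp⟩,
        mem_filter.2 ⟨mem_Icc.2 ⟨h1, h2⟩, hph⟩⟩
  have h1 := (card_le_card hsub).trans (card_union_le _ _)
  have h2 : ((((Ioc D ⌊L⌋₊).filter Nat.Prime).biUnion fun p =>
        (Icc 1 ⌊L⌋₊).filter fun h => p ∣ h).card : ℝ) ≤
      L * ∑ p ∈ (Ioc D ⌊L⌋₊).filter Nat.Prime, 1 / (p : ℝ) := by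
    refine (Nat.cast_le.2 (card_biUnion_le)).trans ?_
    rw [Nat.cast_sum, mul_sum]
    refine sum_le_sum fun p hp => ?_
    have hp' := (mem_filter.1 hp).2
    have hp0 : (0 : ℝ) < p := by exact_mod_cast hp'.pos
    have h3 : ((Icc 1 ⌊L⌋₊).filter fun h => p ∣ h).card = ⌊L⌋₊ / p := by
      have := Nat.Ioc_filter_dvd_card_eq_div ⌊L⌋₊ p
      rw [← this]
      rfl
    rw [h3, mul_one_div]
    calc ((⌊L⌋₊ / p : ℕ) : ℝ) ≤ (⌊L⌋₊ : ℝ) / p := Nat.cast_div_le
      _ ≤ L / p := div_le_div_of_nonneg_right (Nat.floor_le hL) hp0.le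
  have h3 : (((Icc 1 ⌊L⌋₊).filter fun h => ∀ p ∈ (Ioc z D).filter Nat.Prime, ¬ p ∣ h).card : ℝ) ≤
      ((smo z L).card : ℝ) + ((((Ioc D ⌊L⌋₊).filter Nat.Prime).biUnion fun p =>
        (Icc 1 ⌊L⌋₊).filter fun h => p ∣ h).card : ℝ) := by exact_mod_cast h1
  linarith

theorem stage1 : Stage1 := by
  intro c₀ hc₀
  obtain ⟨C, hC, hprod⟩ := prod_primes_le
  obtain ⟨x1, hx13, hpsi⟩ := psi_small
  set c : ℝ := min 1 (c₀ / (333 * C)) with hc
  have hc0 : 0 < c := lt_min one_pos (by positivity)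
  have hc1 : c ≤ 1 := min_le_left _ _
  have hcC : 333 * C * c ≤ c₀ := by
    have h1 : c ≤ c₀ / (333 * C) := min_le_right _ _
    rw [le_div_iff₀ (by positivity)] at h1
    linarith
  refine ⟨c, hc0, ?_⟩
  -- conditions for large `x`
  have e1 : ∀ᶠ t : ℝ in Filter.atTop, Real.log t ^ 2 ≤ c * t ^ 2 := by
    have := (Real.isLittleO_log_id_atTop).def hc0
    filter_upwards [this, Filter.eventually_ge_atTop 1] with t h1 h2
    rw [Real.norm_of_nonneg (Real.log_nonneg h2), id, Real.norm_of_nonneg (by linarith)] at h1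
    have h3 : Real.log t ^ 2 ≤ (c * t) ^ 2 := pow_le_pow_left₀ (Real.log_nonneg h2) h1 2
    have h4 : c * (c * t ^ 2) ≤ 1 * (c * t ^ 2) := mul_le_mul_of_nonneg_right hc1 (by positivity)
    nlinarith
  obtain ⟨t1, ht1⟩ := Filter.eventually_atTop.1 e1
  have e2 : ∀ᶠ x : ℝ in Filter.atTop, x ^ (1 / 2 : ℝ) * 1 ≤ x / 10 - 1 := by
    filter_upwards [Filter.eventually_ge_atTop 400] with x h2
    rw [← Real.sqrt_eq_rpow]
    have h3 : 20 ≤ Real.sqrt x := Real.le_sqrt_of_sq_le (by linarith)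
    have h4 : Real.sqrt x * Real.sqrt x = x := Real.mul_self_sqrt (by linarith)
    nlinarith
  obtain ⟨x2, hx2⟩ := Filter.eventually_atTop.1 e2
  refine ⟨max (max (max x1 (Real.exp (Real.exp (Real.exp 1)))) (Real.exp t1))
    (max x2 (Real.exp 9)), fun x hx => ?_⟩
  have hxx1 : x1 ≤ x := (((le_max_left _ _).trans (le_max_left _ _)).trans (le_max_left _ _)).trans hx
  have hxe : Real.exp (Real.exp (Real.exp 1)) ≤ x :=
    (((le_max_right _ _).trans (le_max_left _ _)).trans (le_max_left _ _)).trans hx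
  have hxt1 : Real.exp t1 ≤ x := ((le_max_right _ _).trans (le_max_left _ _)).trans hx
  have hxx2 : x2 ≤ x := ((le_max_left _ _).trans (le_max_right _ _)).trans hx
  have hx9 : Real.exp 9 ≤ x := ((le_max_right _ _).trans (le_max_right _ _)).trans hx
  have hx0 : 0 < x := by linarith
  have a1 : Real.exp (Real.exp 1) ≤ Real.log x := (Real.le_log_iff_exp_le hx0).2 hxe
  have l1p : 0 < Real.log x := (Real.exp_pos _).trans_le a1
  have a2 : Real.exp 1 ≤ Real.log (Real.log x) := (Real.le_log_iff_exp_le l1p).2 a1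
  have l2p : 0 < Real.log (Real.log x) := (Real.exp_pos _).trans_le a2
  have a3 : 1 ≤ Real.log (Real.log (Real.log x)) := (Real.le_log_iff_exp_le l2p).2 a2
  have b1 := ht1 _ ((Real.le_log_iff_exp_le hx0).2 hxt1)
  have b2 := hx2 _ hxx2
  obtain ⟨hz3, hzlo, hzup, hsmo⟩ := hpsi x hxx1
  set l1 := Real.log x with hl1
  set l2 := Real.log l1 with hl2
  set l3 := Real.log l2 with hl3
  have l2one : 1 ≤ l2 := by
    have := Real.add_one_le_exp (1 : ℝ)
    linarith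
  have l32 : l3 ≤ l2 := (Real.log_le_sub_one_of_pos l2p).trans (by linarith)
  have l21 : l2 ≤ l1 := (Real.log_le_sub_one_of_pos l1p).trans (by linarith)
  have l1one : 1 ≤ l1 := l2one.trans l21
  set L : ℝ := c * (x * l1 ^ 2 * l3 / l2 ^ 2) with hLdef
  have hL0 : 0 ≤ L := by positivity
  have hLx : x ≤ L := by
    rw [hLdef, ← mul_div_assoc, le_div_iff₀ (by positivity)]
    have h1 : x * l2 ^ 2 ≤ x * (c * l1 ^ 2) := mul_le_mul_of_nonneg_left b1 hx0.le
    have h2 : x * (c * l1 ^ 2) * 1 ≤ x * (c * l1 ^ 2) * l3 :=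
      mul_le_mul_of_nonneg_left a3 (by positivity)
    nlinarith
  have hLup : L ≤ x * l1 ^ 3 := by
    have h1 : l3 / l2 ^ 2 ≤ 1 := by
      rw [div_le_one (by positivity)]
      nlinarith
    have h2 : L = c * (l3 / l2 ^ 2) * (x * l1 ^ 2) := by
      rw [hLdef]
      ring
    have h3 : c * (l3 / l2 ^ 2) ≤ 1 * 1 := mul_le_mul hc1 h1 (by positivity) one_pos.le
    have h4 : x * l1 ^ 2 ≤ x * l1 ^ 3 := by
      apply mul_le_mul_of_nonneg_left _ hx0.le
      exact pow_le_pow_right₀ l1one (by norm_num)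
    rw [h2]
    calc c * (l3 / l2 ^ 2) * (x * l1 ^ 2) ≤ 1 * (x * l1 ^ 2) :=
          mul_le_mul_of_nonneg_right (by linarith) (by positivity)
      _ ≤ x * l1 ^ 3 := by linarith
  -- `z ≤ D`
  have hzD : zz x ≤ ⌊x / 10⌋₊ := by
    have h0 : (0 : ℝ) < zz x := by exact_mod_cast (show 0 < zz x by omega)
    have h1 : Real.log (zz x) ≤ Real.log (x ^ (1 / 2 : ℝ)) := by
      rw [Real.log_rpow hx0]
      refine hzup.trans ?_
      rw [div_le_iff₀ (by positivity)]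
      nlinarith
    have h2 : (zz x : ℝ) ≤ x ^ (1 / 2 : ℝ) :=
      (Real.log_le_log_iff h0 (Real.rpow_pos_of_pos hx0 _)).1 h1
    have h3 : (zz x : ℝ) ≤ x / 10 - 1 := by linarith
    have h4 : x / 10 - 1 < (⌊x / 10⌋₊ : ℝ) := Nat.sub_one_lt_floor _
    have h5 : (zz x : ℝ) < (⌊x / 10⌋₊ : ℝ) := by linarith
    exact le_of_lt (by exact_mod_cast h5)
  obtain ⟨ν, -, hν⟩ := Pool.MP711652.LG.greedy_primorial (Icc 1 ⌊L⌋₊) hzD
  refine ⟨ν, ?_⟩
  have hLL : LL c x = ⌊L⌋₊ := rfl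
  rw [hLL]
  have hP : ∏ p ∈ (Icc 1 (zz x)).filter Nat.Prime, (1 - 1 / (p : ℝ)) ≤
      C * (9 * l2) / (l1 * l3) := by
    refine (hprod (zz x) (by omega)).trans ?_
    rw [div_le_div_iff₀ (lt_of_lt_of_le (by positivity) hzlo) (by positivity)]
    rw [div_le_iff₀ (by positivity)] at hzlo
    nlinarith
  have hP0 : 0 ≤ ∏ p ∈ (Icc 1 (zz x)).filter Nat.Prime, (1 - 1 / (p : ℝ)) := by
    refine prod_nonneg fun p hp => ?_
    have hp' : (1 : ℝ) ≤ p := by exact_mod_cast (mem_filter.1 hp).2.one_le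
    have : 1 / (p : ℝ) ≤ 1 := by
      rw [div_le_one (by linarith)]
      exact hp'
    linarith
  have hcard := stage1_card L hL0 (zz x) ⌊x / 10⌋₊
  have hsum := sum_inv_large hx9 hLup
  have hsm := hsmo L hLx
  have hbound : ((smo (zz x) L).card : ℝ) +
      L * ∑ p ∈ (Ioc ⌊x / 10⌋₊ ⌊L⌋₊).filter Nat.Prime, 1 / (p : ℝ) ≤ 37 * L * l2 / l1 := by
    have h1 : L * ∑ p ∈ (Ioc ⌊x / 10⌋₊ ⌊L⌋₊).filter Nat.Prime, 1 / (p : ℝ) ≤
        L * (36 * l2 / l1) := mul_le_mul_of_nonneg_left hsum hL0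
    have h2 : L / l1 ≤ L * l2 / l1 :=
      div_le_div_of_nonneg_right (le_mul_of_one_le_right hL0 l2one) l1p.le
    have h3 : 37 * L * l2 / l1 = L * l2 / l1 + L * (36 * l2 / l1) := by ring
    rw [h3]
    linarith
  refine hν.trans ?_
  calc _ ≤ C * (9 * l2) / (l1 * l3) * (37 * L * l2 / l1) :=
        mul_le_mul hP (hcard.trans hbound) (Nat.cast_nonneg _) (by positivity)
    _ = 333 * C * c * x := by
        rw [hLdef]
        field_simp
        ring
    _ ≤ c₀ * x := mul_le_mul_of_nonneg_right hcC hx0.le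

end Pool.Agent.H.MP_711652_nt.LG
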