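import Pool.Agent.H.MP_711652_nt.LG.Sums

/-!
# Lower bound for the normalising sum
-/

set_option autoImplicit false

open Finset

namespace LG

open Pool.Agent.H.MP_3e6494_nt (prm mem_prm)

theorem tel {D : ℕ} (hD : 2 ≤ D) {r : ℝ} (hr : 1 < r) (n : ℕ) :
    (∑ i ∈ range n, if r ≤ (D : ℝ) ^ (2 ^ i) then 1 / (2 ^ (i + 1) * Real.log D) else 0) +
      (if r ≤ (D : ℝ) ^ (2 ^ n) then 1 / (2 ^ n * Real.log D) else 0) ≤ 1 / Real.log r := by
  have hD1 : (1 : ℝ) < D := by exact_mod_cast hD
  have hL : 0 < Real.log D := Real.log_pos hD1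
  have hlr : 0 < Real.log r := Real.log_pos hr
  have key : ∀ m : ℕ, r ≤ (D : ℝ) ^ (2 ^ m) → 1 / (2 ^ m * Real.log D) ≤ 1 / Real.log r := by
    intro m hm
    apply one_div_le_one_div_of_le hlr
    have h := Real.log_le_log (by linarith) hm
    rw [Real.log_pow] at h
    push_cast at h
    exact h
  induction n with
  | zero =>
    rw [range_zero, sum_empty, zero_add]
    split_ifs with h
    · exact key 0 h
    · exact (one_div_pos.2 hlr).le
  | succ n ih =>
    rw [sum_range_succ]
    by_cases h : r ≤ (D : ℝ) ^ (2 ^ n)
    · have h2 : r ≤ (D : ℝ) ^ (2 ^ (n + 1)) :=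
        h.trans (pow_le_pow_right₀ hD1.le (Nat.pow_le_pow_right (by norm_num) (Nat.le_succ n)))
      rw [if_pos h] at ih
      rw [if_pos h, if_pos h2]
      have e : 1 / (2 ^ (n + 1) * Real.log D) + 1 / (2 ^ (n + 1) * Real.log D) =
          1 / (2 ^ n * Real.log D) := by
        rw [pow_succ]
        field_simp
        norm_num
      linarith
    · have h0 : (∑ i ∈ range n, if r ≤ (D : ℝ) ^ (2 ^ i) then 1 / (2 ^ (i + 1) * Real.log D)
          else 0) = 0 := by
        refine sum_eq_zero fun i hi => ?_
        rw [if_neg]
        intro h1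
        apply h
        exact h1.trans (pow_le_pow_right₀ hD1.le
          (Nat.pow_le_pow_right (by norm_num) (mem_range.1 hi).le))
      rw [h0, if_neg h, zero_add, zero_add]
      split_ifs with h1
      · exact key _ h1
      · exact (one_div_pos.2 hlr).le

theorem S1_ge_gen {D B n : ℕ} (hD : 2 ≤ D) (hB : D ^ (2 ^ n) ≤ B) :
    n * VV D / 4 - 1 / Real.log D ≤ S1 D B := by
  have hD1 : (1 : ℝ) < D := by exact_mod_cast hD
  have hL : 0 < Real.log D := Real.log_pos hD1
  have hV := VV_pos D
  have hle : ∀ i ∈ range n, D ^ (2 ^ i) ≤ B := fun i hi =>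
    (Nat.pow_le_pow_right (by omega) (Nat.pow_le_pow_right (by norm_num)
      (mem_range.1 hi).le)).trans hB
  calc (n : ℝ) * VV D / 4 - 1 / Real.log D
      ≤ ∑ i ∈ range n, (VV D / 4 - 1 / (2 ^ (i + 1) * Real.log D)) := by
        rw [sum_sub_distrib, sum_const, card_range, nsmul_eq_mul]
        have h : ∑ i ∈ range n, 1 / (2 ^ (i + 1) * Real.log D) ≤ 1 / Real.log D := by
          have h1 : ∀ m : ℕ, ∑ i ∈ range m, 1 / (2 ^ (i + 1) * Real.log D) =
              1 / Real.log D - 1 / (2 ^ m * Real.log D) := by
            intro m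
            induction m with
            | zero => simp
            | succ m ih =>
              rw [sum_range_succ, ih, pow_succ]
              field_simp
              ring
          rw [h1 n]
          have : 0 < 1 / (2 ^ n * Real.log D) := by positivity
          linarith
        linarith
    _ ≤ ∑ i ∈ range n, 1 / (2 ^ (i + 1) * Real.log D) *
        ∑ S ∈ (QQ D B).filter (fun S => pr S ≤ (D : ℝ) ^ (2 ^ i)), 1 / ph S := by
        refine sum_le_sum fun i hi => ?_
        have h1 := AA_ge D (D ^ (2 ^ i))
        have h2 : AA D (D ^ (2 ^ i)) ≤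
            1 + ∑ S ∈ (QQ D B).filter (fun S => pr S ≤ (D : ℝ) ^ (2 ^ i)), 1 / ph S := by
          unfold AA
          have h3 : (prs D (D ^ (2 ^ i))).powerset.filter
              (fun S => pr S ≤ ((D ^ (2 ^ i) : ℕ) : ℝ)) ⊆
              insert ∅ ((QQ D B).filter (fun S => pr S ≤ (D : ℝ) ^ (2 ^ i))) := by
            intro S hS
            rw [mem_filter, mem_powerset] at hS
            rw [mem_insert]
            rcases S.eq_empty_or_nonempty with h4 | h4
            · exact Or.inl h4
            · right
              rw [mem_filter, mem_QQ]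
              have h5 := hS.2
              push_cast at h5
              refine ⟨⟨?_, h4, ?_⟩, h5⟩
              · intro p hp
                have h6 := mem_prs.1 (hS.1 hp)
                exact mem_prs.2 ⟨h6.1, h6.2.1.trans (hle i hi), h6.2.2⟩
              · refine h5.trans ?_
                exact_mod_cast hle i hi
          have h7 : ∅ ∉ (QQ D B).filter (fun S => pr S ≤ (D : ℝ) ^ (2 ^ i)) := by
            intro h8
            rw [mem_filter, mem_QQ] at h8
            exact not_nonempty_empty h8.1.2.1
          calc _ ≤ ∑ S ∈ insert ∅ ((QQ D B).filter (fun S => pr S ≤ (D : ℝ) ^ (2 ^ i))),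
                1 / ph S := by
                refine sum_le_sum_of_subset_of_nonneg h3 ?_
                intro S hS _
                rw [mem_insert] at hS
                rcases hS with rfl | hS
                · simp [ph]
                · exact (one_div_pos.2 (ph_pos (QQ_prime (mem_filter.1 hS).1))).le
            _ = _ := by
                rw [sum_insert h7]
                simp [ph]
        have h9 : Real.log (((D ^ (2 ^ i) : ℕ) : ℝ) + 1) ≥ 2 ^ i * Real.log D := by
          have h10 : (0 : ℝ) < ((D ^ (2 ^ i) : ℕ) : ℝ) := by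
            exact_mod_cast Nat.pow_pos (by omega)
          have h11 := Real.log_le_log h10 (show ((D ^ (2 ^ i) : ℕ) : ℝ) ≤
            ((D ^ (2 ^ i) : ℕ) : ℝ) + 1 by linarith)
          have h12 : Real.log ((D ^ (2 ^ i) : ℕ) : ℝ) = 2 ^ i * Real.log D := by
            push_cast
            rw [Real.log_pow]
            push_cast
            ring
          rw [h12] at h11
          exact h11
        have h13 : VV D * (2 ^ i * Real.log D) / 2 - 1 ≤
            ∑ S ∈ (QQ D B).filter (fun S => pr S ≤ (D : ℝ) ^ (2 ^ i)), 1 / ph S := by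
          have h14 := mul_le_mul_of_nonneg_left h9 hV.le
          linarith
        have h15 : VV D / 4 - 1 / (2 ^ (i + 1) * Real.log D) =
            1 / (2 ^ (i + 1) * Real.log D) * (VV D * (2 ^ i * Real.log D) / 2 - 1) := by
          rw [pow_succ]
          field_simp
          ring
        rw [h15]
        exact mul_le_mul_of_nonneg_left h13 (by positivity)
    _ = ∑ S ∈ QQ D B, (∑ i ∈ range n, if pr S ≤ (D : ℝ) ^ (2 ^ i) then
          1 / (2 ^ (i + 1) * Real.log D) else 0) * (1 / ph S) := by
        simp_rw [sum_filter, mul_sum, sum_mul]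
        rw [sum_comm]
        refine sum_congr rfl fun S _ => sum_congr rfl fun i _ => ?_
        split_ifs
        · rfl
        · rw [mul_zero, zero_mul]
    _ ≤ ∑ S ∈ QQ D B, 1 / Real.log (pr S) * (1 / ph S) := by
        refine sum_le_sum fun S hS => ?_
        refine mul_le_mul_of_nonneg_right ?_ (one_div_pos.2 (ph_pos (QQ_prime hS))).le
        have h1 : 1 < pr S := by
          have := lt_pr_of_QQ hS
          linarith
        refine le_trans ?_ (tel hD h1 n)
        have : 0 ≤ (if pr S ≤ (D : ℝ) ^ (2 ^ n) then 1 / (2 ^ n * Real.log D) else 0) := by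
          split_ifs
          · positivity
          · exact le_rfl
        linarith
    _ = S1 D B := by
        unfold S1
        refine sum_congr rfl fun S _ => ?_
        rw [one_div_mul_one_div, mul_comm]

end LG
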