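import Pool.Agent.H.MP_711652_nt.LG.Defs

set_option autoImplicit false

namespace Pool.Agent.H.MP_711652_nt.LG

open Finset

variable {ι : Type*} [Fintype ι] [DecidableEq ι]

/-- The primes at position `i`. -/
def tilt1_T (P : Finset ℕ) (i : ι) (σ : P → Option ι) : Finset ℕ :=
  (univ.filter fun p : P => σ p = some i).map (Function.Embedding.subtype _)

/-- Remove the primes at position `i`. -/
def tilt1_c (P : Finset ℕ) (i : ι) (σ : P → Option ι) : P → Option ι :=
  fun p => if σ p = some i then none else σ p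

theorem tilt1_mem (P : Finset ℕ) (i : ι) (σ : P → Option ι) (p : P) :
    (p : ℕ) ∈ tilt1_T P i σ ↔ σ p = some i := by
  simp [tilt1_T]

theorem tilt1_sub (P : Finset ℕ) (i : ι) (σ : P → Option ι) : tilt1_T P i σ ⊆ P := by
  intro q hq
  simp only [tilt1_T, Finset.mem_map, Finset.mem_filter, Function.Embedding.subtype_apply] at hq
  obtain ⟨p, -, rfl⟩ := hq
  exact p.2

theorem tilt1_inj (P : Finset ℕ) (i : ι) (σ τ : P → Option ι)
    (h1 : tilt1_T P i σ = tilt1_T P i τ) (h2 : tilt1_c P i σ = tilt1_c P i τ) : σ = τ := by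
  funext p
  have e1 : σ p = some i ↔ τ p = some i := by
    rw [← tilt1_mem, ← tilt1_mem, h1]
  have e2 := congrFun h2 p
  simp only [tilt1_c] at e2
  by_cases h : σ p = some i
  · rw [h, e1.1 h]
  · rwa [if_neg h, if_neg fun h' => h (e1.2 h')] at e2

theorem tilt1_rr_self (P : Finset ℕ) (i : ι) (σ : P → Option ι) :
    rr P σ i = ∏ p ∈ tilt1_T P i σ, p := by
  rw [tilt1_T, Finset.prod_map, Finset.prod_filter]
  rfl

theorem tilt1_rr_c (P : Finset ℕ) (i : ι) (σ : P → Option ι) :
    rr P (tilt1_c P i σ) i = 1 := by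
  rw [rr]
  refine Finset.prod_eq_one fun p _ => if_neg ?_
  by_cases h : σ p = some i
  · rw [show tilt1_c P i σ p = none from if_pos h]; simp
  · rw [show tilt1_c P i σ p = σ p from if_neg h]; exact h

theorem tilt1_rr_ne (P : Finset ℕ) (i j : ι) (hij : j ≠ i) (σ : P → Option ι) :
    rr P (tilt1_c P i σ) j = rr P σ j := by
  rw [rr, rr]
  refine Finset.prod_congr rfl fun p _ => ?_
  by_cases h : σ p = some i
  · have h' : σ p ≠ some j := by
      rw [h]; intro h'; exact hij (Option.some.inj h').symm
    have e : tilt1_c P i σ p ≠ some j := by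
      rw [show tilt1_c P i σ p = none from if_pos h]; simp
    rw [if_neg h', if_neg e]
  · have e : tilt1_c P i σ p = σ p := if_neg h
    by_cases h' : σ p = some j
    · rw [if_pos (e.trans h'), if_pos h']
    · rw [if_neg (fun h'' => h' (e.symm.trans h'')), if_neg h']

theorem tilt1_DD (P : Finset ℕ) (hP : ∀ p ∈ P, p.Prime) (i : ι) (σ : P → Option ι) :
    DD P (tilt1_c P i σ) ≤ DD P σ := by
  rw [DD, DD]
  refine Finset.prod_le_prod (fun _ _ => Nat.zero_le _) fun p _ => ?_
  have hp := (hP p p.2).one_lt.le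
  by_cases h : σ p = some i
  · have e : tilt1_c P i σ p = none := if_pos h
    rw [if_pos e, if_neg (by rw [h]; simp)]
    exact hp
  · have e : tilt1_c P i σ p = σ p := if_neg h
    by_cases h' : σ p = none
    · rw [if_pos (e.trans h'), if_pos h']
    · rw [if_neg (fun h'' => h' (e.symm.trans h'')), if_neg h']

/-- PROOF. Split the sum over `σ` according to the set `T` of the primes at position `i`; for given `T` the map which puts
these primes to `none` is injective, does not increase `DD` and does not change the `rr σ j`, `j ≠ i`; the image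
has `rr σ' i = 1`. -/
theorem one_step (P : Finset ℕ) (hP : ∀ p ∈ P, p.Prime) (Y : ℕ) (i : ι) (u : ι → ℕ → ℝ)
    (hu : ∀ j n, 0 ≤ u j n) :
    SS P Y u ≤ (∑ T ∈ P.powerset, u i (∏ p ∈ T, p)) * SS P Y (Function.update u i del) := by
  classical
  have hv : ∀ j n, 0 ≤ Function.update u i del j n := by
    intro j n
    by_cases hj : j = i
    · subst hj
      rw [Function.update_self, del]
      split_ifs <;> norm_num
    · rw [Function.update_of_ne hj]; exact hu j n
  set F : Finset ℕ × (P → Option ι) → ℝ := fun x => u i (∏ p ∈ x.1, p) *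
    (if DD P x.2 ≤ Y then ∏ j, Function.update u i del j (rr P x.2 j) else 0) with hF
  have hF0 : ∀ x, 0 ≤ F x := by
    intro x
    refine mul_nonneg (hu _ _) ?_
    split_ifs
    · exact Finset.prod_nonneg fun j _ => hv _ _
    · exact le_rfl
  have hR : (∑ T ∈ P.powerset, u i (∏ p ∈ T, p)) * SS P Y (Function.update u i del) =
      ∑ x ∈ P.powerset ×ˢ (univ : Finset (P → Option ι)), F x := by
    rw [SS, Finset.sum_mul_sum, Finset.sum_product]
  rw [hR]
  have hinj : Function.Injective fun σ : P → Option ι => (tilt1_T P i σ, tilt1_c P i σ) := by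
    intro σ τ h
    simp only [Prod.mk.injEq] at h
    exact tilt1_inj P i σ τ h.1 h.2
  calc SS P Y u ≤ ∑ σ : P → Option ι, F (tilt1_T P i σ, tilt1_c P i σ) := by
        rw [SS]
        refine Finset.sum_le_sum fun σ _ => ?_
        by_cases h : DD P σ ≤ Y
        · rw [if_pos h]
          simp only [hF]
          rw [if_pos ((tilt1_DD P hP i σ).trans h), ← tilt1_rr_self]
          rw [← Finset.mul_prod_erase univ _ (Finset.mem_univ i),
            ← Finset.mul_prod_erase univ _ (Finset.mem_univ i), Function.update_self,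
            tilt1_rr_c]
          rw [del, if_pos rfl, one_mul]
          refine le_of_eq (congrArg _ (Finset.prod_congr rfl fun j hj => ?_))
          have hji := Finset.ne_of_mem_erase hj
          rw [Function.update_of_ne hji, tilt1_rr_ne P i j hji]
        · rw [if_neg h]; exact hF0 _
    _ = ∑ x ∈ (univ : Finset (P → Option ι)).image
          fun σ => (tilt1_T P i σ, tilt1_c P i σ), F x := by
        rw [Finset.sum_image fun σ _ τ _ h => hinj h]
    _ ≤ _ := by
        refine Finset.sum_le_sum_of_subset_of_nonneg ?_ fun x _ _ => hF0 x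
        intro x hx
        obtain ⟨σ, -, rfl⟩ := Finset.mem_image.1 hx
        exact Finset.mem_product.2 ⟨Finset.mem_powerset.2 (tilt1_sub P i σ), Finset.mem_univ _⟩

/-- monotonicity -/
theorem SS_mono (P : Finset ℕ) (Y : ℕ) (u v : ι → ℕ → ℝ) (hu : ∀ j n, 0 ≤ u j n)
    (huv : ∀ j n, u j n ≤ v j n) : SS P Y u ≤ SS P Y v := by
  rw [SS, SS]
  refine Finset.sum_le_sum fun σ _ => ?_
  split_ifs
  · exact Finset.prod_le_prod (fun j _ => hu _ _) fun j _ => huv _ _
  · exact le_rfl

end Pool.Agent.H.MP_711652_nt.LG
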